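import Mathlib

/-!
# MP_5186fc_co : edge-magic total labelings of grids, definitions and the covering criterion
-/

set_option autoImplicit false

open SimpleGraph

namespace Pool.Agent.Helper29.EMT

/-- `G` is edge-magic total: there is a bijective labeling of the vertices and edges by
`1, …, v + e` such that for every edge the sum of its label and of the labels of its two ends
is the same constant `k`. -/
def IsEMT {V : Type*} (G : SimpleGraph V) : Prop :=
  ∃ (f : V ⊕ G.edgeSet → ℕ) (k : ℕ),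
    Set.BijOn f Set.univ (Set.Icc 1 (Nat.card V + Nat.card G.edgeSet)) ∧
    ∀ (x y : V) (h : G.Adj x y),
      f (Sum.inl x) + f (Sum.inr ⟨s(x, y), h⟩) + f (Sum.inl y) = k

/-- the `m × n` grid `P_m □ P_n` -/
abbrev grid (m n : ℕ) : SimpleGraph (Fin m × Fin n) := pathGraph m □ pathGraph n

/-- The label of an edge computed from the labels of the vertices. -/
def edgeVal {m n : ℕ} (f : ℕ → ℕ → ℤ) (K : ℤ) : Sym2 (Fin m × Fin n) → ℤ :=
  Sym2.lift ⟨fun x y => K - f x.1 x.2 - f y.1 y.2, fun x y => by ring⟩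

@[simp] theorem edgeVal_mk {m n : ℕ} (f : ℕ → ℕ → ℤ) (K : ℤ) (x y : Fin m × Fin n) :
    edgeVal f K s(x, y) = K - f x.1 x.2 - f y.1 y.2 := rfl

theorem grid_adj_vert {m n : ℕ} (r c : ℕ) (hr : r + 1 < m) (hc : c < n) :
    (grid m n).Adj (⟨r, by omega⟩, ⟨c, hc⟩) (⟨r + 1, hr⟩, ⟨c, hc⟩) := by
  simp [grid, pathGraph_adj]

theorem grid_adj_horiz {m n : ℕ} (r c : ℕ) (hr : r < m) (hc : c + 1 < n) :
    (grid m n).Adj (⟨r, hr⟩, ⟨c, by omega⟩) (⟨r, hr⟩, ⟨c + 1, hc⟩) := by
  simp [grid, pathGraph_adj]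

/-- upper bound for the number of edges of the grid -/
theorem card_edges_le (m n : ℕ) :
    Nat.card (grid m n).edgeSet ≤ (m - 1) * n + m * (n - 1) := by
  let φ : (Fin (m - 1) × Fin n) ⊕ (Fin m × Fin (n - 1)) → (grid m n).edgeSet := fun x =>
    match x with
    | Sum.inl (r, c) => ⟨s((⟨r.1, by omega⟩, c), (⟨r.1 + 1, by omega⟩, c)),
        grid_adj_vert r.1 c.1 (by omega) c.2⟩
    | Sum.inr (r, c) => ⟨s((r, ⟨c.1, by omega⟩), (r, ⟨c.1 + 1, by omega⟩)),
        grid_adj_horiz r.1 c.1 r.2 (by omega)⟩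
  have hφ : Function.Surjective φ := by
    rintro ⟨e, he⟩
    induction e using Sym2.ind with
    | _ x y =>
      obtain ⟨⟨a, ha⟩, ⟨b, hb⟩⟩ := x
      obtain ⟨⟨a', ha'⟩, ⟨b', hb'⟩⟩ := y
      rw [mem_edgeSet] at he
      simp only [grid, boxProd_adj, pathGraph_adj, Fin.mk.injEq] at he
      rcases he with ⟨h | h, h2⟩ | ⟨h | h, h2⟩
      · subst h2; subst h
        exact ⟨Sum.inl (⟨a, by omega⟩, ⟨b, hb⟩), rfl⟩
      · subst h2; subst h
        refine ⟨Sum.inl (⟨a', by omega⟩, ⟨b, hb⟩), ?_⟩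
        simp only [φ, Subtype.mk.injEq]
        exact Sym2.eq_swap
      · subst h2; subst h
        exact ⟨Sum.inr (⟨a, ha⟩, ⟨b, by omega⟩), rfl⟩
      · subst h2; subst h
        refine ⟨Sum.inr (⟨a, ha⟩, ⟨b', by omega⟩), ?_⟩
        simp only [φ, Subtype.mk.injEq]
        exact Sym2.eq_swap
  have h1 := Nat.card_le_card_of_surjective φ hφ
  have h2 : Nat.card ((Fin (m - 1) × Fin n) ⊕ (Fin m × Fin (n - 1)))
      = (m - 1) * n + m * (n - 1) := by simp
  omega

/-- **Covering criterion.**  If the vertex labels `f r c` and the edge labels `K - (sum of the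
ends)` together take every value in `[0, 3mn - m - n)`, the grid is edge-magic total. -/
theorem isEMT_of_cover (m n : ℕ) (hm : 1 ≤ m) (hn : 1 ≤ n) (f : ℕ → ℕ → ℤ) (K : ℤ)
    (hcov : ∀ l : ℤ, 0 ≤ l → l < 3 * m * n - m - n →
      (∃ r c : ℕ, r < m ∧ c < n ∧ f r c = l) ∨
      (∃ r c : ℕ, r + 1 < m ∧ c < n ∧ K - f r c - f (r + 1) c = l) ∨
      (∃ r c : ℕ, r < m ∧ c + 1 < n ∧ K - f r c - f r (c + 1) = l)) :
    IsEMT (grid m n) := by
  classical
  have : Fintype (grid m n).edgeSet := Fintype.ofFinite _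
  let g : (Fin m × Fin n) ⊕ (grid m n).edgeSet → ℤ := fun x =>
    match x with
    | Sum.inl v => f v.1 v.2
    | Sum.inr e => edgeVal f K e.1
  set L : ℤ := 3 * m * n - m - n with hL
  -- the number of objects is at most `L`
  have hcard : (Fintype.card ((Fin m × Fin n) ⊕ (grid m n).edgeSet) : ℤ) ≤ L := by
    have h1 := card_edges_le m n
    rw [Nat.card_eq_fintype_card] at h1
    rw [Fintype.card_sum, Fintype.card_prod, Fintype.card_fin, Fintype.card_fin]
    obtain ⟨m', rfl⟩ : ∃ m', m = m' + 1 := ⟨m - 1, by omega⟩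
    obtain ⟨n', rfl⟩ : ∃ n', n = n' + 1 := ⟨n - 1, by omega⟩
    simp only [Nat.add_sub_cancel] at h1
    have h2 : ((Fintype.card (grid (m' + 1) (n' + 1)).edgeSet : ℕ) : ℤ)
        ≤ (m' : ℤ) * (n' + 1) + (m' + 1) * n' := by exact_mod_cast h1
    push_cast [hL]
    nlinarith [h2]
  have hsub : Finset.Ico (0 : ℤ) L ⊆ Finset.univ.image g := by
    intro l hl
    rw [Finset.mem_Ico] at hl
    rw [Finset.mem_image]
    rcases hcov l hl.1 hl.2 with ⟨r, c, hr, hc, h⟩ | ⟨r, c, hr, hc, h⟩ | ⟨r, c, hr, hc, h⟩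
    · exact ⟨Sum.inl (⟨r, hr⟩, ⟨c, hc⟩), Finset.mem_univ _, h⟩
    · refine ⟨Sum.inr ⟨s((⟨r, by omega⟩, ⟨c, hc⟩), (⟨r + 1, hr⟩, ⟨c, hc⟩)),
        grid_adj_vert r c hr hc⟩, Finset.mem_univ _, ?_⟩
      simpa [g] using h
    · refine ⟨Sum.inr ⟨s((⟨r, hr⟩, ⟨c, by omega⟩), (⟨r, hr⟩, ⟨c + 1, hc⟩)),
        grid_adj_horiz r c hr hc⟩, Finset.mem_univ _, ?_⟩
      simpa [g] using h
  have hLnn : 0 ≤ L := by
    have : (0 : ℤ) ≤ (Fintype.card ((Fin m × Fin n) ⊕ (grid m n).edgeSet) : ℤ) := by positivity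
    omega
  have hcle : (Finset.univ.image g).card ≤ (Finset.Ico (0 : ℤ) L).card := by
    have h1 : (Finset.univ.image g).card ≤ Fintype.card ((Fin m × Fin n) ⊕ (grid m n).edgeSet) :=
      Finset.card_image_le
    rw [Int.card_Ico]
    omega
  have heq : Finset.Ico (0 : ℤ) L = Finset.univ.image g :=
    Finset.eq_of_subset_of_card_le hsub hcle
  have hcardeq : (Finset.univ.image g).card
      = (Finset.univ : Finset ((Fin m × Fin n) ⊕ (grid m n).edgeSet)).card := by
    have h1 : (Finset.univ.image g).card ≤ Fintype.card ((Fin m × Fin n) ⊕ (grid m n).edgeSet) :=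
      Finset.card_image_le
    have h2 : (Finset.Ico (0 : ℤ) L).card = (Finset.univ.image g).card := by rw [heq]
    rw [Int.card_Ico] at h2
    rw [Finset.card_univ]
    omega
  have hinj : Function.Injective g := by
    have := Finset.card_image_iff.1 hcardeq
    intro a b hab
    exact this (Finset.mem_coe.2 (Finset.mem_univ a)) (Finset.mem_coe.2 (Finset.mem_univ b)) hab
  have hLcard : L = (Nat.card (Fin m × Fin n) + Nat.card (grid m n).edgeSet : ℕ) := by
    have h2 : (Finset.Ico (0 : ℤ) L).card = (Finset.univ.image g).card := by rw [heq]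
    rw [hcardeq, Int.card_Ico, Finset.card_univ, Fintype.card_sum] at h2
    rw [Nat.card_eq_fintype_card, Nat.card_eq_fintype_card]
    omega
  have hrange : ∀ x, 0 ≤ g x ∧ g x < L := by
    intro x
    have : g x ∈ Finset.Ico (0 : ℤ) L := by
      rw [heq]; exact Finset.mem_image_of_mem g (Finset.mem_univ x)
    rwa [Finset.mem_Ico] at this
  refine ⟨fun x => (g x + 1).toNat, (K + 3).toNat, ⟨?_, ?_, ?_⟩, ?_⟩
  · intro x _
    have := hrange x
    simp only [Set.mem_Icc]
    omega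
  · intro a _ b _ hab
    have ha := hrange a
    have hb := hrange b
    apply hinj
    simp only at hab
    omega
  · intro y hy
    rw [Set.mem_Icc] at hy
    have : (y : ℤ) - 1 ∈ Finset.univ.image g := by
      rw [← heq, Finset.mem_Ico]
      omega
    obtain ⟨x, -, hx⟩ := Finset.mem_image.1 this
    refine ⟨x, Set.mem_univ x, ?_⟩
    simp only
    omega
  · intro x y h
    have h1 := (hrange (Sum.inl x)).1
    have h2 := (hrange (Sum.inl y)).1
    have h3 := (hrange (Sum.inr ⟨s(x, y), h⟩)).1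
    have h4 : g (Sum.inr ⟨s(x, y), h⟩) = K - f x.1 x.2 - f y.1 y.2 := rfl
    have h5 : g (Sum.inl x) = f x.1 x.2 := rfl
    have h6 : g (Sum.inl y) = f y.1 y.2 := rfl
    simp only
    omega

/-- being edge-magic total is invariant under isomorphism -/
theorem IsEMT.iso {V W : Type*} {G : SimpleGraph V} {H : SimpleGraph W} (e : G ≃g H)
    (hG : IsEMT G) : IsEMT H := by
  obtain ⟨f, k, hf, hk⟩ := hG
  let E : W ⊕ H.edgeSet ≃ V ⊕ G.edgeSet := Equiv.sumCongr e.symm.toEquiv e.symm.mapEdgeSet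
  have hc : Nat.card V + Nat.card G.edgeSet = Nat.card W + Nat.card H.edgeSet := by
    rw [Nat.card_congr e.toEquiv, Nat.card_congr e.mapEdgeSet]
  refine ⟨fun x => f (E x), k, ?_, ?_⟩
  · rw [← hc]
    exact hf.comp (Set.bijOn_univ.2 E.bijective)
  · intro x y h
    have h' : G.Adj (e.symm x) (e.symm y) := e.symm.map_adj_iff.2 h
    have := hk (e.symm x) (e.symm y) h'
    exact this

theorem isEMT_grid_symm {m n : ℕ} (h : IsEMT (grid m n)) : IsEMT (grid n m) :=
  h.iso (boxProdComm (pathGraph m) (pathGraph n))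

end Pool.Agent.Helper29.EMT
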