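import Mathlib
import Pool.Agent.Helper29.EMT.Defs

/-!
# MP_5186fc_co : the zigzag chain (layer tiling) criterion

Rows `r < m`, columns `c < n`.  The layer `j` (`0 ≤ j ≤ n`) is `{(r, c) : c + r % 2 = j}`; it is
labelled by `a j + r` for `1 ≤ j ≤ n - 1`, and by `a j + r / 2` for `j = 0` and `j = n`.
The edges between the layers `j` and `j + 1` have consecutive sums.
-/

set_option autoImplicit false

open SimpleGraph

namespace Pool.Agent.Helper29.EMT

/-- `S` contains all the integers of `[x, y)` -/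
def Cov (S : Set ℤ) (x y : ℤ) : Prop := ∀ l : ℤ, x ≤ l → l < y → l ∈ S

theorem Cov.trans {S : Set ℤ} {x y z : ℤ} (h1 : Cov S x y) (h2 : Cov S y z) : Cov S x z := by
  intro l hl hl'
  by_cases h : l < y
  · exact h1 l hl h
  · exact h2 l (by omega) hl'

theorem Cov.self (S : Set ℤ) (x : ℤ) : Cov S x x := by
  intro l hl hl'; omega

/-- concatenation of `k` consecutive intervals `[p i, p (i+1))` -/
theorem Cov.iter {S : Set ℤ} (p : ℕ → ℤ) (k : ℕ) (h : ∀ i, i < k → Cov S (p i) (p (i + 1))) :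
    Cov S (p 0) (p k) := by
  induction k with
  | zero => exact Cov.self S _
  | succ k ih => exact (ih (fun i hi => h i (by omega))).trans (h k (by omega))

/-- concatenation in the reverse order -/
theorem Cov.iterRev {S : Set ℤ} (p : ℕ → ℤ) (k : ℕ) (h : ∀ i, i < k → Cov S (p (i + 1)) (p i)) :
    Cov S (p k) (p 0) := by
  induction k with
  | zero => exact Cov.self S _
  | succ k ih => exact (h k (by omega)).trans (ih (fun i hi => h i (by omega)))

theorem Cov.congr {S : Set ℤ} {x y x' y' : ℤ} (h : Cov S x y) (hx : x = x') (hy : y = y') :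
    Cov S x' y' := by subst hx; subst hy; exact h

/-- the vertex labels of the chain -/
def fC (n : ℕ) (a : ℕ → ℤ) (r c : ℕ) : ℤ :=
  if c + r % 2 = 0 ∨ c + r % 2 = n then a (c + r % 2) + (r / 2 : ℕ) else a (c + r % 2) + r

theorem fC_zero (n : ℕ) (a : ℕ → ℤ) (i : ℕ) : fC n a (2 * i) 0 = a 0 + i := by
  have h1 : (2 * i) % 2 = 0 := by omega
  have h2 : (2 * i) / 2 = i := by omega
  rw [fC, h1, h2, if_pos (Or.inl rfl)]

theorem fC_last (n : ℕ) (hn : 1 ≤ n) (a : ℕ → ℤ) (i : ℕ) :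
    fC n a (2 * i + 1) (n - 1) = a n + i := by
  have h1 : (2 * i + 1) % 2 = 1 := by omega
  have h2 : (2 * i + 1) / 2 = i := by omega
  have h3 : n - 1 + 1 = n := by omega
  rw [fC, h1, h2, h3, if_pos (Or.inr rfl)]

theorem fC_mid (n : ℕ) (a : ℕ → ℤ) (r c j : ℕ) (h : c + r % 2 = j) (h1 : 1 ≤ j) (h2 : j < n) :
    fC n a r c = a j + r := by
  rw [fC, h, if_neg (by omega)]

/-- the labels covered by the chain -/
def chainSet (m n : ℕ) (a : ℕ → ℤ) (K : ℤ) : Set ℤ :=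
  {l | (∃ i : ℕ, 2 * i < m ∧ a 0 + i = l) ∨
    (∃ i : ℕ, 2 * i + 1 < m ∧ a n + i = l) ∨
    (∃ j r : ℕ, 1 ≤ j ∧ j < n ∧ r < m ∧ a j + r = l) ∨
    (∃ s : ℕ, 2 * s + 3 ≤ 3 * m ∧ K - a 0 - a 1 - s = l) ∨
    (∃ s : ℕ, 2 * s + 4 ≤ 3 * m ∧ K - a (n - 1) - a n - s = l) ∨
    (∃ j s : ℕ, 1 ≤ j ∧ j + 1 < n ∧ s + 2 ≤ 2 * m ∧ K - a j - a (j + 1) - s = l)}

/-- **Chain criterion.** -/
theorem isEMT_of_chain (m n : ℕ) (hm : 2 ≤ m) (hn : 2 ≤ n) (a : ℕ → ℤ) (K : ℤ)
    (hcov : Cov (chainSet m n a K) 0 (3 * m * n - m - n)) : IsEMT (grid m n) := by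
  refine isEMT_of_cover m n (by omega) (by omega) (fC n a) K ?_
  intro l hl0 hl1
  rcases hcov l hl0 hl1 with ⟨i, hi, h⟩ | ⟨i, hi, h⟩ | ⟨j, r, hj1, hj2, hr, h⟩ | ⟨s, hs, h⟩ |
    ⟨s, hs, h⟩ | ⟨j, s, hj1, hj2, hs, h⟩
  · left
    exact ⟨2 * i, 0, hi, by omega, by rw [fC_zero]; exact h⟩
  · left
    exact ⟨2 * i + 1, n - 1, hi, by omega, by rw [fC_last n (by omega)]; exact h⟩
  · left
    refine ⟨r, j - r % 2, hr, by omega, ?_⟩
    rw [fC_mid n a r (j - r % 2) j (by omega) hj1 hj2]; exact h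
  · right
    obtain ⟨i, hi⟩ : ∃ i, i = s / 3 := ⟨_, rfl⟩
    have h3 : s = 3 * i ∨ s = 3 * i + 1 ∨ s = 3 * i + 2 := by omega
    rcases h3 with h3 | h3 | h3
    · right
      refine ⟨2 * i, 0, by omega, by omega, ?_⟩
      rw [fC_zero, fC_mid n a (2 * i) (0 + 1) 1 (by omega) (by omega) (by omega), ← h, h3]
      push_cast; ring
    · left
      refine ⟨2 * i, 0, by omega, by omega, ?_⟩
      rw [fC_zero, fC_mid n a (2 * i + 1) 0 1 (by omega) (by omega) (by omega), ← h, h3]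
      push_cast; ring
    · left
      refine ⟨2 * i + 1, 0, by omega, by omega, ?_⟩
      rw [show 2 * i + 1 + 1 = 2 * (i + 1) by ring, fC_zero,
        fC_mid n a (2 * i + 1) 0 1 (by omega) (by omega) (by omega), ← h, h3]
      push_cast; ring
  · right
    obtain ⟨i, hi⟩ : ∃ i, i = s / 3 := ⟨_, rfl⟩
    have h3 : s = 3 * i ∨ s = 3 * i + 1 ∨ s = 3 * i + 2 := by omega
    rcases h3 with h3 | h3 | h3
    · left
      refine ⟨2 * i, n - 1, by omega, by omega, ?_⟩
      rw [fC_last n (by omega), fC_mid n a (2 * i) (n - 1) (n - 1) (by omega) (by omega)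
        (by omega), ← h, h3]
      push_cast; ring
    · right
      refine ⟨2 * i + 1, n - 2, by omega, by omega, ?_⟩
      rw [show n - 2 + 1 = n - 1 by omega, fC_last n (by omega),
        fC_mid n a (2 * i + 1) (n - 2) (n - 1) (by omega) (by omega) (by omega), ← h, h3]
      push_cast; ring
    · left
      refine ⟨2 * i + 1, n - 1, by omega, by omega, ?_⟩
      rw [fC_last n (by omega), fC_mid n a (2 * i + 1 + 1) (n - 1) (n - 1) (by omega) (by omega)
        (by omega), ← h, h3]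
      push_cast; ring
  · right
    rcases Nat.even_or_odd' s with ⟨r, hr | hr⟩
    · right
      refine ⟨r, j - r % 2, by omega, by omega, ?_⟩
      rw [fC_mid n a r (j - r % 2) j (by omega) hj1 (by omega),
        fC_mid n a r (j - r % 2 + 1) (j + 1) (by omega) (by omega) hj2, ← h, hr]
      push_cast; ring
    · left
      rcases Nat.even_or_odd' r with ⟨i, hi | hi⟩
      · refine ⟨r, j, by omega, by omega, ?_⟩
        rw [fC_mid n a r j j (by omega) hj1 (by omega),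
          fC_mid n a (r + 1) j (j + 1) (by omega) (by omega) hj2, ← h, hr]
        push_cast; ring
      · refine ⟨r, j, by omega, by omega, ?_⟩
        rw [fC_mid n a r j (j + 1) (by omega) (by omega) hj2,
          fC_mid n a (r + 1) j j (by omega) hj1 (by omega), ← h, hr]
        push_cast; ring

/-! Covering lemmas for the single blocks. -/

theorem cov_N (m n : ℕ) (a : ℕ → ℤ) (K : ℤ) (j : ℕ) (h1 : 1 ≤ j) (h2 : j < n) :
    Cov (chainSet m n a K) (a j) (a j + m) := by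
  intro l hl hl'
  exact Or.inr (Or.inr (Or.inl ⟨j, (l - a j).toNat, h1, h2, by omega, by omega⟩))

theorem cov_N0 (m n : ℕ) (a : ℕ → ℤ) (K : ℤ) :
    Cov (chainSet m n a K) (a 0) (a 0 + ((m + 1) / 2 : ℕ)) := by
  intro l hl hl'
  exact Or.inl ⟨(l - a 0).toNat, by omega, by omega⟩

theorem cov_Nn (m n : ℕ) (a : ℕ → ℤ) (K : ℤ) :
    Cov (chainSet m n a K) (a n) (a n + (m / 2 : ℕ)) := by
  intro l hl hl'
  exact Or.inr (Or.inl ⟨(l - a n).toNat, by omega, by omega⟩)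

theorem cov_E (m n : ℕ) (a : ℕ → ℤ) (K : ℤ) (j : ℕ) (h1 : 1 ≤ j) (h2 : j + 1 < n) :
    Cov (chainSet m n a K) (K - a j - a (j + 1) - 2 * m + 2) (K - a j - a (j + 1) + 1) := by
  intro l hl hl'
  exact Or.inr (Or.inr (Or.inr (Or.inr (Or.inr
    ⟨j, (K - a j - a (j + 1) - l).toNat, h1, h2, by omega, by omega⟩))))

theorem cov_E0 (m n : ℕ) (a : ℕ → ℤ) (K : ℤ) :
    Cov (chainSet m n a K) (K - a 0 - a 1 - ((3 * m - 1) / 2 : ℕ) + 1) (K - a 0 - a 1 + 1) := by
  intro l hl hl'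
  exact Or.inr (Or.inr (Or.inr (Or.inl
    ⟨(K - a 0 - a 1 - l).toNat, by omega, by omega⟩)))

theorem cov_En (m n : ℕ) (a : ℕ → ℤ) (K : ℤ) :
    Cov (chainSet m n a K) (K - a (n - 1) - a n - ((3 * m - 2) / 2 : ℕ) + 1)
      (K - a (n - 1) - a n + 1) := by
  intro l hl hl'
  exact Or.inr (Or.inr (Or.inr (Or.inr (Or.inl
    ⟨(K - a (n - 1) - a n - l).toNat, by omega, by omega⟩))))

end Pool.Agent.Helper29.EMT
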