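import Mathlib
import Pool.Agent.Helper29.EMT.Chain

/-!
# MP_5186fc_co : alternating words for the zigzag chain with an even number of rows

The blocks of vertices and of edges alternate on the line of labels; `N j` is the rank of the
block of the layer `j` among the vertex blocks, and `zV`, `zE` count the short blocks before a
vertex block, an edge block, of a given rank.
-/

set_option autoImplicit false

open SimpleGraph

namespace Pool.Agent.Helper29.EMT

theorem isEMT_of_alt (h r : ℕ) (hh : 1 ≤ h) (hr : 2 ≤ r) (N : ℕ → ℕ) (zV zE : ℕ → ℤ) (c : ℤ)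
    (h00 : zV 0 = 0)
    (hV : ∀ x, x < r → ∃ j, j ≤ r ∧ N j = x ∧ zE x = zV x + (if j = 0 ∨ j = r then 1 else 0))
    (hNr : N r = r) (hzr : zV r = 3)
    (hE : ∀ y, y < r → ∃ j, j < r ∧ (N j : ℤ) + N (j + 1) + y = c ∧
      zV (N j) + zV (N (j + 1)) + zE y = (if j = 0 ∨ j + 1 = r then 4 else 5) ∧
      zV (y + 1) = zE y + (if j = 0 ∨ j + 1 = r then 1 else 0)) :
    IsEMT (grid (2 * h) r) := by
  obtain ⟨a, ha⟩ : ∃ a : ℕ → ℤ, ∀ j, a j = (N j : ℤ) * (6 * h - 1) - zV (N j) * h :=
    ⟨fun j => _, fun j => rfl⟩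
  obtain ⟨K, hK⟩ : ∃ K : ℤ, K = c * (6 * h - 1) + h - 2 := ⟨_, rfl⟩
  refine isEMT_of_chain (2 * h) r (by omega) hr a K ?_
  set S := chainSet (2 * h) r a K with hS
  have e1 : (2 * h + 1) / 2 = h := by omega
  have e2 : 2 * h / 2 = h := by omega
  have e3 : (((3 * (2 * h) - 1) / 2 : ℕ) : ℤ) = 3 * h - 1 := by omega
  have e4 : (((3 * (2 * h) - 2) / 2 : ℕ) : ℤ) = 3 * h - 1 := by omega
  have hstep : ∀ x : ℕ, x < r → Cov S ((x : ℤ) * (6 * h - 1) - zV x * h)
      (((x + 1 : ℕ) : ℤ) * (6 * h - 1) - zV (x + 1) * h) := by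
    intro x hx
    have c1 : Cov S ((x : ℤ) * (6 * h - 1) - zV x * h)
        ((x : ℤ) * (6 * h - 1) + 2 * h - zE x * h) := by
      obtain ⟨j, hj, hNj, hz⟩ := hV x hx
      by_cases h0 : j = 0
      · have h1 := cov_N0 (2 * h) r a K
        rw [e1, ha, ← h0, hNj] at h1
        rw [if_pos (Or.inl h0)] at hz
        refine h1.congr rfl ?_
        rw [hz]; ring
      · by_cases h1 : j = r
        · exfalso
          rw [h1, hNr] at hNj
          omega
        · have h2 := cov_N (2 * h) r a K j (by omega) (by omega)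
          rw [ha, hNj] at h2
          rw [if_neg (by omega)] at hz
          refine h2.congr rfl ?_
          rw [hz]; push_cast; ring
    have c2 : Cov S ((x : ℤ) * (6 * h - 1) + 2 * h - zE x * h)
        (((x + 1 : ℕ) : ℤ) * (6 * h - 1) - zV (x + 1) * h) := by
      obtain ⟨j, hj, hsum, hz, hz'⟩ := hE x hx
      have hc : (N j : ℤ) = c - x - N (j + 1) := by linarith
      by_cases h0 : j = 0
      · have h1 := cov_E0 (2 * h) r a K
        rw [e3, ha, ha] at h1
        rw [if_pos (Or.inl h0)] at hz hz'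
        have hz1 : zE x = 4 - zV (N j) - zV (N (j + 1)) := by linarith
        rw [h0] at hz1 hc
        refine h1.congr ?_ ?_
        · rw [hK, hz1, hc]; ring
        · rw [hz', hK, hz1, hc]; push_cast; ring
      · by_cases h1 : j + 1 = r
        · have h2 := cov_En (2 * h) r a K
          rw [e4, ha, ha, show r - 1 = j by omega] at h2
          rw [if_pos (Or.inr h1)] at hz hz'
          have hz1 : zE x = 4 - zV (N j) - zV (N (j + 1)) := by linarith
          rw [h1] at hz1 hc
          refine h2.congr ?_ ?_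
          · rw [hK, hz1, hc]; ring
          · rw [hz', hK, hz1, hc]; push_cast; ring
        · have h2 := cov_E (2 * h) r a K j (by omega) (by omega)
          rw [ha, ha] at h2
          rw [if_neg (by omega)] at hz hz'
          have hz1 : zE x = 5 - zV (N j) - zV (N (j + 1)) := by linarith
          refine h2.congr ?_ ?_
          · rw [hK, hz1, hc]; push_cast; ring
          · rw [hz', hK, hz1, hc]; push_cast; ring
    exact c1.trans c2
  have hmain := Cov.iter (S := S) (fun x : ℕ => (x : ℤ) * (6 * h - 1) - zV x * h) r hstep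
  have hlast := cov_Nn (2 * h) r a K
  rw [e2, ha, hNr] at hlast
  refine (hmain.trans hlast).congr ?_ ?_
  · rw [h00]; push_cast; ring
  · rw [hzr]; push_cast; ring

end Pool.Agent.Helper29.EMT
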