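import Mathlib
import Pool.Agent.Helper29.EMT.Defs
import Pool.Agent.Helper29.EMT.Chain

/-!
# MP_5186fc_co : the two-level chain criterion (T2)

Rows `r < c1 + c2`.  The height of row `r` is `(r + c1) % 2 ∈ {0, 1}` for `r < c1` (ending with
`1`), and `2, 1, 2, 1, …` for `r = c1, c1 + 1, …`.  Layer `j` is `{(r, c) : c + w r = j}`,
`0 ≤ j ≤ n + 1`.
-/

set_option autoImplicit false

open SimpleGraph

namespace Pool.Agent.Helper29.EMT

/-- the profile -/
def wD (c1 r : ℕ) : ℕ := if r < c1 then (r + c1) % 2 else 2 - (r - c1) % 2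

/-- the vertex labels of the two-level chain -/
def fD (c1 n : ℕ) (a : ℕ → ℤ) (r c : ℕ) : ℤ :=
  if c + wD c1 r = 0 then a 0 + (r / 2 : ℕ)
  else if c + wD c1 r = 1 then
    (if r < c1 then a 1 + r else a 1 + c1 + ((r - c1) / 2 : ℕ))
  else if c + wD c1 r = n then
    (if r < c1 then a n + (r / 2 : ℕ) else a n + ((c1 + 1) / 2 : ℕ) + ((r - c1 : ℕ) : ℤ))
  else if c + wD c1 r = n + 1 then a (n + 1) + ((r - c1) / 2 : ℕ)
  else a (c + wD c1 r) + r

theorem wD_lo {c1 r : ℕ} (h : r < c1) : wD c1 r = (r + c1) % 2 := if_pos h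
theorem wD_hi {c1 r : ℕ} (h : ¬ r < c1) : wD c1 r = 2 - (r - c1) % 2 := if_neg h

theorem fD_0 {c1 n : ℕ} {a : ℕ → ℤ} {r c : ℕ} (h : c + wD c1 r = 0) :
    fD c1 n a r c = a 0 + (r / 2 : ℕ) := by
  rw [fD, if_pos h]

theorem fD_1lo {c1 n : ℕ} {a : ℕ → ℤ} {r c : ℕ} (h : c + wD c1 r = 1) (hr : r < c1) :
    fD c1 n a r c = a 1 + r := by
  rw [fD, if_neg (by omega), if_pos h, if_pos hr]

theorem fD_1hi {c1 n : ℕ} {a : ℕ → ℤ} {r c : ℕ} (h : c + wD c1 r = 1) (hr : ¬ r < c1) :
    fD c1 n a r c = a 1 + c1 + ((r - c1) / 2 : ℕ) := by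
  rw [fD, if_neg (by omega), if_pos h, if_neg hr]

theorem fD_nlo {c1 n : ℕ} {a : ℕ → ℤ} {r c : ℕ} (hn : 3 ≤ n) (h : c + wD c1 r = n)
    (hr : r < c1) : fD c1 n a r c = a n + (r / 2 : ℕ) := by
  rw [fD, if_neg (by omega), if_neg (by omega), if_pos h, if_pos hr]

theorem fD_nhi {c1 n : ℕ} {a : ℕ → ℤ} {r c : ℕ} (hn : 3 ≤ n) (h : c + wD c1 r = n)
    (hr : ¬ r < c1) :
    fD c1 n a r c = a n + ((c1 + 1) / 2 : ℕ) + ((r - c1 : ℕ) : ℤ) := by
  rw [fD, if_neg (by omega), if_neg (by omega), if_pos h, if_neg hr]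

theorem fD_n1 {c1 n : ℕ} {a : ℕ → ℤ} {r c : ℕ} (hn : 3 ≤ n) (h : c + wD c1 r = n + 1) :
    fD c1 n a r c = a (n + 1) + ((r - c1) / 2 : ℕ) := by
  rw [fD, if_neg (by omega), if_neg (by omega), if_neg (by omega), if_pos h]

theorem fD_mid {c1 n : ℕ} {a : ℕ → ℤ} {r c j : ℕ} (h : c + wD c1 r = j) (h1 : 2 ≤ j)
    (h2 : j < n) : fD c1 n a r c = a j + r := by
  rw [fD, if_neg (by omega), if_neg (by omega), if_neg (by omega), if_neg (by omega), h]

/-- the labels covered by the two-level chain -/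
def chain2Set (c1 c2 n : ℕ) (a : ℕ → ℤ) (K : ℤ) : Set ℤ :=
  {l |
    (∃ i : ℕ, i < c1 / 2 ∧ a 0 + i = l) ∨
    (∃ i : ℕ, i < c1 + c2 / 2 ∧ a 1 + i = l) ∨
    (∃ j r : ℕ, 2 ≤ j ∧ j < n ∧ r < c1 + c2 ∧ a j + r = l) ∨
    (∃ i : ℕ, i < (c1 + 1) / 2 + c2 ∧ a n + i = l) ∨
    (∃ i : ℕ, i < (c2 + 1) / 2 ∧ a (n + 1) + i = l) ∨
    (∃ s : ℕ, s + 1 < 3 * (c1 / 2) + c1 % 2 ∧ K - a 0 - a 1 - s = l) ∨
    (∃ s : ℕ, s + 1 < 2 * c1 + 3 * (c2 / 2) + c2 % 2 ∧ K - a 1 - a 2 - s = l) ∨
    (∃ j s : ℕ, 2 ≤ j ∧ j + 1 < n ∧ s + 1 < 2 * (c1 + c2) ∧ K - a j - a (j + 1) - s = l) ∨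
    (∃ s : ℕ, s + 1 < c1 + (c1 + 1) / 2 + 2 * c2 ∧ K - a (n - 1) - a n - s = l) ∨
    (∃ s : ℕ, s < 3 * (c2 / 2) + 2 * (c2 % 2) ∧
      K - a n - a (n + 1) - ((c1 + 1) / 2 : ℕ) + 1 - s = l)}

set_option maxHeartbeats 1000000 in
/-- **Two-level chain criterion.** -/
theorem isEMT_of_chain2 (c1 c2 n : ℕ) (hc1 : 1 ≤ c1) (hc2 : 1 ≤ c2) (hn : 3 ≤ n) (a : ℕ → ℤ)
    (K : ℤ)
    (hcov : Cov (chain2Set c1 c2 n a K) 0 (3 * (c1 + c2) * n - (c1 + c2) - n)) :
    IsEMT (grid (c1 + c2) n) := by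
  refine isEMT_of_cover (c1 + c2) n (by omega) (by omega) (fD c1 n a) K ?_
  intro l hl0 hl1
  rcases hcov l hl0 (by push_cast at hl1; exact hl1) with ⟨i, hi, h⟩ | ⟨i, hi, h⟩ |
    ⟨j, r, hj1, hj2, hr, h⟩ | ⟨i, hi, h⟩ | ⟨i, hi, h⟩ | ⟨s, hs, h⟩ | ⟨s, hs, h⟩ |
    ⟨j, s, hj1, hj2, hs, h⟩ | ⟨s, hs, h⟩ | ⟨s, hs, h⟩
  · -- layer 0
    left
    rcases Nat.even_or_odd' c1 with ⟨b, hb | hb⟩
    · have hw : 0 + wD c1 (2 * i) = 0 := by rw [wD_lo (by omega)]; omega
      refine ⟨2 * i, 0, by omega, by omega, ?_⟩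
      rw [fD_0 hw, ← h, show 2 * i / 2 = i by omega]
    · have hw : 0 + wD c1 (2 * i + 1) = 0 := by rw [wD_lo (by omega)]; omega
      refine ⟨2 * i + 1, 0, by omega, by omega, ?_⟩
      rw [fD_0 hw, ← h, show (2 * i + 1) / 2 = i by omega]
  · -- layer 1
    left
    by_cases hlt : i < c1
    · have hw : (1 - wD c1 i) + wD c1 i = 1 := by rw [wD_lo hlt]; omega
      refine ⟨i, 1 - wD c1 i, by omega, by omega, ?_⟩
      rw [fD_1lo hw hlt, ← h]
    · have hw : 0 + wD c1 (c1 + (2 * (i - c1) + 1)) = 1 := by rw [wD_hi (by omega)]; omega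
      refine ⟨c1 + (2 * (i - c1) + 1), 0, by omega, by omega, ?_⟩
      rw [fD_1hi hw (by omega), ← h]
      have : (c1 + (2 * (i - c1) + 1) - c1) / 2 = i - c1 := by omega
      rw [this]
      omega
  · -- full layers
    left
    have hw2 : wD c1 r ≤ 2 ∧ (r < c1 ∨ wD c1 r ≠ 0) := by
      by_cases hlt : r < c1
      · rw [wD_lo hlt]; omega
      · rw [wD_hi hlt]; omega
    refine ⟨r, j - wD c1 r, hr, by omega, ?_⟩
    rw [fD_mid (j := j) (by omega) hj1 hj2]; exact h
  · -- layer n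
    left
    by_cases hlt : i < (c1 + 1) / 2
    · rcases Nat.even_or_odd' c1 with ⟨b, hb | hb⟩
      · have hw : (n - 1) + wD c1 (2 * i + 1) = n := by rw [wD_lo (by omega)]; omega
        refine ⟨2 * i + 1, n - 1, by omega, by omega, ?_⟩
        rw [fD_nlo hn hw (by omega), ← h, show (2 * i + 1) / 2 = i by omega]
      · have hw : (n - 1) + wD c1 (2 * i) = n := by rw [wD_lo (by omega)]; omega
        refine ⟨2 * i, n - 1, by omega, by omega, ?_⟩
        rw [fD_nlo hn hw (by omega), ← h, show (2 * i) / 2 = i by omega]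
    · obtain ⟨t, ht⟩ : ∃ t, i = (c1 + 1) / 2 + t := ⟨i - (c1 + 1) / 2, by omega⟩
      have hw0 : wD c1 (c1 + t) = 2 - t % 2 := by
        rw [wD_hi (by omega), show c1 + t - c1 = t by omega]
      have hw : (n - wD c1 (c1 + t)) + wD c1 (c1 + t) = n := by rw [hw0]; omega
      refine ⟨c1 + t, n - wD c1 (c1 + t), by omega, by rw [hw0]; omega, ?_⟩
      rw [fD_nhi hn hw (by omega), ← h, ht, show c1 + t - c1 = t by omega]
      push_cast; ring
  · -- layer n + 1
    left
    have hw : (n - 1) + wD c1 (c1 + 2 * i) = n + 1 := by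
      rw [wD_hi (by omega), show c1 + 2 * i - c1 = 2 * i by omega]; omega
    refine ⟨c1 + 2 * i, n - 1, by omega, by omega, ?_⟩
    rw [fD_n1 hn hw, ← h, show (c1 + 2 * i - c1) / 2 = i by omega]
  · -- edges 0 - 1
    right
    rcases Nat.even_or_odd' c1 with ⟨b, hb | hb⟩
    · -- c1 even: rows 2i
      obtain ⟨i, hi⟩ : ∃ i, i = s / 3 := ⟨_, rfl⟩
      have h3 : s = 3 * i ∨ s = 3 * i + 1 ∨ s = 3 * i + 2 := by omega
      rcases h3 with h3 | h3 | h3
      · right
        have w1 : 0 + wD c1 (2 * i) = 0 := by rw [wD_lo (by omega)]; omega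
        have w2 : (0 + 1) + wD c1 (2 * i) = 1 := by omega
        refine ⟨2 * i, 0, by omega, by omega, ?_⟩
        rw [fD_0 w1, fD_1lo w2 (by omega), ← h, h3, show 2 * i / 2 = i by omega]
        push_cast; ring
      · left
        have w1 : 0 + wD c1 (2 * i) = 0 := by rw [wD_lo (by omega)]; omega
        have w2 : 0 + wD c1 (2 * i + 1) = 1 := by rw [wD_lo (by omega)]; omega
        refine ⟨2 * i, 0, by omega, by omega, ?_⟩
        rw [fD_0 w1, fD_1lo w2 (by omega), ← h, h3, show 2 * i / 2 = i by omega]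
        push_cast; ring
      · left
        have w1 : 0 + wD c1 (2 * i + 1) = 1 := by rw [wD_lo (by omega)]; omega
        have w2 : 0 + wD c1 (2 * i + 1 + 1) = 0 := by rw [wD_lo (by omega)]; omega
        refine ⟨2 * i + 1, 0, by omega, by omega, ?_⟩
        rw [fD_0 w2, fD_1lo w1 (by omega), ← h, h3, show (2 * i + 1 + 1) / 2 = i + 1 by omega]
        push_cast; ring
    · -- c1 odd: rows 2i+1
      obtain ⟨i, hi⟩ : ∃ i, i = s / 3 := ⟨_, rfl⟩
      have h3 : s = 3 * i ∨ s = 3 * i + 1 ∨ s = 3 * i + 2 := by omega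
      rcases h3 with h3 | h3 | h3
      · left
        have w1 : 0 + wD c1 (2 * i) = 1 := by rw [wD_lo (by omega)]; omega
        have w2 : 0 + wD c1 (2 * i + 1) = 0 := by rw [wD_lo (by omega)]; omega
        refine ⟨2 * i, 0, by omega, by omega, ?_⟩
        rw [fD_0 w2, fD_1lo w1 (by omega), ← h, h3, show (2 * i + 1) / 2 = i by omega]
        push_cast; ring
      · right
        have w1 : 0 + wD c1 (2 * i + 1) = 0 := by rw [wD_lo (by omega)]; omega
        have w2 : (0 + 1) + wD c1 (2 * i + 1) = 1 := by omega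
        refine ⟨2 * i + 1, 0, by omega, by omega, ?_⟩
        rw [fD_0 w1, fD_1lo w2 (by omega), ← h, h3, show (2 * i + 1) / 2 = i by omega]
        push_cast; ring
      · left
        have w1 : 0 + wD c1 (2 * i + 1) = 0 := by rw [wD_lo (by omega)]; omega
        have w2 : 0 + wD c1 (2 * i + 1 + 1) = 1 := by rw [wD_lo (by omega)]; omega
        refine ⟨2 * i + 1, 0, by omega, by omega, ?_⟩
        rw [fD_0 w1, fD_1lo w2 (by omega), ← h, h3, show (2 * i + 1) / 2 = i by omega]
        push_cast; ring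
  · -- edges 1 - 2
    right
    by_cases hlo : s + 1 < 2 * c1
    · rcases Nat.even_or_odd' s with ⟨r, hr | hr⟩
      · right
        have hw0 : wD c1 r = (r + c1) % 2 := wD_lo (by omega)
        have w1 : (1 - wD c1 r) + wD c1 r = 1 := by rw [hw0]; omega
        have w2 : (1 - wD c1 r + 1) + wD c1 r = 2 := by rw [hw0]; omega
        refine ⟨r, 1 - wD c1 r, by omega, by omega, ?_⟩
        rw [fD_1lo w1 (by omega), fD_mid w2 (by omega) (by omega), ← h, hr]
        push_cast; ring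
      · left
        -- rows r, r+1, both in the first part
        have hw0 : wD c1 r = (r + c1) % 2 := wD_lo (by omega)
        have hw1 : wD c1 (r + 1) = (r + 1 + c1) % 2 := wD_lo (by omega)
        by_cases hp : (r + c1) % 2 = 0
        · have w1 : 1 + wD c1 r = 1 := by rw [hw0]; omega
          have w2 : 1 + wD c1 (r + 1) = 2 := by rw [hw1]; omega
          refine ⟨r, 1, by omega, by omega, ?_⟩
          rw [fD_1lo w1 (by omega), fD_mid w2 (by omega) (by omega), ← h, hr]
          push_cast; ring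
        · have w1 : 1 + wD c1 r = 2 := by rw [hw0]; omega
          have w2 : 1 + wD c1 (r + 1) = 1 := by rw [hw1]; omega
          refine ⟨r, 1, by omega, by omega, ?_⟩
          rw [fD_mid w1 (by omega) (by omega), fD_1lo w2 (by omega), ← h, hr]
          push_cast; ring
    · by_cases hb : s + 1 = 2 * c1
      · -- border
        left
        have w1 : 0 + wD c1 (c1 - 1) = 1 := by rw [wD_lo (by omega)]; omega
        have w2 : 0 + wD c1 (c1 - 1 + 1) = 2 := by rw [wD_hi (by omega)]; omega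
        refine ⟨c1 - 1, 0, by omega, by omega, ?_⟩
        rw [fD_1lo w1 (by omega), fD_mid w2 (by omega) (by omega), ← h]
        omega
      · obtain ⟨u, hu⟩ : ∃ u, s = 2 * c1 + u := ⟨s - 2 * c1, by omega⟩
        obtain ⟨i, hi⟩ : ∃ i, i = u / 3 := ⟨_, rfl⟩
        have h3 : u = 3 * i ∨ u = 3 * i + 1 ∨ u = 3 * i + 2 := by omega
        have w1 : 0 + wD c1 (c1 + (2 * i + 1)) = 1 := by
          rw [wD_hi (by omega), show c1 + (2 * i + 1) - c1 = 2 * i + 1 by omega]; omega
        rcases h3 with h3 | h3 | h3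
        · left
          have w2 : 0 + wD c1 (c1 + 2 * i) = 2 := by
            rw [wD_hi (by omega), show c1 + 2 * i - c1 = 2 * i by omega]; omega
          refine ⟨c1 + 2 * i, 0, by omega, by omega, ?_⟩
          rw [show c1 + 2 * i + 1 = c1 + (2 * i + 1) by ring, fD_1hi w1 (by omega),
            fD_mid w2 (by omega) (by omega), ← h, hu, h3,
            show (c1 + (2 * i + 1) - c1) / 2 = i by omega]
          push_cast; ring
        · right
          have w2 : (0 + 1) + wD c1 (c1 + (2 * i + 1)) = 2 := by omega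
          refine ⟨c1 + (2 * i + 1), 0, by omega, by omega, ?_⟩
          rw [fD_1hi w1 (by omega), fD_mid w2 (by omega) (by omega), ← h, hu, h3,
            show (c1 + (2 * i + 1) - c1) / 2 = i by omega]
          push_cast; ring
        · left
          have w2 : 0 + wD c1 (c1 + (2 * i + 1) + 1) = 2 := by
            rw [wD_hi (by omega), show c1 + (2 * i + 1) + 1 - c1 = 2 * i + 2 by omega]; omega
          refine ⟨c1 + (2 * i + 1), 0, by omega, by omega, ?_⟩
          rw [fD_1hi w1 (by omega), fD_mid w2 (by omega) (by omega), ← h, hu, h3,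
            show (c1 + (2 * i + 1) - c1) / 2 = i by omega]
          push_cast; ring
  · -- middle bundles
    right
    rcases Nat.even_or_odd' s with ⟨r, hr | hr⟩
    · right
      have hw2 : wD c1 r ≤ 2 := by
        by_cases hlt : r < c1
        · rw [wD_lo hlt]; omega
        · rw [wD_hi hlt]; omega
      refine ⟨r, j - wD c1 r, by omega, by omega, ?_⟩
      rw [fD_mid (j := j) (by omega) hj1 (by omega),
        fD_mid (j := j + 1) (by omega) (by omega) hj2, ← h, hr]
      push_cast; ring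
    · left
      have hww : (wD c1 (r + 1) = wD c1 r + 1 ∨ wD c1 r = wD c1 (r + 1) + 1) ∧
          wD c1 r ≤ 2 ∧ wD c1 (r + 1) ≤ 2 := by
        by_cases hlt : r < c1
        · rw [wD_lo hlt]
          by_cases hlt' : r + 1 < c1
          · rw [wD_lo hlt']; omega
          · rw [wD_hi hlt']; omega
        · rw [wD_hi hlt, wD_hi (by omega)]; omega
      obtain ⟨hww1 | hww1, hww2, hww3⟩ := hww
      · refine ⟨r, j - wD c1 r, by omega, by omega, ?_⟩
        rw [fD_mid (j := j) (by omega) hj1 (by omega),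
          fD_mid (r := r + 1) (j := j + 1) (by omega) (by omega) hj2, ← h, hr]
        push_cast; ring
      · refine ⟨r, j - wD c1 (r + 1), by omega, by omega, ?_⟩
        rw [fD_mid (j := j + 1) (by omega) (by omega) hj2,
          fD_mid (r := r + 1) (j := j) (by omega) hj1 (by omega), ← h, hr]
        push_cast; ring
  · -- edges (n-1) - n
    right
    by_cases hlo : s + 1 < c1 + (c1 + 1) / 2
    · rcases Nat.even_or_odd' c1 with ⟨b, hb | hb⟩
      · -- c1 = 2b : rows 2i+1 have height 1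
        obtain ⟨i, hi⟩ : ∃ i, i = s / 3 := ⟨_, rfl⟩
        have h3 : s = 3 * i ∨ s = 3 * i + 1 ∨ s = 3 * i + 2 := by omega
        have w1 : (n - 1) + wD c1 (2 * i + 1) = n := by rw [wD_lo (by omega)]; omega
        rcases h3 with h3 | h3 | h3
        · left
          have w2 : (n - 1) + wD c1 (2 * i) = n - 1 := by rw [wD_lo (by omega)]; omega
          refine ⟨2 * i, n - 1, by omega, by omega, ?_⟩
          rw [fD_nlo hn w1 (by omega), fD_mid w2 (by omega) (by omega), ← h, h3,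
            show (2 * i + 1) / 2 = i by omega]
          push_cast; ring
        · right
          have w2 : (n - 2) + wD c1 (2 * i + 1) = n - 1 := by omega
          refine ⟨2 * i + 1, n - 2, by omega, by omega, ?_⟩
          rw [show n - 2 + 1 = n - 1 by omega, fD_nlo hn w1 (by omega),
            fD_mid w2 (by omega) (by omega), ← h, h3, show (2 * i + 1) / 2 = i by omega]
          push_cast; ring
        · left
          have w2 : (n - 1) + wD c1 (2 * i + 1 + 1) = n - 1 := by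
            rw [wD_lo (by omega)]; omega
          refine ⟨2 * i + 1, n - 1, by omega, by omega, ?_⟩
          rw [fD_nlo hn w1 (by omega), fD_mid w2 (by omega) (by omega), ← h, h3,
            show (2 * i + 1) / 2 = i by omega]
          push_cast; ring
      · -- c1 = 2b+1 : rows 2i have height 1 ; sums 3i-1, 3i, 3i+1
        obtain ⟨i, hi⟩ : ∃ i, i = (s + 1) / 3 := ⟨_, rfl⟩
        have h3 : s + 1 = 3 * i ∨ s = 3 * i ∨ s = 3 * i + 1 := by omega
        have w1 : (n - 1) + wD c1 (2 * i) = n := by rw [wD_lo (by omega)]; omega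
        rcases h3 with h3 | h3 | h3
        · left
          have w2 : (n - 1) + wD c1 (2 * i - 1) = n - 1 := by rw [wD_lo (by omega)]; omega
          refine ⟨2 * i - 1, n - 1, by omega, by omega, ?_⟩
          rw [show 2 * i - 1 + 1 = 2 * i by omega, fD_nlo hn w1 (by omega),
            fD_mid w2 (by omega) (by omega), ← h, show 2 * i / 2 = i by omega]
          omega
        · right
          have w2 : (n - 2) + wD c1 (2 * i) = n - 1 := by omega
          refine ⟨2 * i, n - 2, by omega, by omega, ?_⟩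
          rw [show n - 2 + 1 = n - 1 by omega, fD_nlo hn w1 (by omega),
            fD_mid w2 (by omega) (by omega), ← h, h3, show 2 * i / 2 = i by omega]
          push_cast; ring
        · left
          have w2 : (n - 1) + wD c1 (2 * i + 1) = n - 1 := by
            rw [wD_lo (by omega)]; omega
          refine ⟨2 * i, n - 1, by omega, by omega, ?_⟩
          rw [fD_nlo hn w1 (by omega), fD_mid w2 (by omega) (by omega), ← h, h3,
            show 2 * i / 2 = i by omega]
          push_cast; ring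
    · by_cases hb : s + 1 = c1 + (c1 + 1) / 2
      · left
        have w1 : (n - 2) + wD c1 (c1 - 1) = n - 1 := by rw [wD_lo (by omega)]; omega
        have w2 : (n - 2) + wD c1 (c1 - 1 + 1) = n := by rw [wD_hi (by omega)]; omega
        refine ⟨c1 - 1, n - 2, by omega, by omega, ?_⟩
        rw [fD_nhi hn w2 (by omega), fD_mid w1 (by omega) (by omega), ← h]
        omega
      · obtain ⟨u, hu⟩ : ∃ u, s = c1 + (c1 + 1) / 2 + u := ⟨s - c1 - (c1 + 1) / 2, by omega⟩
        rcases Nat.even_or_odd' u with ⟨t, ht | ht⟩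
        · right
          have hw0 : wD c1 (c1 + t) = 2 - t % 2 := by
            rw [wD_hi (by omega), show c1 + t - c1 = t by omega]
          have w1 : (n - 1 - wD c1 (c1 + t)) + wD c1 (c1 + t) = n - 1 := by rw [hw0]; omega
          have w2 : (n - 1 - wD c1 (c1 + t) + 1) + wD c1 (c1 + t) = n := by rw [hw0]; omega
          refine ⟨c1 + t, n - 1 - wD c1 (c1 + t), by omega, by rw [hw0]; omega, ?_⟩
          rw [fD_mid w1 (by omega) (by omega), fD_nhi hn w2 (by omega), ← h, hu, ht,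
            show c1 + t - c1 = t by omega]
          push_cast; ring
        · left
          have hw0 : wD c1 (c1 + t) = 2 - t % 2 := by
            rw [wD_hi (by omega), show c1 + t - c1 = t by omega]
          have hw1 : wD c1 (c1 + t + 1) = 2 - (t + 1) % 2 := by
            rw [wD_hi (by omega), show c1 + t + 1 - c1 = t + 1 by omega]
          by_cases hp : t % 2 = 0
          · have w1 : (n - 2) + wD c1 (c1 + t) = n := by rw [hw0]; omega
            have w2 : (n - 2) + wD c1 (c1 + t + 1) = n - 1 := by rw [hw1]; omega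
            refine ⟨c1 + t, n - 2, by omega, by omega, ?_⟩
            rw [fD_nhi hn w1 (by omega), fD_mid w2 (by omega) (by omega), ← h, hu, ht,
              show c1 + t - c1 = t by omega]
            push_cast; ring
          · have w1 : (n - 2) + wD c1 (c1 + t) = n - 1 := by rw [hw0]; omega
            have w2 : (n - 2) + wD c1 (c1 + t + 1) = n := by rw [hw1]; omega
            refine ⟨c1 + t, n - 2, by omega, by omega, ?_⟩
            rw [fD_mid w1 (by omega) (by omega), fD_nhi hn w2 (by omega), ← h, hu, ht,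
              show c1 + t + 1 - c1 = t + 1 by omega]
            push_cast; ring
  · -- edges n - (n+1)
    right
    obtain ⟨i, hi⟩ : ∃ i, i = s / 3 := ⟨_, rfl⟩
    have h3 : s = 3 * i ∨ s = 3 * i + 1 ∨ s = 3 * i + 2 := by omega
    have w1 : (n - 1) + wD c1 (c1 + 2 * i) = n + 1 := by
      rw [wD_hi (by omega), show c1 + 2 * i - c1 = 2 * i by omega]; omega
    rcases h3 with h3 | h3 | h3
    · left
      by_cases hi0 : i = 0
      · subst hi0
        have w2 : (n - 1) + wD c1 (c1 - 1) = n := by rw [wD_lo (by omega)]; omega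
        refine ⟨c1 - 1, n - 1, by omega, by omega, ?_⟩
        rw [fD_nlo hn w2 (by omega), show c1 - 1 + 1 = c1 + 2 * 0 by omega, fD_n1 hn w1, ← h, h3]
        omega
      · have w2 : (n - 1) + wD c1 (c1 + 2 * i - 1) = n := by
          rw [wD_hi (by omega), show c1 + 2 * i - 1 - c1 = 2 * i - 1 by omega]; omega
        refine ⟨c1 + 2 * i - 1, n - 1, by omega, by omega, ?_⟩
        rw [fD_nhi hn w2 (by omega), show c1 + 2 * i - 1 + 1 = c1 + 2 * i by omega,
          fD_n1 hn w1, ← h, h3]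
        omega
    · right
      have w2 : (n - 2) + wD c1 (c1 + 2 * i) = n := by omega
      refine ⟨c1 + 2 * i, n - 2, by omega, by omega, ?_⟩
      rw [show n - 2 + 1 = n - 1 by omega, fD_nhi hn w2 (by omega), fD_n1 hn w1, ← h, h3]
      omega
    · left
      have w2 : (n - 1) + wD c1 (c1 + 2 * i + 1) = n := by
        rw [wD_hi (by omega), show c1 + 2 * i + 1 - c1 = 2 * i + 1 by omega]; omega
      refine ⟨c1 + 2 * i, n - 1, by omega, by omega, ?_⟩
      rw [fD_nhi hn w2 (by omega), fD_n1 hn w1, ← h, h3]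
      omega

/-! Covering lemmas for the single blocks of the two-level chain. -/

section cov
variable (c1 c2 n : ℕ) (a : ℕ → ℤ) (K : ℤ)

theorem cov2_N0 : Cov (chain2Set c1 c2 n a K) (a 0) (a 0 + (c1 / 2 : ℕ)) := by
  intro l hl hl'
  exact Or.inl ⟨(l - a 0).toNat, by omega, by omega⟩

theorem cov2_N1 : Cov (chain2Set c1 c2 n a K) (a 1) (a 1 + ((c1 + c2 / 2 : ℕ) : ℤ)) := by
  intro l hl hl'
  exact Or.inr (Or.inl ⟨(l - a 1).toNat, by omega, by omega⟩)

theorem cov2_N (j : ℕ) (h1 : 2 ≤ j) (h2 : j < n) :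
    Cov (chain2Set c1 c2 n a K) (a j) (a j + (c1 + c2)) := by
  intro l hl hl'
  exact Or.inr (Or.inr (Or.inl ⟨j, (l - a j).toNat, h1, h2, by omega, by omega⟩))

theorem cov2_Nn : Cov (chain2Set c1 c2 n a K) (a n) (a n + (((c1 + 1) / 2 + c2 : ℕ) : ℤ)) := by
  intro l hl hl'
  exact Or.inr (Or.inr (Or.inr (Or.inl ⟨(l - a n).toNat, by omega, by omega⟩)))

theorem cov2_Nn1 : Cov (chain2Set c1 c2 n a K) (a (n + 1)) (a (n + 1) + ((c2 + 1) / 2 : ℕ)) := by
  intro l hl hl'
  exact Or.inr (Or.inr (Or.inr (Or.inr (Or.inl ⟨(l - a (n + 1)).toNat, by omega, by omega⟩))))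

theorem cov2_E0 : Cov (chain2Set c1 c2 n a K)
    (K - a 0 - a 1 - ((3 * (c1 / 2) + c1 % 2 : ℕ) : ℤ) + 2) (K - a 0 - a 1 + 1) := by
  intro l hl hl'
  exact Or.inr (Or.inr (Or.inr (Or.inr (Or.inr (Or.inl
    ⟨(K - a 0 - a 1 - l).toNat, by omega, by omega⟩)))))

theorem cov2_E1 : Cov (chain2Set c1 c2 n a K)
    (K - a 1 - a 2 - ((2 * c1 + 3 * (c2 / 2) + c2 % 2 : ℕ) : ℤ) + 2) (K - a 1 - a 2 + 1) := by
  intro l hl hl'
  exact Or.inr (Or.inr (Or.inr (Or.inr (Or.inr (Or.inr (Or.inl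
    ⟨(K - a 1 - a 2 - l).toNat, by omega, by omega⟩))))))

theorem cov2_E (j : ℕ) (h1 : 2 ≤ j) (h2 : j + 1 < n) : Cov (chain2Set c1 c2 n a K)
    (K - a j - a (j + 1) - 2 * (c1 + c2) + 2) (K - a j - a (j + 1) + 1) := by
  intro l hl hl'
  exact Or.inr (Or.inr (Or.inr (Or.inr (Or.inr (Or.inr (Or.inr (Or.inl
    ⟨j, (K - a j - a (j + 1) - l).toNat, h1, h2, by omega, by omega⟩)))))))

theorem cov2_En : Cov (chain2Set c1 c2 n a K)
    (K - a (n - 1) - a n - ((c1 + (c1 + 1) / 2 + 2 * c2 : ℕ) : ℤ) + 2)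
    (K - a (n - 1) - a n + 1) := by
  intro l hl hl'
  exact Or.inr (Or.inr (Or.inr (Or.inr (Or.inr (Or.inr (Or.inr (Or.inr (Or.inl
    ⟨(K - a (n - 1) - a n - l).toNat, by omega, by omega⟩))))))))

theorem cov2_En1 : Cov (chain2Set c1 c2 n a K)
    (K - a n - a (n + 1) - ((c1 + 1) / 2 : ℕ) + 2 - ((3 * (c2 / 2) + 2 * (c2 % 2) : ℕ) : ℤ))
    (K - a n - a (n + 1) - ((c1 + 1) / 2 : ℕ) + 2) := by
  intro l hl hl'
  exact Or.inr (Or.inr (Or.inr (Or.inr (Or.inr (Or.inr (Or.inr (Or.inr (Or.inr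
    ⟨(K - a n - a (n + 1) - ((c1 + 1) / 2 : ℕ) + 1 - l).toNat, by omega, by omega⟩))))))))

end cov

end Pool.Agent.Helper29.EMT
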