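import Mathlib
import Pool.Agent.Helper29.EMT.Chain

/-!
# MP_5186fc_co : family A, `m × n` grids with `n = 3 mod 6`, all `m ≥ 2` (word of helper46)
-/

set_option autoImplicit false

open SimpleGraph

namespace Pool.Agent.Helper29.EMT

/-- start positions of the vertex blocks of family A (`n = 6t + 3`) -/
def aA (m t j : ℕ) : ℤ :=
  if j = 0 then 0
  else if j % 6 = 0 then (((m + 1) / 2 : ℕ) : ℤ) + 2 * ((j / 6 : ℕ) : ℤ) * (3 * m - 1) - m
  else if j % 6 = 1 then (3 * t + 1 - ((j / 6 : ℕ) : ℤ)) * (3 * m - 1) - ((m + 1) / 2 : ℕ)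
    + 2 * m - 1
  else if j % 6 = 2 then (6 * t + 2 - ((j / 6 : ℕ) : ℤ)) * (3 * m - 1) - ((m + 1) / 2 : ℕ)
  else if j % 6 = 3 then (((m + 1) / 2 : ℕ) : ℤ) + (2 * ((j / 6 : ℕ) : ℤ) + 1) * (3 * m - 1) - m
  else if j % 6 = 4 then (4 * t + 1 - ((j / 6 : ℕ) : ℤ)) * (3 * m - 1) - ((m + 1) / 2 : ℕ)
    + 2 * m - 1
  else (5 * t + 1 - ((j / 6 : ℕ) : ℤ)) * (3 * m - 1) - ((m + 1) / 2 : ℕ)

section
variable (m t s : ℕ)

theorem aA_zero : aA m t 0 = 0 := by rw [aA, if_pos rfl]

theorem aA_0 (hs : 1 ≤ s) :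
    aA m t (6 * s) = (((m + 1) / 2 : ℕ) : ℤ) + 2 * (s : ℤ) * (3 * m - 1) - m := by
  rw [aA, if_neg (by omega), if_pos (by omega), show 6 * s / 6 = s by omega]

theorem aA_1 : aA m t (6 * s + 1) =
    (3 * t + 1 - (s : ℤ)) * (3 * m - 1) - ((m + 1) / 2 : ℕ) + 2 * m - 1 := by
  rw [aA, if_neg (by omega), if_neg (by omega), if_pos (by omega),
    show (6 * s + 1) / 6 = s by omega]

theorem aA_2 : aA m t (6 * s + 2) =
    (6 * t + 2 - (s : ℤ)) * (3 * m - 1) - ((m + 1) / 2 : ℕ) := by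
  rw [aA, if_neg (by omega), if_neg (by omega), if_neg (by omega), if_pos (by omega),
    show (6 * s + 2) / 6 = s by omega]

theorem aA_3 : aA m t (6 * s + 3) =
    (((m + 1) / 2 : ℕ) : ℤ) + (2 * (s : ℤ) + 1) * (3 * m - 1) - m := by
  rw [aA, if_neg (by omega), if_neg (by omega), if_neg (by omega), if_neg (by omega),
    if_pos (by omega), show (6 * s + 3) / 6 = s by omega]

theorem aA_4 : aA m t (6 * s + 4) =
    (4 * t + 1 - (s : ℤ)) * (3 * m - 1) - ((m + 1) / 2 : ℕ) + 2 * m - 1 := by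
  rw [aA, if_neg (by omega), if_neg (by omega), if_neg (by omega), if_neg (by omega),
    if_neg (by omega), if_pos (by omega), show (6 * s + 4) / 6 = s by omega]

theorem aA_5 : aA m t (6 * s + 5) =
    (5 * t + 1 - (s : ℤ)) * (3 * m - 1) - ((m + 1) / 2 : ℕ) := by
  rw [aA, if_neg (by omega), if_neg (by omega), if_neg (by omega), if_neg (by omega),
    if_neg (by omega), if_neg (by omega), show (6 * s + 5) / 6 = s by omega]

end

/-- **Family A.** -/
theorem isEMT_famA (m t : ℕ) (hm : 2 ≤ m) : IsEMT (grid m (6 * t + 3)) := by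
  obtain ⟨u, hu⟩ : ∃ u : ℤ, u = (((m + 1) / 2 : ℕ) : ℤ) := ⟨_, rfl⟩
  obtain ⟨v, hv⟩ : ∃ v : ℤ, v = ((m / 2 : ℕ) : ℤ) := ⟨_, rfl⟩
  have huv : u + v = m := by omega
  obtain ⟨K, hK⟩ : ∃ K : ℤ, K = (9 * t + 3) * (3 * m - 1) - u + 4 * m - 3 := ⟨_, rfl⟩
  refine isEMT_of_chain m (6 * t + 3) hm (by omega) (aA m t) K ?_
  have hE0 : (((3 * m - 1) / 2 : ℕ) : ℤ) = m + u - 1 := by omega
  have hEn : (((3 * m - 2) / 2 : ℕ) : ℤ) = m + v - 1 := by omega
  set S := chainSet m (6 * t + 3) (aA m t) K with hS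
  -- 0. the block `V_0`
  have c0 : Cov S 0 u := by
    have := cov_N0 m (6 * t + 3) (aA m t) K
    rw [aA_zero] at this
    exact this.congr rfl (by rw [hu]; ring)
  -- 1. the blocks `E_{3i+1}`
  have hE1 : ∀ i : ℕ, i ≤ 2 * t →
      Cov S (u + i * (3 * m - 1)) (u + i * (3 * m - 1) + 2 * m - 1) := by
    intro i hi
    have h := cov_E m (6 * t + 3) (aA m t) K (3 * i + 1) (by omega) (by omega)
    rcases Nat.even_or_odd' i with ⟨s, hs | hs⟩
    · have e1 : 3 * i + 1 = 6 * s + 1 := by omega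
      rw [e1, show 6 * s + 1 + 1 = 6 * s + 2 by ring, aA_1, aA_2, ← hu] at h
      refine h.congr ?_ ?_ <;> · rw [hK, hs]; push_cast; ring
    · have e1 : 3 * i + 1 = 6 * s + 4 := by omega
      rw [e1, show 6 * s + 4 + 1 = 6 * s + 5 by ring, aA_4, aA_5, ← hu] at h
      refine h.congr ?_ ?_ <;> · rw [hK, hs]; push_cast; ring
  have hV1 : ∀ i : ℕ, i < 2 * t →
      Cov S (u + i * (3 * m - 1) + 2 * m - 1) (u + (i + 1) * (3 * m - 1)) := by
    intro i hi
    have h := cov_N m (6 * t + 3) (aA m t) K (3 * i + 3) (by omega) (by omega)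
    rcases Nat.even_or_odd' i with ⟨s, hs | hs⟩
    · have e1 : 3 * i + 3 = 6 * s + 3 := by omega
      rw [e1, aA_3, ← hu] at h
      refine h.congr ?_ ?_ <;> · rw [hs]; push_cast; ring
    · have e1 : 3 * i + 3 = 6 * (s + 1) := by omega
      rw [e1, aA_0 _ _ _ (by omega), ← hu] at h
      refine h.congr ?_ ?_ <;> · rw [hs]; push_cast; ring
  have c1 : Cov S u (u + 2 * t * (3 * m - 1)) := by
    have h := Cov.iter (S := S) (fun i : ℕ => u + i * (3 * m - 1)) (2 * t) ?_
    · exact h.congr (by push_cast; ring) (by push_cast; ring)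
    · intro i hi
      exact ((hE1 i (by omega)).trans (hV1 i hi)).congr rfl (by push_cast; ring)
  have c2 : Cov S (u + 2 * t * (3 * m - 1)) ((2 * t + 1) * (3 * m - 1)) := by
    have h1 := hE1 (2 * t) le_rfl
    have h2 := cov_Nn m (6 * t + 3) (aA m t) K
    rw [aA_3, ← hu, ← hv] at h2
    refine (h1.congr (y' := u + (2 * t + 1) * (3 * m - 1) - m) (by push_cast; ring)
      (by push_cast; ring)).trans (h2.congr (by ring) ?_)
    linear_combination (1 : ℤ) * huv
  -- 2. the run of the `A_i`, `i` even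
  have c3 : Cov S ((2 * t + 1) * (3 * m - 1)) ((2 * t + 2) * (3 * m - 1) - u) := by
    have h1 := cov_En m (6 * t + 3) (aA m t) K
    rw [show 6 * t + 3 - 1 = 6 * t + 2 by omega, aA_2, aA_3, ← hu, hEn] at h1
    have h2 := cov_N m (6 * t + 3) (aA m t) K (6 * t + 1) (by omega) (by omega)
    rw [aA_1, ← hu] at h2
    refine (h1.congr (y' := (2 * t + 1) * (3 * m - 1) - u + 2 * m - 1) ?_ ?_).trans
      (h2.congr ?_ ?_)
    · rw [hK]; linear_combination (-1 : ℤ) * huv
    · rw [hK]; push_cast; ring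
    · push_cast; ring
    · push_cast; ring
  have c4 : Cov S ((2 * t + 2) * (3 * m - 1) - u) ((3 * t + 2) * (3 * m - 1) - u) := by
    have h := Cov.iter (S := S) (fun i : ℕ => (2 * t + 2 + i) * (3 * m - 1) - u) t ?_
    · exact h.congr (by push_cast; ring) (by push_cast; ring)
    · intro i hi
      obtain ⟨s, hs⟩ : ∃ s, t = s + 1 + i := ⟨t - 1 - i, by omega⟩
      have h1 := cov_E m (6 * t + 3) (aA m t) K (6 * s + 2) (by omega) (by omega)
      rw [show 6 * s + 2 + 1 = 6 * s + 3 by ring, aA_2, aA_3, ← hu] at h1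
      have h2 := cov_N m (6 * t + 3) (aA m t) K (6 * s + 1) (by omega) (by omega)
      rw [aA_1, ← hu] at h2
      refine (h1.congr (y' := (2 * t + 2 + i) * (3 * m - 1) - u + 2 * m - 1) ?_ ?_).trans
        (h2.congr ?_ ?_)
      · rw [hK, hs]; push_cast; ring
      · rw [hK, hs]; push_cast; ring
      · rw [hs]; push_cast; ring
      · rw [hs]; push_cast; ring
  -- 3. the run of the `A_i`, `i` odd
  have c5 : Cov S ((3 * t + 2) * (3 * m - 1) - u) ((4 * t + 2) * (3 * m - 1) - u) := by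
    have h := Cov.iter (S := S) (fun i : ℕ => (3 * t + 2 + i) * (3 * m - 1) - u) t ?_
    · exact h.congr (by push_cast; ring) (by push_cast; ring)
    · intro i hi
      obtain ⟨s, hs⟩ : ∃ s, t = s + 1 + i := ⟨t - 1 - i, by omega⟩
      have h1 := cov_E m (6 * t + 3) (aA m t) K (6 * s + 5) (by omega) (by omega)
      rw [show 6 * s + 5 + 1 = 6 * (s + 1) by ring, aA_5, aA_0 _ _ _ (by omega), ← hu] at h1
      have h2 := cov_N m (6 * t + 3) (aA m t) K (6 * s + 4) (by omega) (by omega)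
      rw [aA_4, ← hu] at h2
      refine (h1.congr (y' := (3 * t + 2 + i) * (3 * m - 1) - u + 2 * m - 1) ?_ ?_).trans
        (h2.congr ?_ ?_)
      · rw [hK, hs]; push_cast; ring
      · rw [hK, hs]; push_cast; ring
      · rw [hs]; push_cast; ring
      · rw [hs]; push_cast; ring
  -- 4. the run of the `B_i`, `i` odd
  have c6 : Cov S ((4 * t + 2) * (3 * m - 1) - u) ((5 * t + 2) * (3 * m - 1) - u) := by
    have h := Cov.iter (S := S) (fun i : ℕ => (4 * t + 2 + i) * (3 * m - 1) - u) t ?_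
    · exact h.congr (by push_cast; ring) (by push_cast; ring)
    · intro i hi
      obtain ⟨s, hs⟩ : ∃ s, t = s + 1 + i := ⟨t - 1 - i, by omega⟩
      have h1 := cov_N m (6 * t + 3) (aA m t) K (6 * s + 5) (by omega) (by omega)
      rw [aA_5, ← hu] at h1
      have h2 := cov_E m (6 * t + 3) (aA m t) K (6 * s + 3) (by omega) (by omega)
      rw [show 6 * s + 3 + 1 = 6 * s + 4 by ring, aA_3, aA_4, ← hu] at h2
      refine (h1.congr (y' := (4 * t + 2 + i) * (3 * m - 1) - u + m) ?_ ?_).trans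
        (h2.congr ?_ ?_)
      · rw [hs]; push_cast; ring
      · rw [hs]; push_cast; ring
      · rw [hK, hs]; push_cast; ring
      · rw [hK, hs]; push_cast; ring
  -- 5. the run of the `B_i`, `i` even
  have c7 : Cov S ((5 * t + 2) * (3 * m - 1) - u) ((6 * t + 2) * (3 * m - 1) - u) := by
    have h := Cov.iter (S := S) (fun i : ℕ => (5 * t + 2 + i) * (3 * m - 1) - u) t ?_
    · exact h.congr (by push_cast; ring) (by push_cast; ring)
    · intro i hi
      obtain ⟨s, hs⟩ : ∃ s, t = s + i := ⟨t - i, by omega⟩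
      have h1 := cov_N m (6 * t + 3) (aA m t) K (6 * s + 2) (by omega) (by omega)
      rw [aA_2, ← hu] at h1
      have h2 := cov_E m (6 * t + 3) (aA m t) K (6 * s) (by omega) (by omega)
      rw [aA_0 _ _ _ (by omega), aA_1, ← hu] at h2
      refine (h1.congr (y' := (5 * t + 2 + i) * (3 * m - 1) - u + m) ?_ ?_).trans
        (h2.congr ?_ ?_)
      · rw [hs]; push_cast; ring
      · rw [hs]; push_cast; ring
      · rw [hK, hs]; push_cast; ring
      · rw [hK, hs]; push_cast; ring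
  have c8 : Cov S ((6 * t + 2) * (3 * m - 1) - u) (3 * m * (6 * t + 3 : ℕ) - m - (6 * t + 3 : ℕ)) := by
    have h1 := cov_N m (6 * t + 3) (aA m t) K (6 * 0 + 2) (by omega) (by omega)
    rw [aA_2, ← hu] at h1
    have h2 := cov_E0 m (6 * t + 3) (aA m t) K
    rw [show (1 : ℕ) = 6 * 0 + 1 by ring, aA_zero, aA_1, ← hu] at h2
    rw [show (3 * m - (6 * 0 + 1)) / 2 = (3 * m - 1) / 2 by omega, hE0] at h2
    refine (h1.congr (y' := (6 * t + 2) * (3 * m - 1) - u + m) ?_ ?_).trans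
      (h2.congr ?_ ?_)
    · push_cast; ring
    · push_cast; ring
    · rw [hK]; push_cast; ring
    · rw [hK]; push_cast; ring
  exact ((((((((c0.trans c1).trans c2).trans c3).trans c4).trans c5).trans c6).trans c7).trans c8)

end Pool.Agent.Helper29.EMT
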