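import Mathlib
import Pool.Agent.Helper29.EMT.Chain

/-!
# MP_5186fc_co : family B, `m × n` grids with `n = 1 mod 6`, `n ≥ 7`, all `m ≥ 2`
(word of helper46)
-/

set_option autoImplicit false

open SimpleGraph

namespace Pool.Agent.Helper29.EMT

/-- start positions of the vertex blocks of family B (`n = 6k + 1`) -/
def aB (m k j : ℕ) : ℤ :=
  if j = 6 * k + 1 then 2 * k * (3 * m - 1) + m - 1
  else if j % 6 = 0 then (6 * k - ((j / 6 : ℕ) : ℤ)) * (3 * m - 1) + 2 * m - 1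
    - (((m + 1) / 2 : ℕ) : ℤ)
  else if j % 6 = 1 then (3 * k - ((j / 6 : ℕ) : ℤ)) * (3 * m - 1) + m - 1 - ((m + 1) / 2 : ℕ)
  else if j % 6 = 2 then m + (((m + 1) / 2 : ℕ) : ℤ) - 1 + 2 * ((j / 6 : ℕ) : ℤ) * (3 * m - 1)
  else if j % 6 = 3 then (5 * k - ((j / 6 : ℕ) : ℤ)) * (3 * m - 1) + m - 1
    - (((m + 1) / 2 : ℕ) : ℤ)
  else if j % 6 = 4 then (4 * k - 1 - ((j / 6 : ℕ) : ℤ)) * (3 * m - 1) + 2 * m - 1
    - ((m + 1) / 2 : ℕ)
  else m + (((m + 1) / 2 : ℕ) : ℤ) - 1 + (2 * ((j / 6 : ℕ) : ℤ) + 1) * (3 * m - 1)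

section
variable (m k s : ℕ)

theorem aB_last : aB m k (6 * k + 1) = 2 * k * (3 * m - 1) + m - 1 := by rw [aB, if_pos rfl]

theorem aB_0 : aB m k (6 * s) =
    (6 * k - (s : ℤ)) * (3 * m - 1) + 2 * m - 1 - (((m + 1) / 2 : ℕ) : ℤ) := by
  rw [aB, if_neg (by omega), if_pos (by omega), show 6 * s / 6 = s by omega]

theorem aB_1 (hs : s < k) : aB m k (6 * s + 1) =
    (3 * k - (s : ℤ)) * (3 * m - 1) + m - 1 - ((m + 1) / 2 : ℕ) := by
  rw [aB, if_neg (by omega), if_neg (by omega), if_pos (by omega),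
    show (6 * s + 1) / 6 = s by omega]

theorem aB_2 : aB m k (6 * s + 2) =
    m + (((m + 1) / 2 : ℕ) : ℤ) - 1 + 2 * (s : ℤ) * (3 * m - 1) := by
  rw [aB, if_neg (by omega), if_neg (by omega), if_neg (by omega), if_pos (by omega),
    show (6 * s + 2) / 6 = s by omega]

theorem aB_3 : aB m k (6 * s + 3) =
    (5 * k - (s : ℤ)) * (3 * m - 1) + m - 1 - (((m + 1) / 2 : ℕ) : ℤ) := by
  rw [aB, if_neg (by omega), if_neg (by omega), if_neg (by omega), if_neg (by omega),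
    if_pos (by omega), show (6 * s + 3) / 6 = s by omega]

theorem aB_4 : aB m k (6 * s + 4) =
    (4 * k - 1 - (s : ℤ)) * (3 * m - 1) + 2 * m - 1 - ((m + 1) / 2 : ℕ) := by
  rw [aB, if_neg (by omega), if_neg (by omega), if_neg (by omega), if_neg (by omega),
    if_neg (by omega), if_pos (by omega), show (6 * s + 4) / 6 = s by omega]

theorem aB_5 : aB m k (6 * s + 5) =
    m + (((m + 1) / 2 : ℕ) : ℤ) - 1 + (2 * (s : ℤ) + 1) * (3 * m - 1) := by
  rw [aB, if_neg (by omega), if_neg (by omega), if_neg (by omega), if_neg (by omega),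
    if_neg (by omega), if_neg (by omega), show (6 * s + 5) / 6 = s by omega]

end

/-- **Family B.** -/
theorem isEMT_famB (m k : ℕ) (hm : 2 ≤ m) (hk : 1 ≤ k) : IsEMT (grid m (6 * k + 1)) := by
  obtain ⟨u, hu⟩ : ∃ u : ℤ, u = (((m + 1) / 2 : ℕ) : ℤ) := ⟨_, rfl⟩
  obtain ⟨v, hv⟩ : ∃ v : ℤ, v = ((m / 2 : ℕ) : ℤ) := ⟨_, rfl⟩
  have huv : u + v = m := by omega
  obtain ⟨K, hK⟩ : ∃ K : ℤ, K = 9 * k * (3 * m - 1) + 4 * m - 4 - u := ⟨_, rfl⟩
  refine isEMT_of_chain m (6 * k + 1) hm (by omega) (aB m k) K ?_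
  have hE0 : (((3 * m - 1) / 2 : ℕ) : ℤ) = m + u - 1 := by omega
  have hEn : (((3 * m - 2) / 2 : ℕ) : ℤ) = m + v - 1 := by omega
  obtain ⟨l, hl⟩ : ∃ l, k = l + 1 := ⟨k - 1, by omega⟩
  set S := chainSet m (6 * k + 1) (aB m k) K with hS
  -- 0. `E_0`
  have c0 : Cov S 0 (m + u - 1) := by
    have h := cov_E0 m (6 * k + 1) (aB m k) K
    rw [hE0, show (0 : ℕ) = 6 * 0 by ring, aB_0, show (1 : ℕ) = 6 * 0 + 1 by ring,
      aB_1 _ _ _ (by omega), ← hu] at h
    refine h.congr ?_ ?_ <;> · rw [hK]; push_cast; ring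
  -- 1. `V_{3j+2} E_{3j+3}`
  have hV : ∀ j : ℕ, j < 2 * k → Cov S (m + u - 1 + j * (3 * m - 1))
      (m + u - 1 + j * (3 * m - 1) + m) := by
    intro j hj
    have h := cov_N m (6 * k + 1) (aB m k) K (3 * j + 2) (by omega) (by omega)
    rcases Nat.even_or_odd' j with ⟨s, hs | hs⟩
    · rw [show 3 * j + 2 = 6 * s + 2 by omega, aB_2, ← hu] at h
      refine h.congr ?_ ?_ <;> · rw [hs]; push_cast; ring
    · rw [show 3 * j + 2 = 6 * s + 5 by omega, aB_5, ← hu] at h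
      refine h.congr ?_ ?_ <;> · rw [hs]; push_cast; ring
  have c1 : Cov S (m + u - 1) (m + u - 1 + (2 * k - 1) * (3 * m - 1)) := by
    have h := Cov.iter (S := S) (fun j : ℕ => m + u - 1 + j * (3 * m - 1)) (2 * l + 1) ?_
    · exact h.congr (by push_cast; ring) (by rw [hl]; push_cast; ring)
    · intro j hj
      have h := cov_E m (6 * k + 1) (aB m k) K (3 * j + 3) (by omega) (by omega)
      refine ((hV j (by omega)).trans (h.congr (x' := m + u - 1 + j * (3 * m - 1) + m)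
        (y' := m + u - 1 + (j + 1) * (3 * m - 1)) ?_ ?_)).congr rfl (by push_cast; ring)
      · rcases Nat.even_or_odd' j with ⟨s, hs | hs⟩
        · rw [show 3 * j + 3 = 6 * s + 3 by omega, show 6 * s + 3 + 1 = 6 * s + 4 by ring,
            aB_3, aB_4, ← hu, hK, hs]
          push_cast; ring
        · rw [show 3 * j + 3 = 6 * (s + 1) by omega, aB_0, aB_1 _ _ _ (by omega), ← hu, hK, hs]
          push_cast; ring
      · rcases Nat.even_or_odd' j with ⟨s, hs | hs⟩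
        · rw [show 3 * j + 3 = 6 * s + 3 by omega, show 6 * s + 3 + 1 = 6 * s + 4 by ring,
            aB_3, aB_4, ← hu, hK, hs]
          push_cast; ring
        · rw [show 3 * j + 3 = 6 * (s + 1) by omega, aB_0, aB_1 _ _ _ (by omega), ← hu, hK, hs]
          push_cast; ring
  have c2 : Cov S (m + u - 1 + (2 * k - 1) * (3 * m - 1))
      (2 * m + u - 1 + (2 * k - 1) * (3 * m - 1)) := by
    refine (hV (2 * l + 1) (by omega)).congr ?_ ?_ <;> · rw [hl]; push_cast; ring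
  have c3 : Cov S (2 * m + u - 1 + (2 * k - 1) * (3 * m - 1)) (2 * k * (3 * m - 1) + m - 1) := by
    have h := cov_En m (6 * k + 1) (aB m k) K
    rw [hEn, show 6 * k + 1 - 1 = 6 * k by omega, aB_0, aB_last, ← hu] at h
    refine h.congr ?_ ?_
    · rw [hK]; linear_combination (-1 : ℤ) * huv
    · rw [hK]; ring
  -- 2. `P_{2k}`
  have c4 : Cov S (2 * k * (3 * m - 1) + m - 1) ((2 * k + 1) * (3 * m - 1) + m - 1 - u) := by
    have h1 := cov_Nn m (6 * k + 1) (aB m k) K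
    rw [aB_last, ← hv] at h1
    have h2 := cov_E m (6 * k + 1) (aB m k) K (6 * l + 5) (by omega) (by omega)
    rw [aB_5, show 6 * l + 5 + 1 = 6 * (l + 1) by ring, aB_0, ← hu] at h2
    refine h1.trans (h2.congr ?_ ?_)
    · rw [hK, hl]; push_cast; linear_combination (-1 : ℤ) * huv
    · rw [hK, hl]; push_cast; ring
  -- 3. `P_{2s}`
  have c5 : Cov S ((2 * k + 1) * (3 * m - 1) + m - 1 - u) (3 * k * (3 * m - 1) + m - 1 - u) := by
    have h := Cov.iter (S := S) (fun i : ℕ => (2 * k + 1 + i) * (3 * m - 1) + m - 1 - u) l ?_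
    · exact h.congr (by push_cast; ring) (by rw [hl]; push_cast; ring)
    · intro i hi
      obtain ⟨s, hs⟩ : ∃ s, l = s + 1 + i := ⟨l - 1 - i, by omega⟩
      have h1 := cov_N m (6 * k + 1) (aB m k) K (6 * (s + 1) + 1) (by omega) (by omega)
      rw [aB_1 _ _ _ (by omega), ← hu] at h1
      have h2 := cov_E m (6 * k + 1) (aB m k) K (6 * s + 5) (by omega) (by omega)
      rw [aB_5, show 6 * s + 5 + 1 = 6 * (s + 1) by ring, aB_0, ← hu] at h2
      refine (h1.congr (y' := (2 * k + 1 + i) * (3 * m - 1) + m - 1 - u + m) ?_ ?_).trans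
        (h2.congr ?_ ?_)
      · rw [hl, hs]; push_cast; ring
      · rw [hl, hs]; push_cast; ring
      · rw [hK, hl, hs]; push_cast; ring
      · rw [hK, hl, hs]; push_cast; ring
  have c6 : Cov S (3 * k * (3 * m - 1) + m - 1 - u) (3 * k * (3 * m - 1) + 2 * m - 1 - u) := by
    have h1 := cov_N m (6 * k + 1) (aB m k) K (6 * 0 + 1) (by omega) (by omega)
    rw [aB_1 _ _ _ (by omega), ← hu] at h1
    refine h1.congr ?_ ?_ <;> · push_cast; ring
  -- 4. `P_{2s+1}`
  have c7 : Cov S (3 * k * (3 * m - 1) + 2 * m - 1 - u) (4 * k * (3 * m - 1) + 2 * m - 1 - u) := by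
    have h := Cov.iter (S := S) (fun i : ℕ => (3 * k + i) * (3 * m - 1) + 2 * m - 1 - u) k ?_
    · exact h.congr (by push_cast; ring) (by push_cast; ring)
    · intro i hi
      obtain ⟨s, hs⟩ : ∃ s, k = s + 1 + i := ⟨k - 1 - i, by omega⟩
      have h1 := cov_N m (6 * k + 1) (aB m k) K (6 * s + 4) (by omega) (by omega)
      rw [aB_4, ← hu] at h1
      have h2 := cov_E m (6 * k + 1) (aB m k) K (6 * s + 2) (by omega) (by omega)
      rw [aB_2, show 6 * s + 2 + 1 = 6 * s + 3 by ring, aB_3, ← hu] at h2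
      refine (h1.congr (y' := (3 * k + i) * (3 * m - 1) + 3 * m - 1 - u) ?_ ?_).trans
        (h2.congr ?_ ?_)
      · rw [hs]; push_cast; ring
      · rw [hs]; push_cast; ring
      · rw [hK, hs]; push_cast; ring
      · rw [hK, hs]; push_cast; ring
  -- 5. `Q_{2s+1}`
  have c8 : Cov S (4 * k * (3 * m - 1) + 2 * m - 1 - u) (5 * k * (3 * m - 1) + 2 * m - 1 - u) := by
    have h := Cov.iter (S := S) (fun i : ℕ => (4 * k + i) * (3 * m - 1) + 2 * m - 1 - u) k ?_
    · exact h.congr (by push_cast; ring) (by push_cast; ring)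
    · intro i hi
      obtain ⟨s, hs⟩ : ∃ s, k = s + 1 + i := ⟨k - 1 - i, by omega⟩
      have h1 := cov_E m (6 * k + 1) (aB m k) K (6 * s + 4) (by omega) (by omega)
      rw [aB_4, show 6 * s + 4 + 1 = 6 * s + 5 by ring, aB_5, ← hu] at h1
      have h2 := cov_N m (6 * k + 1) (aB m k) K (6 * s + 3) (by omega) (by omega)
      rw [aB_3, ← hu] at h2
      refine (h1.congr (y' := (4 * k + i) * (3 * m - 1) + 4 * m - 2 - u) ?_ ?_).trans
        (h2.congr ?_ ?_)
      · rw [hK, hs]; push_cast; ring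
      · rw [hK, hs]; push_cast; ring
      · rw [hs]; push_cast; ring
      · rw [hs]; push_cast; ring
  have c9 : Cov S (5 * k * (3 * m - 1) + 2 * m - 1 - u) (5 * k * (3 * m - 1) + 3 * m - 1 - u) := by
    have h1 := cov_N m (6 * k + 1) (aB m k) K (6 * k) (by omega) (by omega)
    rw [aB_0, ← hu] at h1
    refine h1.congr ?_ ?_ <;> · push_cast; ring
  -- 6. `Q_{2s}`
  have c10 : Cov S (5 * k * (3 * m - 1) + 3 * m - 1 - u)
      ((6 * k - 1) * (3 * m - 1) + 3 * m - 1 - u) := by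
    have h := Cov.iter (S := S) (fun i : ℕ => (5 * k + i) * (3 * m - 1) + 3 * m - 1 - u) l ?_
    · exact h.congr (by push_cast; ring) (by rw [hl]; push_cast; ring)
    · intro i hi
      obtain ⟨s, hs⟩ : ∃ s, l = s + 1 + i := ⟨l - 1 - i, by omega⟩
      have h1 := cov_E m (6 * k + 1) (aB m k) K (6 * (s + 1) + 1) (by omega) (by omega)
      rw [aB_1 _ _ _ (by omega), show 6 * (s + 1) + 1 + 1 = 6 * (s + 1) + 2 by ring, aB_2,
        ← hu] at h1
      have h2 := cov_N m (6 * k + 1) (aB m k) K (6 * (s + 1)) (by omega) (by omega)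
      rw [aB_0, ← hu] at h2
      refine (h1.congr (y' := (5 * k + i) * (3 * m - 1) + 5 * m - 2 - u) ?_ ?_).trans
        (h2.congr ?_ ?_)
      · rw [hK, hl, hs]; push_cast; ring
      · rw [hK, hl, hs]; push_cast; ring
      · rw [hl, hs]; push_cast; ring
      · rw [hl, hs]; push_cast; ring
  have c11 : Cov S ((6 * k - 1) * (3 * m - 1) + 3 * m - 1 - u)
      (3 * m * (6 * k + 1 : ℕ) - m - (6 * k + 1 : ℕ)) := by
    have h1 := cov_E m (6 * k + 1) (aB m k) K (6 * 0 + 1) (by omega) (by omega)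
    rw [aB_1 _ _ _ (by omega), show 6 * 0 + 1 + 1 = 6 * 0 + 2 by ring, aB_2, ← hu] at h1
    have h2 := cov_N0 m (6 * k + 1) (aB m k) K
    rw [show (0 : ℕ) = 6 * 0 by ring, aB_0, ← hu] at h2
    refine (h1.congr (y' := 6 * k * (3 * m - 1) + 2 * m - 1 - u) ?_ ?_).trans
      (h2.congr ?_ ?_)
    · rw [hK]; push_cast; ring
    · rw [hK]; push_cast; ring
    · push_cast; ring
    · push_cast; ring
  exact (((((((((((c0.trans c1).trans c2).trans c3).trans c4).trans c5).trans c6).trans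
    c7).trans c8).trans c9).trans c10).trans c11)

end Pool.Agent.Helper29.EMT
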