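import Mathlib
import Pool.Agent.Helper29.EMT.Alt

/-!
# MP_5186fc_co : family D, grids with an even number of rows and `n = 4 mod 6`, `n ≥ 10` columns
(alternating words of helper46; generated file)
-/

set_option autoImplicit false
set_option linter.unusedVariables false
set_option linter.unusedTactic false
set_option linter.unreachableTactic false

open SimpleGraph

namespace Pool.Agent.Helper29.EMT

/-- number of short blocks before the vertex block of rank `x` -/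
def zVD (k x : ℕ) : ℤ :=
  if x = 0 then 0 else if x ≤ 3 * k + 2 then 1 else if x ≤ 5 * k + 2 then 2 else 3

/-- number of short blocks before the edge block of rank `y` -/
def zED (k y : ℕ) : ℤ :=
  if y = 0 then 0 else if y ≤ 3 * k + 1 then 1 else if y ≤ 5 * k + 2 then 2 else 3

theorem zVD_0 (k x : ℕ) (h : x = 0) : zVD k x = 0 := by rw [zVD, if_pos h]
theorem zVD_1 (k x : ℕ) (h : 1 ≤ x) (h2 : x ≤ 3 * k + 2) : zVD k x = 1 := by
  rw [zVD, if_neg (by omega), if_pos h2]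
theorem zVD_2 (k x : ℕ) (h : 3 * k + 3 ≤ x) (h2 : x ≤ 5 * k + 2) : zVD k x = 2 := by
  rw [zVD, if_neg (by omega), if_neg (by omega), if_pos h2]
theorem zVD_3 (k x : ℕ) (h : 5 * k + 3 ≤ x) : zVD k x = 3 := by
  rw [zVD, if_neg (by omega), if_neg (by omega), if_neg (by omega)]
theorem zED_0 (k y : ℕ) (h : y = 0) : zED k y = 0 := by rw [zED, if_pos h]
theorem zED_1 (k y : ℕ) (h : 1 ≤ y) (h2 : y ≤ 3 * k + 1) : zED k y = 1 := by
  rw [zED, if_neg (by omega), if_pos h2]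
theorem zED_2 (k y : ℕ) (h : 3 * k + 2 ≤ y) (h2 : y ≤ 5 * k + 2) : zED k y = 2 := by
  rw [zED, if_neg (by omega), if_neg (by omega), if_pos h2]
theorem zED_3 (k y : ℕ) (h : 5 * k + 3 ≤ y) : zED k y = 3 := by
  rw [zED, if_neg (by omega), if_neg (by omega), if_neg (by omega)]

/-- ranks of the vertex blocks, family D, `k = 2 * q` -/
def NDe (q j : ℕ) : ℕ :=
  if j = 0 then 6 * q + 2
  else if j < 2 * q then (if (j - (1)) % 2 = 0 then 2 * q + 1 - (j - (1)) / 2 else 6 * q - (j - (1)) / 2)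
  else if j < 4 * q - 1 then (if (j - (2 * q)) % 2 = 0 then 7 * q + 2 - (j - (2 * q)) / 2 else 5 * q + 1 - (j - (2 * q)) / 2)
  else if j = 4 * q - 1 then 0
  else if j < 6 * q then (if (j - (4 * q)) % 2 = 0 then 8 * q + 2 - (j - (4 * q)) / 2 else 10 * q + 2 - (j - (4 * q)) / 2)
  else if j < 8 * q then (if (j - (6 * q)) % 2 = 0 then q + 1 - (j - (6 * q)) / 2 else 9 * q + 2 - (j - (6 * q)) / 2)
  else if j < 12 * q + 2 then (if (j - (8 * q)) % 2 = 0 then 2 * q + 2 + (j - (8 * q)) / 2 else 10 * q + 3 + (j - (8 * q)) / 2)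
  else if j = 12 * q + 2 then 1
  else if j = 12 * q + 3 then 6 * q + 1
  else 12 * q + 4

theorem NDe_s0 (q : ℕ) (hq : 1 ≤ q) : NDe q (0) = 6 * q + 2 := by
  rw [NDe, if_pos rfl]

theorem NDe_s1 (q j : ℕ) (hq : 1 ≤ q) (h1 : 1 ≤ j) (h2 : j < 2 * q) : NDe q j =
    (if (j - (1)) % 2 = 0 then 2 * q + 1 - (j - (1)) / 2 else 6 * q - (j - (1)) / 2) := by
  rw [NDe, if_neg (by omega), if_pos (by omega)]

theorem NDe_s2 (q j : ℕ) (hq : 1 ≤ q) (h1 : 2 * q ≤ j) (h2 : j < 4 * q - 1) : NDe q j =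
    (if (j - (2 * q)) % 2 = 0 then 7 * q + 2 - (j - (2 * q)) / 2 else 5 * q + 1 - (j - (2 * q)) / 2) := by
  rw [NDe, if_neg (by omega), if_neg (by omega), if_pos (by omega)]

theorem NDe_s3 (q : ℕ) (hq : 1 ≤ q) : NDe q (4 * q - 1) = 0 := by
  rw [NDe, if_neg (by omega), if_neg (by omega), if_neg (by omega), if_pos rfl]

theorem NDe_s4 (q j : ℕ) (hq : 1 ≤ q) (h1 : 4 * q ≤ j) (h2 : j < 6 * q) : NDe q j =
    (if (j - (4 * q)) % 2 = 0 then 8 * q + 2 - (j - (4 * q)) / 2 else 10 * q + 2 - (j - (4 * q)) / 2) := by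
  rw [NDe, if_neg (by omega), if_neg (by omega), if_neg (by omega), if_neg (by omega), if_pos (by omega)]

theorem NDe_s5 (q j : ℕ) (hq : 1 ≤ q) (h1 : 6 * q ≤ j) (h2 : j < 8 * q) : NDe q j =
    (if (j - (6 * q)) % 2 = 0 then q + 1 - (j - (6 * q)) / 2 else 9 * q + 2 - (j - (6 * q)) / 2) := by
  rw [NDe, if_neg (by omega), if_neg (by omega), if_neg (by omega), if_neg (by omega), if_neg (by omega), if_pos (by omega)]

theorem NDe_s6 (q j : ℕ) (hq : 1 ≤ q) (h1 : 8 * q ≤ j) (h2 : j < 12 * q + 2) : NDe q j =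
    (if (j - (8 * q)) % 2 = 0 then 2 * q + 2 + (j - (8 * q)) / 2 else 10 * q + 3 + (j - (8 * q)) / 2) := by
  rw [NDe, if_neg (by omega), if_neg (by omega), if_neg (by omega), if_neg (by omega), if_neg (by omega), if_neg (by omega), if_pos (by omega)]

theorem NDe_s7 (q : ℕ) (hq : 1 ≤ q) : NDe q (12 * q + 2) = 1 := by
  rw [NDe, if_neg (by omega), if_neg (by omega), if_neg (by omega), if_neg (by omega), if_neg (by omega), if_neg (by omega), if_neg (by omega), if_pos rfl]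

theorem NDe_s8 (q : ℕ) (hq : 1 ≤ q) : NDe q (12 * q + 3) = 6 * q + 1 := by
  rw [NDe, if_neg (by omega), if_neg (by omega), if_neg (by omega), if_neg (by omega), if_neg (by omega), if_neg (by omega), if_neg (by omega), if_neg (by omega), if_pos rfl]

theorem NDe_s9 (q : ℕ) (hq : 1 ≤ q) : NDe q (12 * q + 4) = 12 * q + 4 := by
  rw [NDe, if_neg (by omega), if_neg (by omega), if_neg (by omega), if_neg (by omega), if_neg (by omega), if_neg (by omega), if_neg (by omega), if_neg (by omega), if_neg (by omega)]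

theorem NDe_V (q : ℕ) (hq : 1 ≤ q) : ∀ x, x < 12 * q + 4 → ∃ j, j ≤ 12 * q + 4 ∧ NDe q j = x ∧
    zED (2 * q) x = zVD (2 * q) x + (if j = 0 ∨ j = 12 * q + 4 then 1 else 0) := by
  intro x hx
  have hcase : x = 0 ∨ x = 1 ∨ (2 ≤ x ∧ x ≤ q + 1) ∨ (q + 2 ≤ x ∧ x ≤ 2 * q + 1) ∨ (2 * q + 2 ≤ x ∧ x ≤ 4 * q + 2) ∨ (4 * q + 3 ≤ x ∧ x ≤ 5 * q + 1) ∨ (5 * q + 2 ≤ x ∧ x ≤ 6 * q) ∨ x = 6 * q + 1 ∨ x = 6 * q + 2 ∨ (6 * q + 3 ≤ x ∧ x ≤ 7 * q + 2) ∨ (7 * q + 3 ≤ x ∧ x ≤ 8 * q + 2) ∨ (8 * q + 3 ≤ x ∧ x ≤ 9 * q + 2) ∨ (9 * q + 3 ≤ x ∧ x ≤ 10 * q + 2) ∨ (10 * q + 3 ≤ x ∧ x ≤ 12 * q + 3) := by omega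
  rcases hcase with hc | hc | hc | hc | hc | hc | hc | hc | hc | hc | hc | hc | hc | hc
  · subst hc
    refine ⟨4 * q - 1, by omega, NDe_s3 q hq, ?_⟩
    rw [if_neg (by omega)]
    rw [zED_0 _ _ (by omega), zVD_0 _ _ (by omega)]; try norm_num
  · subst hc
    refine ⟨12 * q + 2, by omega, NDe_s7 q hq, ?_⟩
    rw [if_neg (by omega)]
    rw [zED_1 _ _ (by omega) (by omega), zVD_1 _ _ (by omega) (by omega)]; try norm_num
  · have hN := NDe_s5 q (6 * q + 2 * (q + 1 - x)) hq (by omega) (by omega)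
    rw [if_pos (by omega)] at hN
    refine ⟨6 * q + 2 * (q + 1 - x), by omega, by rw [hN]; omega, ?_⟩
    rw [if_neg (by omega)]
    rw [zED_1 _ _ (by omega) (by omega), zVD_1 _ _ (by omega) (by omega)]; try norm_num
  · have hN := NDe_s1 q (1 + 2 * (2 * q + 1 - x)) hq (by omega) (by omega)
    rw [if_pos (by omega)] at hN
    refine ⟨1 + 2 * (2 * q + 1 - x), by omega, by rw [hN]; omega, ?_⟩
    rw [if_neg (by omega)]
    rw [zED_1 _ _ (by omega) (by omega), zVD_1 _ _ (by omega) (by omega)]; try norm_num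
  · have hN := NDe_s6 q (8 * q + 2 * (x - (2 * q + 2))) hq (by omega) (by omega)
    rw [if_pos (by omega)] at hN
    refine ⟨8 * q + 2 * (x - (2 * q + 2)), by omega, by rw [hN]; omega, ?_⟩
    rw [if_neg (by omega)]
    rw [zED_1 _ _ (by omega) (by omega), zVD_1 _ _ (by omega) (by omega)]; try norm_num
  · have hN := NDe_s2 q (2 * q + 2 * (5 * q + 1 - x) + 1) hq (by omega) (by omega)
    rw [if_neg (by omega)] at hN
    refine ⟨2 * q + 2 * (5 * q + 1 - x) + 1, by omega, by rw [hN]; omega, ?_⟩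
    rw [if_neg (by omega)]
    rw [zED_1 _ _ (by omega) (by omega), zVD_1 _ _ (by omega) (by omega)]; try norm_num
  · have hN := NDe_s1 q (1 + 2 * (6 * q - x) + 1) hq (by omega) (by omega)
    rw [if_neg (by omega)] at hN
    refine ⟨1 + 2 * (6 * q - x) + 1, by omega, by rw [hN]; omega, ?_⟩
    rw [if_neg (by omega)]
    rw [zED_1 _ _ (by omega) (by omega), zVD_1 _ _ (by omega) (by omega)]; try norm_num
  · subst hc
    refine ⟨12 * q + 3, by omega, NDe_s8 q hq, ?_⟩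
    rw [if_neg (by omega)]
    rw [zED_1 _ _ (by omega) (by omega), zVD_1 _ _ (by omega) (by omega)]; try norm_num
  · subst hc
    refine ⟨0, by omega, NDe_s0 q hq, ?_⟩
    rw [if_pos (Or.inl rfl)]
    rw [zED_2 _ _ (by omega) (by omega), zVD_1 _ _ (by omega) (by omega)]; try norm_num
  · have hN := NDe_s2 q (2 * q + 2 * (7 * q + 2 - x)) hq (by omega) (by omega)
    rw [if_pos (by omega)] at hN
    refine ⟨2 * q + 2 * (7 * q + 2 - x), by omega, by rw [hN]; omega, ?_⟩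
    rw [if_neg (by omega)]
    rw [zED_2 _ _ (by omega) (by omega), zVD_2 _ _ (by omega) (by omega)]; try norm_num
  · have hN := NDe_s4 q (4 * q + 2 * (8 * q + 2 - x)) hq (by omega) (by omega)
    rw [if_pos (by omega)] at hN
    refine ⟨4 * q + 2 * (8 * q + 2 - x), by omega, by rw [hN]; omega, ?_⟩
    rw [if_neg (by omega)]
    rw [zED_2 _ _ (by omega) (by omega), zVD_2 _ _ (by omega) (by omega)]; try norm_num
  · have hN := NDe_s5 q (6 * q + 2 * (9 * q + 2 - x) + 1) hq (by omega) (by omega)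
    rw [if_neg (by omega)] at hN
    refine ⟨6 * q + 2 * (9 * q + 2 - x) + 1, by omega, by rw [hN]; omega, ?_⟩
    rw [if_neg (by omega)]
    rw [zED_2 _ _ (by omega) (by omega), zVD_2 _ _ (by omega) (by omega)]; try norm_num
  · have hN := NDe_s4 q (4 * q + 2 * (10 * q + 2 - x) + 1) hq (by omega) (by omega)
    rw [if_neg (by omega)] at hN
    refine ⟨4 * q + 2 * (10 * q + 2 - x) + 1, by omega, by rw [hN]; omega, ?_⟩
    rw [if_neg (by omega)]
    rw [zED_2 _ _ (by omega) (by omega), zVD_2 _ _ (by omega) (by omega)]; try norm_num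
  · have hN := NDe_s6 q (8 * q + 2 * (x - (10 * q + 3)) + 1) hq (by omega) (by omega)
    rw [if_neg (by omega)] at hN
    refine ⟨8 * q + 2 * (x - (10 * q + 3)) + 1, by omega, by rw [hN]; omega, ?_⟩
    rw [if_neg (by omega)]
    rw [zED_3 _ _ (by omega), zVD_3 _ _ (by omega)]; try norm_num

theorem NDe_E (q : ℕ) (hq : 1 ≤ q) : ∀ y, y < 12 * q + 4 → ∃ j, j < 12 * q + 4 ∧
    (NDe q j : ℤ) + NDe q (j + 1) + y = 9 * (2 * q : ℕ) + 5 ∧
    zVD (2 * q) (NDe q j) + zVD (2 * q) (NDe q (j + 1)) + zED (2 * q) y =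
      (if j = 0 ∨ j + 1 = 12 * q + 4 then 4 else 5) ∧
    zVD (2 * q) (y + 1) = zED (2 * q) y + (if j = 0 ∨ j + 1 = 12 * q + 4 then 1 else 0) := by
  intro y hy
  have hcase : y = 0 ∨ (1 ≤ y ∧ y ≤ 2 * q - 1) ∨ (2 * q ≤ y ∧ y ≤ 6 * q) ∨ y = 6 * q + 1 ∨ (6 * q + 2 ≤ y ∧ y ≤ 8 * q - 1) ∨ y = 8 * q ∨ y = 8 * q + 1 ∨ (8 * q + 2 ≤ y ∧ y ≤ 10 * q) ∨ y = 10 * q + 1 ∨ y = 10 * q + 2 ∨ y = 10 * q + 3 ∨ (10 * q + 4 ≤ y ∧ y ≤ 12 * q + 1) ∨ y = 12 * q + 2 ∨ y = 12 * q + 3 := by omega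
  rcases hcase with hc | hc | hc | hc | hc | hc | hc | hc | hc | hc | hc | hc | hc | hc
  · obtain ⟨j, hj⟩ : ∃ j, j = 12 * q + 3 := ⟨_, rfl⟩
    have hN1 : NDe q (j) = 6 * q + 1 := by
      rw [show j = 12 * q + 3 by omega]; exact NDe_s8 q hq
    have hN2 : NDe q (j + 1) = 12 * q + 4 := by
      rw [show j + 1 = 12 * q + 4 by omega]; exact NDe_s9 q hq
    refine ⟨j, by omega, ?_⟩
    rw [if_pos (Or.inr (by omega)), if_pos (Or.inr (by omega))]
    have hz1 : zVD (2 * q) (NDe q j) = 1 := by rw [hN1]; exact zVD_1 _ _ (by omega) (by omega)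
    have hz2 : zVD (2 * q) (NDe q (j + 1)) = 3 := by rw [hN2]; exact zVD_3 _ _ (by omega)
    have hz3 : zED (2 * q) y = 0 := zED_0 _ _ (by omega)
    have hz4 : zVD (2 * q) (y + 1) = 1 := zVD_1 _ _ (by omega) (by omega)
    refine ⟨by rw [hN1, hN2]; omega, by rw [hz1, hz2, hz3]; norm_num, by rw [hz4, hz3]; norm_num⟩
  · obtain ⟨j, hj⟩ : ∃ j, j = 4 * q + (y - (1)) := ⟨_, rfl⟩
    have hN1 := NDe_s4 q j hq (by omega) (by omega)
    have hN2 := NDe_s4 q (j + 1) hq (by omega) (by omega)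
    refine ⟨j, by omega, ?_⟩
    rw [if_neg (by omega), if_neg (by omega)]
    rcases Nat.mod_two_eq_zero_or_one (j - (4 * q)) with hp | hp
    · rw [if_pos hp] at hN1
      rw [if_neg (by omega)] at hN2
      have hz1 : zVD (2 * q) (NDe q j) = 2 := by rw [hN1]; exact zVD_2 _ _ (by omega) (by omega)
      have hz2 : zVD (2 * q) (NDe q (j + 1)) = 2 := by rw [hN2]; exact zVD_2 _ _ (by omega) (by omega)
      have hz3 : zED (2 * q) y = 1 := zED_1 _ _ (by omega) (by omega)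
      have hz4 : zVD (2 * q) (y + 1) = 1 := zVD_1 _ _ (by omega) (by omega)
      refine ⟨by rw [hN1, hN2]; omega, by rw [hz1, hz2, hz3]; norm_num, by rw [hz4, hz3]; norm_num⟩
    · rw [if_neg (by omega)] at hN1
      rw [if_pos (by omega)] at hN2
      have hz1 : zVD (2 * q) (NDe q j) = 2 := by rw [hN1]; exact zVD_2 _ _ (by omega) (by omega)
      have hz2 : zVD (2 * q) (NDe q (j + 1)) = 2 := by rw [hN2]; exact zVD_2 _ _ (by omega) (by omega)
      have hz3 : zED (2 * q) y = 1 := zED_1 _ _ (by omega) (by omega)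
      have hz4 : zVD (2 * q) (y + 1) = 1 := zVD_1 _ _ (by omega) (by omega)
      refine ⟨by rw [hN1, hN2]; omega, by rw [hz1, hz2, hz3]; norm_num, by rw [hz4, hz3]; norm_num⟩
  · obtain ⟨j, hj⟩ : ∃ j, j = 8 * q + (6 * q - y) := ⟨_, rfl⟩
    have hN1 := NDe_s6 q j hq (by omega) (by omega)
    have hN2 := NDe_s6 q (j + 1) hq (by omega) (by omega)
    refine ⟨j, by omega, ?_⟩
    rw [if_neg (by omega), if_neg (by omega)]
    rcases Nat.mod_two_eq_zero_or_one (j - (8 * q)) with hp | hp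
    · rw [if_pos hp] at hN1
      rw [if_neg (by omega)] at hN2
      have hz1 : zVD (2 * q) (NDe q j) = 1 := by rw [hN1]; exact zVD_1 _ _ (by omega) (by omega)
      have hz2 : zVD (2 * q) (NDe q (j + 1)) = 3 := by rw [hN2]; exact zVD_3 _ _ (by omega)
      have hz3 : zED (2 * q) y = 1 := zED_1 _ _ (by omega) (by omega)
      have hz4 : zVD (2 * q) (y + 1) = 1 := zVD_1 _ _ (by omega) (by omega)
      refine ⟨by rw [hN1, hN2]; omega, by rw [hz1, hz2, hz3]; norm_num, by rw [hz4, hz3]; norm_num⟩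
    · rw [if_neg (by omega)] at hN1
      rw [if_pos (by omega)] at hN2
      have hz1 : zVD (2 * q) (NDe q j) = 3 := by rw [hN1]; exact zVD_3 _ _ (by omega)
      have hz2 : zVD (2 * q) (NDe q (j + 1)) = 1 := by rw [hN2]; exact zVD_1 _ _ (by omega) (by omega)
      have hz3 : zED (2 * q) y = 1 := zED_1 _ _ (by omega) (by omega)
      have hz4 : zVD (2 * q) (y + 1) = 1 := zVD_1 _ _ (by omega) (by omega)
      refine ⟨by rw [hN1, hN2]; omega, by rw [hz1, hz2, hz3]; norm_num, by rw [hz4, hz3]; norm_num⟩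
  · obtain ⟨j, hj⟩ : ∃ j, j = 12 * q + 1 := ⟨_, rfl⟩
    have hN1 := NDe_s6 q (j) hq (by omega) (by omega)
    rw [if_neg (by omega)] at hN1
    have hN2 : NDe q (j + 1) = 1 := by
      rw [show j + 1 = 12 * q + 2 by omega]; exact NDe_s7 q hq
    refine ⟨j, by omega, ?_⟩
    rw [if_neg (by omega), if_neg (by omega)]
    have hz1 : zVD (2 * q) (NDe q j) = 3 := by rw [hN1]; exact zVD_3 _ _ (by omega)
    have hz2 : zVD (2 * q) (NDe q (j + 1)) = 1 := by rw [hN2]; exact zVD_1 _ _ (by omega) (by omega)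
    have hz3 : zED (2 * q) y = 1 := zED_1 _ _ (by omega) (by omega)
    have hz4 : zVD (2 * q) (y + 1) = 1 := zVD_1 _ _ (by omega) (by omega)
    refine ⟨by rw [hN1, hN2]; omega, by rw [hz1, hz2, hz3]; norm_num, by rw [hz4, hz3]; norm_num⟩
  · obtain ⟨j, hj⟩ : ∃ j, j = 2 * q + (y - (6 * q + 2)) := ⟨_, rfl⟩
    have hN1 := NDe_s2 q j hq (by omega) (by omega)
    have hN2 := NDe_s2 q (j + 1) hq (by omega) (by omega)
    refine ⟨j, by omega, ?_⟩
    rw [if_neg (by omega), if_neg (by omega)]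
    rcases Nat.mod_two_eq_zero_or_one (j - (2 * q)) with hp | hp
    · rw [if_pos hp] at hN1
      rw [if_neg (by omega)] at hN2
      have hz1 : zVD (2 * q) (NDe q j) = 2 := by rw [hN1]; exact zVD_2 _ _ (by omega) (by omega)
      have hz2 : zVD (2 * q) (NDe q (j + 1)) = 1 := by rw [hN2]; exact zVD_1 _ _ (by omega) (by omega)
      have hz3 : zED (2 * q) y = 2 := zED_2 _ _ (by omega) (by omega)
      have hz4 : zVD (2 * q) (y + 1) = 2 := zVD_2 _ _ (by omega) (by omega)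
      refine ⟨by rw [hN1, hN2]; omega, by rw [hz1, hz2, hz3]; norm_num, by rw [hz4, hz3]; norm_num⟩
    · rw [if_neg (by omega)] at hN1
      rw [if_pos (by omega)] at hN2
      have hz1 : zVD (2 * q) (NDe q j) = 1 := by rw [hN1]; exact zVD_1 _ _ (by omega) (by omega)
      have hz2 : zVD (2 * q) (NDe q (j + 1)) = 2 := by rw [hN2]; exact zVD_2 _ _ (by omega) (by omega)
      have hz3 : zED (2 * q) y = 2 := zED_2 _ _ (by omega) (by omega)
      have hz4 : zVD (2 * q) (y + 1) = 2 := zVD_2 _ _ (by omega) (by omega)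
      refine ⟨by rw [hN1, hN2]; omega, by rw [hz1, hz2, hz3]; norm_num, by rw [hz4, hz3]; norm_num⟩
  · obtain ⟨j, hj⟩ : ∃ j, j = 8 * q - 1 := ⟨_, rfl⟩
    have hN1 := NDe_s5 q (j) hq (by omega) (by omega)
    rw [if_neg (by omega)] at hN1
    have hN2 := NDe_s6 q (j + 1) hq (by omega) (by omega)
    rw [if_pos (by omega)] at hN2
    refine ⟨j, by omega, ?_⟩
    rw [if_neg (by omega), if_neg (by omega)]
    have hz1 : zVD (2 * q) (NDe q j) = 2 := by rw [hN1]; exact zVD_2 _ _ (by omega) (by omega)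
    have hz2 : zVD (2 * q) (NDe q (j + 1)) = 1 := by rw [hN2]; exact zVD_1 _ _ (by omega) (by omega)
    have hz3 : zED (2 * q) y = 2 := zED_2 _ _ (by omega) (by omega)
    have hz4 : zVD (2 * q) (y + 1) = 2 := zVD_2 _ _ (by omega) (by omega)
    refine ⟨by rw [hN1, hN2]; omega, by rw [hz1, hz2, hz3]; norm_num, by rw [hz4, hz3]; norm_num⟩
  · obtain ⟨j, hj⟩ : ∃ j, j = 6 * q - 1 := ⟨_, rfl⟩
    have hN1 := NDe_s4 q (j) hq (by omega) (by omega)
    rw [if_neg (by omega)] at hN1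
    have hN2 := NDe_s5 q (j + 1) hq (by omega) (by omega)
    rw [if_pos (by omega)] at hN2
    refine ⟨j, by omega, ?_⟩
    rw [if_neg (by omega), if_neg (by omega)]
    have hz1 : zVD (2 * q) (NDe q j) = 2 := by rw [hN1]; exact zVD_2 _ _ (by omega) (by omega)
    have hz2 : zVD (2 * q) (NDe q (j + 1)) = 1 := by rw [hN2]; exact zVD_1 _ _ (by omega) (by omega)
    have hz3 : zED (2 * q) y = 2 := zED_2 _ _ (by omega) (by omega)
    have hz4 : zVD (2 * q) (y + 1) = 2 := zVD_2 _ _ (by omega) (by omega)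
    refine ⟨by rw [hN1, hN2]; omega, by rw [hz1, hz2, hz3]; norm_num, by rw [hz4, hz3]; norm_num⟩
  · obtain ⟨j, hj⟩ : ∃ j, j = 6 * q + (y - (8 * q + 2)) := ⟨_, rfl⟩
    have hN1 := NDe_s5 q j hq (by omega) (by omega)
    have hN2 := NDe_s5 q (j + 1) hq (by omega) (by omega)
    refine ⟨j, by omega, ?_⟩
    rw [if_neg (by omega), if_neg (by omega)]
    rcases Nat.mod_two_eq_zero_or_one (j - (6 * q)) with hp | hp
    · rw [if_pos hp] at hN1
      rw [if_neg (by omega)] at hN2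
      have hz1 : zVD (2 * q) (NDe q j) = 1 := by rw [hN1]; exact zVD_1 _ _ (by omega) (by omega)
      have hz2 : zVD (2 * q) (NDe q (j + 1)) = 2 := by rw [hN2]; exact zVD_2 _ _ (by omega) (by omega)
      have hz3 : zED (2 * q) y = 2 := zED_2 _ _ (by omega) (by omega)
      have hz4 : zVD (2 * q) (y + 1) = 2 := zVD_2 _ _ (by omega) (by omega)
      refine ⟨by rw [hN1, hN2]; omega, by rw [hz1, hz2, hz3]; norm_num, by rw [hz4, hz3]; norm_num⟩
    · rw [if_neg (by omega)] at hN1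
      rw [if_pos (by omega)] at hN2
      have hz1 : zVD (2 * q) (NDe q j) = 2 := by rw [hN1]; exact zVD_2 _ _ (by omega) (by omega)
      have hz2 : zVD (2 * q) (NDe q (j + 1)) = 1 := by rw [hN2]; exact zVD_1 _ _ (by omega) (by omega)
      have hz3 : zED (2 * q) y = 2 := zED_2 _ _ (by omega) (by omega)
      have hz4 : zVD (2 * q) (y + 1) = 2 := zVD_2 _ _ (by omega) (by omega)
      refine ⟨by rw [hN1, hN2]; omega, by rw [hz1, hz2, hz3]; norm_num, by rw [hz4, hz3]; norm_num⟩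
  · obtain ⟨j, hj⟩ : ∃ j, j = 2 * q - 1 := ⟨_, rfl⟩
    have hN1 := NDe_s1 q (j) hq (by omega) (by omega)
    rw [if_pos (by omega)] at hN1
    have hN2 := NDe_s2 q (j + 1) hq (by omega) (by omega)
    rw [if_pos (by omega)] at hN2
    refine ⟨j, by omega, ?_⟩
    rw [if_neg (by omega), if_neg (by omega)]
    have hz1 : zVD (2 * q) (NDe q j) = 1 := by rw [hN1]; exact zVD_1 _ _ (by omega) (by omega)
    have hz2 : zVD (2 * q) (NDe q (j + 1)) = 2 := by rw [hN2]; exact zVD_2 _ _ (by omega) (by omega)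
    have hz3 : zED (2 * q) y = 2 := zED_2 _ _ (by omega) (by omega)
    have hz4 : zVD (2 * q) (y + 1) = 2 := zVD_2 _ _ (by omega) (by omega)
    refine ⟨by rw [hN1, hN2]; omega, by rw [hz1, hz2, hz3]; norm_num, by rw [hz4, hz3]; norm_num⟩
  · obtain ⟨j, hj⟩ : ∃ j, j = 0 := ⟨_, rfl⟩
    have hN1 : NDe q (j) = 6 * q + 2 := by
      rw [show j = 0 by omega]; exact NDe_s0 q hq
    have hN2 := NDe_s1 q (j + 1) hq (by omega) (by omega)
    rw [if_pos (by omega)] at hN2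
    refine ⟨j, by omega, ?_⟩
    rw [if_pos (Or.inl hj), if_pos (Or.inl hj)]
    have hz1 : zVD (2 * q) (NDe q j) = 1 := by rw [hN1]; exact zVD_1 _ _ (by omega) (by omega)
    have hz2 : zVD (2 * q) (NDe q (j + 1)) = 1 := by rw [hN2]; exact zVD_1 _ _ (by omega) (by omega)
    have hz3 : zED (2 * q) y = 2 := zED_2 _ _ (by omega) (by omega)
    have hz4 : zVD (2 * q) (y + 1) = 3 := zVD_3 _ _ (by omega)
    refine ⟨by rw [hN1, hN2]; omega, by rw [hz1, hz2, hz3]; norm_num, by rw [hz4, hz3]; norm_num⟩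
  · obtain ⟨j, hj⟩ : ∃ j, j = 4 * q - 1 := ⟨_, rfl⟩
    have hN1 : NDe q (j) = 0 := by
      rw [show j = 4 * q - 1 by omega]; exact NDe_s3 q hq
    have hN2 := NDe_s4 q (j + 1) hq (by omega) (by omega)
    rw [if_pos (by omega)] at hN2
    refine ⟨j, by omega, ?_⟩
    rw [if_neg (by omega), if_neg (by omega)]
    have hz1 : zVD (2 * q) (NDe q j) = 0 := by rw [hN1]; exact zVD_0 _ _ (by omega)
    have hz2 : zVD (2 * q) (NDe q (j + 1)) = 2 := by rw [hN2]; exact zVD_2 _ _ (by omega) (by omega)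
    have hz3 : zED (2 * q) y = 3 := zED_3 _ _ (by omega)
    have hz4 : zVD (2 * q) (y + 1) = 3 := zVD_3 _ _ (by omega)
    refine ⟨by rw [hN1, hN2]; omega, by rw [hz1, hz2, hz3]; norm_num, by rw [hz4, hz3]; norm_num⟩
  · obtain ⟨j, hj⟩ : ∃ j, j = 1 + (y - (10 * q + 4)) := ⟨_, rfl⟩
    have hN1 := NDe_s1 q j hq (by omega) (by omega)
    have hN2 := NDe_s1 q (j + 1) hq (by omega) (by omega)
    refine ⟨j, by omega, ?_⟩
    rw [if_neg (by omega), if_neg (by omega)]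
    rcases Nat.mod_two_eq_zero_or_one (j - (1)) with hp | hp
    · rw [if_pos hp] at hN1
      rw [if_neg (by omega)] at hN2
      have hz1 : zVD (2 * q) (NDe q j) = 1 := by rw [hN1]; exact zVD_1 _ _ (by omega) (by omega)
      have hz2 : zVD (2 * q) (NDe q (j + 1)) = 1 := by rw [hN2]; exact zVD_1 _ _ (by omega) (by omega)
      have hz3 : zED (2 * q) y = 3 := zED_3 _ _ (by omega)
      have hz4 : zVD (2 * q) (y + 1) = 3 := zVD_3 _ _ (by omega)
      refine ⟨by rw [hN1, hN2]; omega, by rw [hz1, hz2, hz3]; norm_num, by rw [hz4, hz3]; norm_num⟩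
    · rw [if_neg (by omega)] at hN1
      rw [if_pos (by omega)] at hN2
      have hz1 : zVD (2 * q) (NDe q j) = 1 := by rw [hN1]; exact zVD_1 _ _ (by omega) (by omega)
      have hz2 : zVD (2 * q) (NDe q (j + 1)) = 1 := by rw [hN2]; exact zVD_1 _ _ (by omega) (by omega)
      have hz3 : zED (2 * q) y = 3 := zED_3 _ _ (by omega)
      have hz4 : zVD (2 * q) (y + 1) = 3 := zVD_3 _ _ (by omega)
      refine ⟨by rw [hN1, hN2]; omega, by rw [hz1, hz2, hz3]; norm_num, by rw [hz4, hz3]; norm_num⟩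
  · obtain ⟨j, hj⟩ : ∃ j, j = 4 * q - 2 := ⟨_, rfl⟩
    have hN1 := NDe_s2 q (j) hq (by omega) (by omega)
    rw [if_pos (by omega)] at hN1
    have hN2 : NDe q (j + 1) = 0 := by
      rw [show j + 1 = 4 * q - 1 by omega]; exact NDe_s3 q hq
    refine ⟨j, by omega, ?_⟩
    rw [if_neg (by omega), if_neg (by omega)]
    have hz1 : zVD (2 * q) (NDe q j) = 2 := by rw [hN1]; exact zVD_2 _ _ (by omega) (by omega)
    have hz2 : zVD (2 * q) (NDe q (j + 1)) = 0 := by rw [hN2]; exact zVD_0 _ _ (by omega)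
    have hz3 : zED (2 * q) y = 3 := zED_3 _ _ (by omega)
    have hz4 : zVD (2 * q) (y + 1) = 3 := zVD_3 _ _ (by omega)
    refine ⟨by rw [hN1, hN2]; omega, by rw [hz1, hz2, hz3]; norm_num, by rw [hz4, hz3]; norm_num⟩
  · obtain ⟨j, hj⟩ : ∃ j, j = 12 * q + 2 := ⟨_, rfl⟩
    have hN1 : NDe q (j) = 1 := by
      rw [show j = 12 * q + 2 by omega]; exact NDe_s7 q hq
    have hN2 : NDe q (j + 1) = 6 * q + 1 := by
      rw [show j + 1 = 12 * q + 3 by omega]; exact NDe_s8 q hq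
    refine ⟨j, by omega, ?_⟩
    rw [if_neg (by omega), if_neg (by omega)]
    have hz1 : zVD (2 * q) (NDe q j) = 1 := by rw [hN1]; exact zVD_1 _ _ (by omega) (by omega)
    have hz2 : zVD (2 * q) (NDe q (j + 1)) = 1 := by rw [hN2]; exact zVD_1 _ _ (by omega) (by omega)
    have hz3 : zED (2 * q) y = 3 := zED_3 _ _ (by omega)
    have hz4 : zVD (2 * q) (y + 1) = 3 := zVD_3 _ _ (by omega)
    refine ⟨by rw [hN1, hN2]; omega, by rw [hz1, hz2, hz3]; norm_num, by rw [hz4, hz3]; norm_num⟩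

/-- ranks of the vertex blocks, family D, `k = 2 * q + 1` -/
def NDo (q j : ℕ) : ℕ :=
  if j = 0 then 6 * q + 5
  else if j < 2 * q + 1 then (if (j - (1)) % 2 = 0 then 2 * q + 2 - (j - (1)) / 2 else 6 * q + 3 - (j - (1)) / 2)
  else if j < 4 * q then (if (j - (2 * q + 1)) % 2 = 0 then 7 * q + 5 - (j - (2 * q + 1)) / 2 else 5 * q + 3 - (j - (2 * q + 1)) / 2)
  else if j = 4 * q then 0
  else if j < 6 * q + 2 then (if (j - (4 * q + 1)) % 2 = 0 then 8 * q + 6 - (j - (4 * q + 1)) / 2 else 10 * q + 7 - (j - (4 * q + 1)) / 2)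
  else if j < 8 * q + 4 then (if (j - (6 * q + 2)) % 2 = 0 then q + 2 - (j - (6 * q + 2)) / 2 else 9 * q + 7 - (j - (6 * q + 2)) / 2)
  else if j < 12 * q + 8 then (if (j - (8 * q + 4)) % 2 = 0 then 2 * q + 3 + (j - (8 * q + 4)) / 2 else 10 * q + 8 + (j - (8 * q + 4)) / 2)
  else if j = 12 * q + 8 then 1
  else if j = 12 * q + 9 then 6 * q + 4
  else 12 * q + 10

theorem NDo_s0 (q : ℕ) (hq : 1 ≤ q) : NDo q (0) = 6 * q + 5 := by
  rw [NDo, if_pos rfl]

theorem NDo_s1 (q j : ℕ) (hq : 1 ≤ q) (h1 : 1 ≤ j) (h2 : j < 2 * q + 1) : NDo q j =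
    (if (j - (1)) % 2 = 0 then 2 * q + 2 - (j - (1)) / 2 else 6 * q + 3 - (j - (1)) / 2) := by
  rw [NDo, if_neg (by omega), if_pos (by omega)]

theorem NDo_s2 (q j : ℕ) (hq : 1 ≤ q) (h1 : 2 * q + 1 ≤ j) (h2 : j < 4 * q) : NDo q j =
    (if (j - (2 * q + 1)) % 2 = 0 then 7 * q + 5 - (j - (2 * q + 1)) / 2 else 5 * q + 3 - (j - (2 * q + 1)) / 2) := by
  rw [NDo, if_neg (by omega), if_neg (by omega), if_pos (by omega)]

theorem NDo_s3 (q : ℕ) (hq : 1 ≤ q) : NDo q (4 * q) = 0 := by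
  rw [NDo, if_neg (by omega), if_neg (by omega), if_neg (by omega), if_pos rfl]

theorem NDo_s4 (q j : ℕ) (hq : 1 ≤ q) (h1 : 4 * q + 1 ≤ j) (h2 : j < 6 * q + 2) : NDo q j =
    (if (j - (4 * q + 1)) % 2 = 0 then 8 * q + 6 - (j - (4 * q + 1)) / 2 else 10 * q + 7 - (j - (4 * q + 1)) / 2) := by
  rw [NDo, if_neg (by omega), if_neg (by omega), if_neg (by omega), if_neg (by omega), if_pos (by omega)]

theorem NDo_s5 (q j : ℕ) (hq : 1 ≤ q) (h1 : 6 * q + 2 ≤ j) (h2 : j < 8 * q + 4) : NDo q j =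
    (if (j - (6 * q + 2)) % 2 = 0 then q + 2 - (j - (6 * q + 2)) / 2 else 9 * q + 7 - (j - (6 * q + 2)) / 2) := by
  rw [NDo, if_neg (by omega), if_neg (by omega), if_neg (by omega), if_neg (by omega), if_neg (by omega), if_pos (by omega)]

theorem NDo_s6 (q j : ℕ) (hq : 1 ≤ q) (h1 : 8 * q + 4 ≤ j) (h2 : j < 12 * q + 8) : NDo q j =
    (if (j - (8 * q + 4)) % 2 = 0 then 2 * q + 3 + (j - (8 * q + 4)) / 2 else 10 * q + 8 + (j - (8 * q + 4)) / 2) := by
  rw [NDo, if_neg (by omega), if_neg (by omega), if_neg (by omega), if_neg (by omega), if_neg (by omega), if_neg (by omega), if_pos (by omega)]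

theorem NDo_s7 (q : ℕ) (hq : 1 ≤ q) : NDo q (12 * q + 8) = 1 := by
  rw [NDo, if_neg (by omega), if_neg (by omega), if_neg (by omega), if_neg (by omega), if_neg (by omega), if_neg (by omega), if_neg (by omega), if_pos rfl]

theorem NDo_s8 (q : ℕ) (hq : 1 ≤ q) : NDo q (12 * q + 9) = 6 * q + 4 := by
  rw [NDo, if_neg (by omega), if_neg (by omega), if_neg (by omega), if_neg (by omega), if_neg (by omega), if_neg (by omega), if_neg (by omega), if_neg (by omega), if_pos rfl]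

theorem NDo_s9 (q : ℕ) (hq : 1 ≤ q) : NDo q (12 * q + 10) = 12 * q + 10 := by
  rw [NDo, if_neg (by omega), if_neg (by omega), if_neg (by omega), if_neg (by omega), if_neg (by omega), if_neg (by omega), if_neg (by omega), if_neg (by omega), if_neg (by omega)]

theorem NDo_V (q : ℕ) (hq : 1 ≤ q) : ∀ x, x < 12 * q + 10 → ∃ j, j ≤ 12 * q + 10 ∧ NDo q j = x ∧
    zED (2 * q + 1) x = zVD (2 * q + 1) x + (if j = 0 ∨ j = 12 * q + 10 then 1 else 0) := by
  intro x hx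
  have hcase : x = 0 ∨ x = 1 ∨ (2 ≤ x ∧ x ≤ q + 2) ∨ (q + 3 ≤ x ∧ x ≤ 2 * q + 2) ∨ (2 * q + 3 ≤ x ∧ x ≤ 4 * q + 4) ∨ (4 * q + 5 ≤ x ∧ x ≤ 5 * q + 3) ∨ (5 * q + 4 ≤ x ∧ x ≤ 6 * q + 3) ∨ x = 6 * q + 4 ∨ x = 6 * q + 5 ∨ (6 * q + 6 ≤ x ∧ x ≤ 7 * q + 5) ∨ (7 * q + 6 ≤ x ∧ x ≤ 8 * q + 6) ∨ (8 * q + 7 ≤ x ∧ x ≤ 9 * q + 7) ∨ (9 * q + 8 ≤ x ∧ x ≤ 10 * q + 7) ∨ (10 * q + 8 ≤ x ∧ x ≤ 12 * q + 9) := by omega
  rcases hcase with hc | hc | hc | hc | hc | hc | hc | hc | hc | hc | hc | hc | hc | hc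
  · subst hc
    refine ⟨4 * q, by omega, NDo_s3 q hq, ?_⟩
    rw [if_neg (by omega)]
    rw [zED_0 _ _ (by omega), zVD_0 _ _ (by omega)]; try norm_num
  · subst hc
    refine ⟨12 * q + 8, by omega, NDo_s7 q hq, ?_⟩
    rw [if_neg (by omega)]
    rw [zED_1 _ _ (by omega) (by omega), zVD_1 _ _ (by omega) (by omega)]; try norm_num
  · have hN := NDo_s5 q (6 * q + 2 + 2 * (q + 2 - x)) hq (by omega) (by omega)
    rw [if_pos (by omega)] at hN
    refine ⟨6 * q + 2 + 2 * (q + 2 - x), by omega, by rw [hN]; omega, ?_⟩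
    rw [if_neg (by omega)]
    rw [zED_1 _ _ (by omega) (by omega), zVD_1 _ _ (by omega) (by omega)]; try norm_num
  · have hN := NDo_s1 q (1 + 2 * (2 * q + 2 - x)) hq (by omega) (by omega)
    rw [if_pos (by omega)] at hN
    refine ⟨1 + 2 * (2 * q + 2 - x), by omega, by rw [hN]; omega, ?_⟩
    rw [if_neg (by omega)]
    rw [zED_1 _ _ (by omega) (by omega), zVD_1 _ _ (by omega) (by omega)]; try norm_num
  · have hN := NDo_s6 q (8 * q + 4 + 2 * (x - (2 * q + 3))) hq (by omega) (by omega)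
    rw [if_pos (by omega)] at hN
    refine ⟨8 * q + 4 + 2 * (x - (2 * q + 3)), by omega, by rw [hN]; omega, ?_⟩
    rw [if_neg (by omega)]
    rw [zED_1 _ _ (by omega) (by omega), zVD_1 _ _ (by omega) (by omega)]; try norm_num
  · have hN := NDo_s2 q (2 * q + 1 + 2 * (5 * q + 3 - x) + 1) hq (by omega) (by omega)
    rw [if_neg (by omega)] at hN
    refine ⟨2 * q + 1 + 2 * (5 * q + 3 - x) + 1, by omega, by rw [hN]; omega, ?_⟩
    rw [if_neg (by omega)]
    rw [zED_1 _ _ (by omega) (by omega), zVD_1 _ _ (by omega) (by omega)]; try norm_num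
  · have hN := NDo_s1 q (1 + 2 * (6 * q + 3 - x) + 1) hq (by omega) (by omega)
    rw [if_neg (by omega)] at hN
    refine ⟨1 + 2 * (6 * q + 3 - x) + 1, by omega, by rw [hN]; omega, ?_⟩
    rw [if_neg (by omega)]
    rw [zED_1 _ _ (by omega) (by omega), zVD_1 _ _ (by omega) (by omega)]; try norm_num
  · subst hc
    refine ⟨12 * q + 9, by omega, NDo_s8 q hq, ?_⟩
    rw [if_neg (by omega)]
    rw [zED_1 _ _ (by omega) (by omega), zVD_1 _ _ (by omega) (by omega)]; try norm_num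
  · subst hc
    refine ⟨0, by omega, NDo_s0 q hq, ?_⟩
    rw [if_pos (Or.inl rfl)]
    rw [zED_2 _ _ (by omega) (by omega), zVD_1 _ _ (by omega) (by omega)]; try norm_num
  · have hN := NDo_s2 q (2 * q + 1 + 2 * (7 * q + 5 - x)) hq (by omega) (by omega)
    rw [if_pos (by omega)] at hN
    refine ⟨2 * q + 1 + 2 * (7 * q + 5 - x), by omega, by rw [hN]; omega, ?_⟩
    rw [if_neg (by omega)]
    rw [zED_2 _ _ (by omega) (by omega), zVD_2 _ _ (by omega) (by omega)]; try norm_num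
  · have hN := NDo_s4 q (4 * q + 1 + 2 * (8 * q + 6 - x)) hq (by omega) (by omega)
    rw [if_pos (by omega)] at hN
    refine ⟨4 * q + 1 + 2 * (8 * q + 6 - x), by omega, by rw [hN]; omega, ?_⟩
    rw [if_neg (by omega)]
    rw [zED_2 _ _ (by omega) (by omega), zVD_2 _ _ (by omega) (by omega)]; try norm_num
  · have hN := NDo_s5 q (6 * q + 2 + 2 * (9 * q + 7 - x) + 1) hq (by omega) (by omega)
    rw [if_neg (by omega)] at hN
    refine ⟨6 * q + 2 + 2 * (9 * q + 7 - x) + 1, by omega, by rw [hN]; omega, ?_⟩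
    rw [if_neg (by omega)]
    rw [zED_2 _ _ (by omega) (by omega), zVD_2 _ _ (by omega) (by omega)]; try norm_num
  · have hN := NDo_s4 q (4 * q + 1 + 2 * (10 * q + 7 - x) + 1) hq (by omega) (by omega)
    rw [if_neg (by omega)] at hN
    refine ⟨4 * q + 1 + 2 * (10 * q + 7 - x) + 1, by omega, by rw [hN]; omega, ?_⟩
    rw [if_neg (by omega)]
    rw [zED_2 _ _ (by omega) (by omega), zVD_2 _ _ (by omega) (by omega)]; try norm_num
  · have hN := NDo_s6 q (8 * q + 4 + 2 * (x - (10 * q + 8)) + 1) hq (by omega) (by omega)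
    rw [if_neg (by omega)] at hN
    refine ⟨8 * q + 4 + 2 * (x - (10 * q + 8)) + 1, by omega, by rw [hN]; omega, ?_⟩
    rw [if_neg (by omega)]
    rw [zED_3 _ _ (by omega), zVD_3 _ _ (by omega)]; try norm_num

theorem NDo_E (q : ℕ) (hq : 1 ≤ q) : ∀ y, y < 12 * q + 10 → ∃ j, j < 12 * q + 10 ∧
    (NDo q j : ℤ) + NDo q (j + 1) + y = 9 * (2 * q + 1 : ℕ) + 5 ∧
    zVD (2 * q + 1) (NDo q j) + zVD (2 * q + 1) (NDo q (j + 1)) + zED (2 * q + 1) y =
      (if j = 0 ∨ j + 1 = 12 * q + 10 then 4 else 5) ∧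
    zVD (2 * q + 1) (y + 1) = zED (2 * q + 1) y + (if j = 0 ∨ j + 1 = 12 * q + 10 then 1 else 0) := by
  intro y hy
  have hcase : y = 0 ∨ (1 ≤ y ∧ y ≤ 2 * q) ∨ (2 * q + 1 ≤ y ∧ y ≤ 6 * q + 3) ∨ y = 6 * q + 4 ∨ y = 6 * q + 5 ∨ (6 * q + 6 ≤ y ∧ y ≤ 8 * q + 3) ∨ y = 8 * q + 4 ∨ (8 * q + 5 ≤ y ∧ y ≤ 10 * q + 5) ∨ y = 10 * q + 6 ∨ y = 10 * q + 7 ∨ y = 10 * q + 8 ∨ (10 * q + 9 ≤ y ∧ y ≤ 12 * q + 7) ∨ y = 12 * q + 8 ∨ y = 12 * q + 9 := by omega
  rcases hcase with hc | hc | hc | hc | hc | hc | hc | hc | hc | hc | hc | hc | hc | hc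
  · obtain ⟨j, hj⟩ : ∃ j, j = 12 * q + 9 := ⟨_, rfl⟩
    have hN1 : NDo q (j) = 6 * q + 4 := by
      rw [show j = 12 * q + 9 by omega]; exact NDo_s8 q hq
    have hN2 : NDo q (j + 1) = 12 * q + 10 := by
      rw [show j + 1 = 12 * q + 10 by omega]; exact NDo_s9 q hq
    refine ⟨j, by omega, ?_⟩
    rw [if_pos (Or.inr (by omega)), if_pos (Or.inr (by omega))]
    have hz1 : zVD (2 * q + 1) (NDo q j) = 1 := by rw [hN1]; exact zVD_1 _ _ (by omega) (by omega)
    have hz2 : zVD (2 * q + 1) (NDo q (j + 1)) = 3 := by rw [hN2]; exact zVD_3 _ _ (by omega)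
    have hz3 : zED (2 * q + 1) y = 0 := zED_0 _ _ (by omega)
    have hz4 : zVD (2 * q + 1) (y + 1) = 1 := zVD_1 _ _ (by omega) (by omega)
    refine ⟨by rw [hN1, hN2]; omega, by rw [hz1, hz2, hz3]; norm_num, by rw [hz4, hz3]; norm_num⟩
  · obtain ⟨j, hj⟩ : ∃ j, j = 4 * q + 1 + (y - (1)) := ⟨_, rfl⟩
    have hN1 := NDo_s4 q j hq (by omega) (by omega)
    have hN2 := NDo_s4 q (j + 1) hq (by omega) (by omega)
    refine ⟨j, by omega, ?_⟩
    rw [if_neg (by omega), if_neg (by omega)]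
    rcases Nat.mod_two_eq_zero_or_one (j - (4 * q + 1)) with hp | hp
    · rw [if_pos hp] at hN1
      rw [if_neg (by omega)] at hN2
      have hz1 : zVD (2 * q + 1) (NDo q j) = 2 := by rw [hN1]; exact zVD_2 _ _ (by omega) (by omega)
      have hz2 : zVD (2 * q + 1) (NDo q (j + 1)) = 2 := by rw [hN2]; exact zVD_2 _ _ (by omega) (by omega)
      have hz3 : zED (2 * q + 1) y = 1 := zED_1 _ _ (by omega) (by omega)
      have hz4 : zVD (2 * q + 1) (y + 1) = 1 := zVD_1 _ _ (by omega) (by omega)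
      refine ⟨by rw [hN1, hN2]; omega, by rw [hz1, hz2, hz3]; norm_num, by rw [hz4, hz3]; norm_num⟩
    · rw [if_neg (by omega)] at hN1
      rw [if_pos (by omega)] at hN2
      have hz1 : zVD (2 * q + 1) (NDo q j) = 2 := by rw [hN1]; exact zVD_2 _ _ (by omega) (by omega)
      have hz2 : zVD (2 * q + 1) (NDo q (j + 1)) = 2 := by rw [hN2]; exact zVD_2 _ _ (by omega) (by omega)
      have hz3 : zED (2 * q + 1) y = 1 := zED_1 _ _ (by omega) (by omega)
      have hz4 : zVD (2 * q + 1) (y + 1) = 1 := zVD_1 _ _ (by omega) (by omega)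
      refine ⟨by rw [hN1, hN2]; omega, by rw [hz1, hz2, hz3]; norm_num, by rw [hz4, hz3]; norm_num⟩
  · obtain ⟨j, hj⟩ : ∃ j, j = 8 * q + 4 + (6 * q + 3 - y) := ⟨_, rfl⟩
    have hN1 := NDo_s6 q j hq (by omega) (by omega)
    have hN2 := NDo_s6 q (j + 1) hq (by omega) (by omega)
    refine ⟨j, by omega, ?_⟩
    rw [if_neg (by omega), if_neg (by omega)]
    rcases Nat.mod_two_eq_zero_or_one (j - (8 * q + 4)) with hp | hp
    · rw [if_pos hp] at hN1
      rw [if_neg (by omega)] at hN2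
      have hz1 : zVD (2 * q + 1) (NDo q j) = 1 := by rw [hN1]; exact zVD_1 _ _ (by omega) (by omega)
      have hz2 : zVD (2 * q + 1) (NDo q (j + 1)) = 3 := by rw [hN2]; exact zVD_3 _ _ (by omega)
      have hz3 : zED (2 * q + 1) y = 1 := zED_1 _ _ (by omega) (by omega)
      have hz4 : zVD (2 * q + 1) (y + 1) = 1 := zVD_1 _ _ (by omega) (by omega)
      refine ⟨by rw [hN1, hN2]; omega, by rw [hz1, hz2, hz3]; norm_num, by rw [hz4, hz3]; norm_num⟩
    · rw [if_neg (by omega)] at hN1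
      rw [if_pos (by omega)] at hN2
      have hz1 : zVD (2 * q + 1) (NDo q j) = 3 := by rw [hN1]; exact zVD_3 _ _ (by omega)
      have hz2 : zVD (2 * q + 1) (NDo q (j + 1)) = 1 := by rw [hN2]; exact zVD_1 _ _ (by omega) (by omega)
      have hz3 : zED (2 * q + 1) y = 1 := zED_1 _ _ (by omega) (by omega)
      have hz4 : zVD (2 * q + 1) (y + 1) = 1 := zVD_1 _ _ (by omega) (by omega)
      refine ⟨by rw [hN1, hN2]; omega, by rw [hz1, hz2, hz3]; norm_num, by rw [hz4, hz3]; norm_num⟩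
  · obtain ⟨j, hj⟩ : ∃ j, j = 12 * q + 7 := ⟨_, rfl⟩
    have hN1 := NDo_s6 q (j) hq (by omega) (by omega)
    rw [if_neg (by omega)] at hN1
    have hN2 : NDo q (j + 1) = 1 := by
      rw [show j + 1 = 12 * q + 8 by omega]; exact NDo_s7 q hq
    refine ⟨j, by omega, ?_⟩
    rw [if_neg (by omega), if_neg (by omega)]
    have hz1 : zVD (2 * q + 1) (NDo q j) = 3 := by rw [hN1]; exact zVD_3 _ _ (by omega)
    have hz2 : zVD (2 * q + 1) (NDo q (j + 1)) = 1 := by rw [hN2]; exact zVD_1 _ _ (by omega) (by omega)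
    have hz3 : zED (2 * q + 1) y = 1 := zED_1 _ _ (by omega) (by omega)
    have hz4 : zVD (2 * q + 1) (y + 1) = 1 := zVD_1 _ _ (by omega) (by omega)
    refine ⟨by rw [hN1, hN2]; omega, by rw [hz1, hz2, hz3]; norm_num, by rw [hz4, hz3]; norm_num⟩
  · obtain ⟨j, hj⟩ : ∃ j, j = 2 * q := ⟨_, rfl⟩
    have hN1 := NDo_s1 q (j) hq (by omega) (by omega)
    rw [if_neg (by omega)] at hN1
    have hN2 := NDo_s2 q (j + 1) hq (by omega) (by omega)
    rw [if_pos (by omega)] at hN2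
    refine ⟨j, by omega, ?_⟩
    rw [if_neg (by omega), if_neg (by omega)]
    have hz1 : zVD (2 * q + 1) (NDo q j) = 1 := by rw [hN1]; exact zVD_1 _ _ (by omega) (by omega)
    have hz2 : zVD (2 * q + 1) (NDo q (j + 1)) = 2 := by rw [hN2]; exact zVD_2 _ _ (by omega) (by omega)
    have hz3 : zED (2 * q + 1) y = 2 := zED_2 _ _ (by omega) (by omega)
    have hz4 : zVD (2 * q + 1) (y + 1) = 2 := zVD_2 _ _ (by omega) (by omega)
    refine ⟨by rw [hN1, hN2]; omega, by rw [hz1, hz2, hz3]; norm_num, by rw [hz4, hz3]; norm_num⟩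
  · obtain ⟨j, hj⟩ : ∃ j, j = 2 * q + 1 + (y - (6 * q + 6)) := ⟨_, rfl⟩
    have hN1 := NDo_s2 q j hq (by omega) (by omega)
    have hN2 := NDo_s2 q (j + 1) hq (by omega) (by omega)
    refine ⟨j, by omega, ?_⟩
    rw [if_neg (by omega), if_neg (by omega)]
    rcases Nat.mod_two_eq_zero_or_one (j - (2 * q + 1)) with hp | hp
    · rw [if_pos hp] at hN1
      rw [if_neg (by omega)] at hN2
      have hz1 : zVD (2 * q + 1) (NDo q j) = 2 := by rw [hN1]; exact zVD_2 _ _ (by omega) (by omega)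
      have hz2 : zVD (2 * q + 1) (NDo q (j + 1)) = 1 := by rw [hN2]; exact zVD_1 _ _ (by omega) (by omega)
      have hz3 : zED (2 * q + 1) y = 2 := zED_2 _ _ (by omega) (by omega)
      have hz4 : zVD (2 * q + 1) (y + 1) = 2 := zVD_2 _ _ (by omega) (by omega)
      refine ⟨by rw [hN1, hN2]; omega, by rw [hz1, hz2, hz3]; norm_num, by rw [hz4, hz3]; norm_num⟩
    · rw [if_neg (by omega)] at hN1
      rw [if_pos (by omega)] at hN2
      have hz1 : zVD (2 * q + 1) (NDo q j) = 1 := by rw [hN1]; exact zVD_1 _ _ (by omega) (by omega)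
      have hz2 : zVD (2 * q + 1) (NDo q (j + 1)) = 2 := by rw [hN2]; exact zVD_2 _ _ (by omega) (by omega)
      have hz3 : zED (2 * q + 1) y = 2 := zED_2 _ _ (by omega) (by omega)
      have hz4 : zVD (2 * q + 1) (y + 1) = 2 := zVD_2 _ _ (by omega) (by omega)
      refine ⟨by rw [hN1, hN2]; omega, by rw [hz1, hz2, hz3]; norm_num, by rw [hz4, hz3]; norm_num⟩
  · obtain ⟨j, hj⟩ : ∃ j, j = 8 * q + 3 := ⟨_, rfl⟩
    have hN1 := NDo_s5 q (j) hq (by omega) (by omega)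
    rw [if_neg (by omega)] at hN1
    have hN2 := NDo_s6 q (j + 1) hq (by omega) (by omega)
    rw [if_pos (by omega)] at hN2
    refine ⟨j, by omega, ?_⟩
    rw [if_neg (by omega), if_neg (by omega)]
    have hz1 : zVD (2 * q + 1) (NDo q j) = 2 := by rw [hN1]; exact zVD_2 _ _ (by omega) (by omega)
    have hz2 : zVD (2 * q + 1) (NDo q (j + 1)) = 1 := by rw [hN2]; exact zVD_1 _ _ (by omega) (by omega)
    have hz3 : zED (2 * q + 1) y = 2 := zED_2 _ _ (by omega) (by omega)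
    have hz4 : zVD (2 * q + 1) (y + 1) = 2 := zVD_2 _ _ (by omega) (by omega)
    refine ⟨by rw [hN1, hN2]; omega, by rw [hz1, hz2, hz3]; norm_num, by rw [hz4, hz3]; norm_num⟩
  · obtain ⟨j, hj⟩ : ∃ j, j = 6 * q + 2 + (y - (8 * q + 5)) := ⟨_, rfl⟩
    have hN1 := NDo_s5 q j hq (by omega) (by omega)
    have hN2 := NDo_s5 q (j + 1) hq (by omega) (by omega)
    refine ⟨j, by omega, ?_⟩
    rw [if_neg (by omega), if_neg (by omega)]
    rcases Nat.mod_two_eq_zero_or_one (j - (6 * q + 2)) with hp | hp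
    · rw [if_pos hp] at hN1
      rw [if_neg (by omega)] at hN2
      have hz1 : zVD (2 * q + 1) (NDo q j) = 1 := by rw [hN1]; exact zVD_1 _ _ (by omega) (by omega)
      have hz2 : zVD (2 * q + 1) (NDo q (j + 1)) = 2 := by rw [hN2]; exact zVD_2 _ _ (by omega) (by omega)
      have hz3 : zED (2 * q + 1) y = 2 := zED_2 _ _ (by omega) (by omega)
      have hz4 : zVD (2 * q + 1) (y + 1) = 2 := zVD_2 _ _ (by omega) (by omega)
      refine ⟨by rw [hN1, hN2]; omega, by rw [hz1, hz2, hz3]; norm_num, by rw [hz4, hz3]; norm_num⟩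
    · rw [if_neg (by omega)] at hN1
      rw [if_pos (by omega)] at hN2
      have hz1 : zVD (2 * q + 1) (NDo q j) = 2 := by rw [hN1]; exact zVD_2 _ _ (by omega) (by omega)
      have hz2 : zVD (2 * q + 1) (NDo q (j + 1)) = 1 := by rw [hN2]; exact zVD_1 _ _ (by omega) (by omega)
      have hz3 : zED (2 * q + 1) y = 2 := zED_2 _ _ (by omega) (by omega)
      have hz4 : zVD (2 * q + 1) (y + 1) = 2 := zVD_2 _ _ (by omega) (by omega)
      refine ⟨by rw [hN1, hN2]; omega, by rw [hz1, hz2, hz3]; norm_num, by rw [hz4, hz3]; norm_num⟩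
  · obtain ⟨j, hj⟩ : ∃ j, j = 6 * q + 1 := ⟨_, rfl⟩
    have hN1 := NDo_s4 q (j) hq (by omega) (by omega)
    rw [if_pos (by omega)] at hN1
    have hN2 := NDo_s5 q (j + 1) hq (by omega) (by omega)
    rw [if_pos (by omega)] at hN2
    refine ⟨j, by omega, ?_⟩
    rw [if_neg (by omega), if_neg (by omega)]
    have hz1 : zVD (2 * q + 1) (NDo q j) = 2 := by rw [hN1]; exact zVD_2 _ _ (by omega) (by omega)
    have hz2 : zVD (2 * q + 1) (NDo q (j + 1)) = 1 := by rw [hN2]; exact zVD_1 _ _ (by omega) (by omega)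
    have hz3 : zED (2 * q + 1) y = 2 := zED_2 _ _ (by omega) (by omega)
    have hz4 : zVD (2 * q + 1) (y + 1) = 2 := zVD_2 _ _ (by omega) (by omega)
    refine ⟨by rw [hN1, hN2]; omega, by rw [hz1, hz2, hz3]; norm_num, by rw [hz4, hz3]; norm_num⟩
  · obtain ⟨j, hj⟩ : ∃ j, j = 0 := ⟨_, rfl⟩
    have hN1 : NDo q (j) = 6 * q + 5 := by
      rw [show j = 0 by omega]; exact NDo_s0 q hq
    have hN2 := NDo_s1 q (j + 1) hq (by omega) (by omega)
    rw [if_pos (by omega)] at hN2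
    refine ⟨j, by omega, ?_⟩
    rw [if_pos (Or.inl hj), if_pos (Or.inl hj)]
    have hz1 : zVD (2 * q + 1) (NDo q j) = 1 := by rw [hN1]; exact zVD_1 _ _ (by omega) (by omega)
    have hz2 : zVD (2 * q + 1) (NDo q (j + 1)) = 1 := by rw [hN2]; exact zVD_1 _ _ (by omega) (by omega)
    have hz3 : zED (2 * q + 1) y = 2 := zED_2 _ _ (by omega) (by omega)
    have hz4 : zVD (2 * q + 1) (y + 1) = 3 := zVD_3 _ _ (by omega)
    refine ⟨by rw [hN1, hN2]; omega, by rw [hz1, hz2, hz3]; norm_num, by rw [hz4, hz3]; norm_num⟩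
  · obtain ⟨j, hj⟩ : ∃ j, j = 4 * q := ⟨_, rfl⟩
    have hN1 : NDo q (j) = 0 := by
      rw [show j = 4 * q by omega]; exact NDo_s3 q hq
    have hN2 := NDo_s4 q (j + 1) hq (by omega) (by omega)
    rw [if_pos (by omega)] at hN2
    refine ⟨j, by omega, ?_⟩
    rw [if_neg (by omega), if_neg (by omega)]
    have hz1 : zVD (2 * q + 1) (NDo q j) = 0 := by rw [hN1]; exact zVD_0 _ _ (by omega)
    have hz2 : zVD (2 * q + 1) (NDo q (j + 1)) = 2 := by rw [hN2]; exact zVD_2 _ _ (by omega) (by omega)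
    have hz3 : zED (2 * q + 1) y = 3 := zED_3 _ _ (by omega)
    have hz4 : zVD (2 * q + 1) (y + 1) = 3 := zVD_3 _ _ (by omega)
    refine ⟨by rw [hN1, hN2]; omega, by rw [hz1, hz2, hz3]; norm_num, by rw [hz4, hz3]; norm_num⟩
  · obtain ⟨j, hj⟩ : ∃ j, j = 1 + (y - (10 * q + 9)) := ⟨_, rfl⟩
    have hN1 := NDo_s1 q j hq (by omega) (by omega)
    have hN2 := NDo_s1 q (j + 1) hq (by omega) (by omega)
    refine ⟨j, by omega, ?_⟩
    rw [if_neg (by omega), if_neg (by omega)]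
    rcases Nat.mod_two_eq_zero_or_one (j - (1)) with hp | hp
    · rw [if_pos hp] at hN1
      rw [if_neg (by omega)] at hN2
      have hz1 : zVD (2 * q + 1) (NDo q j) = 1 := by rw [hN1]; exact zVD_1 _ _ (by omega) (by omega)
      have hz2 : zVD (2 * q + 1) (NDo q (j + 1)) = 1 := by rw [hN2]; exact zVD_1 _ _ (by omega) (by omega)
      have hz3 : zED (2 * q + 1) y = 3 := zED_3 _ _ (by omega)
      have hz4 : zVD (2 * q + 1) (y + 1) = 3 := zVD_3 _ _ (by omega)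
      refine ⟨by rw [hN1, hN2]; omega, by rw [hz1, hz2, hz3]; norm_num, by rw [hz4, hz3]; norm_num⟩
    · rw [if_neg (by omega)] at hN1
      rw [if_pos (by omega)] at hN2
      have hz1 : zVD (2 * q + 1) (NDo q j) = 1 := by rw [hN1]; exact zVD_1 _ _ (by omega) (by omega)
      have hz2 : zVD (2 * q + 1) (NDo q (j + 1)) = 1 := by rw [hN2]; exact zVD_1 _ _ (by omega) (by omega)
      have hz3 : zED (2 * q + 1) y = 3 := zED_3 _ _ (by omega)
      have hz4 : zVD (2 * q + 1) (y + 1) = 3 := zVD_3 _ _ (by omega)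
      refine ⟨by rw [hN1, hN2]; omega, by rw [hz1, hz2, hz3]; norm_num, by rw [hz4, hz3]; norm_num⟩
  · obtain ⟨j, hj⟩ : ∃ j, j = 4 * q - 1 := ⟨_, rfl⟩
    have hN1 := NDo_s2 q (j) hq (by omega) (by omega)
    rw [if_pos (by omega)] at hN1
    have hN2 : NDo q (j + 1) = 0 := by
      rw [show j + 1 = 4 * q by omega]; exact NDo_s3 q hq
    refine ⟨j, by omega, ?_⟩
    rw [if_neg (by omega), if_neg (by omega)]
    have hz1 : zVD (2 * q + 1) (NDo q j) = 2 := by rw [hN1]; exact zVD_2 _ _ (by omega) (by omega)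
    have hz2 : zVD (2 * q + 1) (NDo q (j + 1)) = 0 := by rw [hN2]; exact zVD_0 _ _ (by omega)
    have hz3 : zED (2 * q + 1) y = 3 := zED_3 _ _ (by omega)
    have hz4 : zVD (2 * q + 1) (y + 1) = 3 := zVD_3 _ _ (by omega)
    refine ⟨by rw [hN1, hN2]; omega, by rw [hz1, hz2, hz3]; norm_num, by rw [hz4, hz3]; norm_num⟩
  · obtain ⟨j, hj⟩ : ∃ j, j = 12 * q + 8 := ⟨_, rfl⟩
    have hN1 : NDo q (j) = 1 := by
      rw [show j = 12 * q + 8 by omega]; exact NDo_s7 q hq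
    have hN2 : NDo q (j + 1) = 6 * q + 4 := by
      rw [show j + 1 = 12 * q + 9 by omega]; exact NDo_s8 q hq
    refine ⟨j, by omega, ?_⟩
    rw [if_neg (by omega), if_neg (by omega)]
    have hz1 : zVD (2 * q + 1) (NDo q j) = 1 := by rw [hN1]; exact zVD_1 _ _ (by omega) (by omega)
    have hz2 : zVD (2 * q + 1) (NDo q (j + 1)) = 1 := by rw [hN2]; exact zVD_1 _ _ (by omega) (by omega)
    have hz3 : zED (2 * q + 1) y = 3 := zED_3 _ _ (by omega)
    have hz4 : zVD (2 * q + 1) (y + 1) = 3 := zVD_3 _ _ (by omega)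
    refine ⟨by rw [hN1, hN2]; omega, by rw [hz1, hz2, hz3]; norm_num, by rw [hz4, hz3]; norm_num⟩

/-- the ranks for 10 columns -/
def N10 (j : ℕ) : ℕ := ([5, 2, 7, 6, 0, 8, 3, 9, 1, 4, 10] : List ℕ).getD j 0

theorem N10_V : ∀ x : Fin 10, ∃ j : Fin 11, N10 j = x ∧
    zED 1 x = zVD 1 x + (if (j : ℕ) = 0 ∨ (j : ℕ) = 10 then 1 else 0) := by decide

theorem N10_E : ∀ y : Fin 10, ∃ j : Fin 10, (N10 j : ℤ) + N10 (j + 1) + (y : ℕ) = 14 ∧
    zVD 1 (N10 j) + zVD 1 (N10 (j + 1)) + zED 1 y =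
      (if (j : ℕ) = 0 ∨ (j : ℕ) + 1 = 10 then 4 else 5) ∧
    zVD 1 (y + 1) = zED 1 y + (if (j : ℕ) = 0 ∨ (j : ℕ) + 1 = 10 then 1 else 0) := by decide

/-- **Family D.** -/
theorem isEMT_famD (h k : ℕ) (hh : 1 ≤ h) (hk : 1 ≤ k) : IsEMT (grid (2 * h) (6 * k + 4)) := by
  rcases Nat.even_or_odd' k with ⟨q, hq | hq⟩
  · rw [show 6 * k + 4 = 12 * q + 4 by omega]
    refine isEMT_of_alt h (12 * q + 4) hh (by omega) (NDe q) (zVD (2 * q)) (zED (2 * q))
      (9 * ((2 * q : ℕ) : ℤ) + 5) (zVD_0 _ _ rfl) (NDe_V q (by omega)) ?_ ?_ (NDe_E q (by omega))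
    · exact NDe_s9 q (by omega)
    · exact zVD_3 _ _ (by omega)
  · by_cases h0 : q = 0
    · subst h0
      rw [hq, show 6 * (2 * 0 + 1) + 4 = 10 by norm_num]
      refine isEMT_of_alt h 10 hh (by omega) N10 (zVD 1) (zED 1) 14 (zVD_0 _ _ rfl) ?_ rfl rfl ?_
      · intro x hx
        obtain ⟨j, hj⟩ := N10_V ⟨x, hx⟩
        exact ⟨j, by omega, hj⟩
      · intro y hy
        obtain ⟨j, hj⟩ := N10_E ⟨y, hy⟩
        exact ⟨j, j.2, hj⟩
    · rw [show 6 * k + 4 = 12 * q + 10 by omega]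
      refine isEMT_of_alt h (12 * q + 10) hh (by omega) (NDo q) (zVD (2 * q + 1))
        (zED (2 * q + 1)) (9 * ((2 * q + 1 : ℕ) : ℤ) + 5) (zVD_0 _ _ rfl)
        (NDo_V q (by omega)) ?_ ?_ (NDo_E q (by omega))
      · exact NDo_s9 q (by omega)
      · exact zVD_3 _ _ (by omega)

end Pool.Agent.Helper29.EMT
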