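import Mathlib
import Pool.Agent.Helper29.EMT.Chain

/-!
# MP_5186fc_co : grids with 6 columns and an even number of rows
-/

set_option autoImplicit false
set_option linter.unusedVariables false
set_option linter.unusedTactic false
set_option linter.unreachableTactic false
set_option linter.unusedSimpArgs false

open SimpleGraph

namespace Pool.Agent.Helper29.EMT

/-- start positions of the vertex blocks (`n = 6`) -/
def aS (h j : ℕ) : ℤ :=
  if j = 0 then 17 * (h : ℤ) - 3
  else if j = 1 then 4 * (h : ℤ) - 1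
  else if j = 2 then 24 * (h : ℤ) - 4
  else if j = 3 then 22 * (h : ℤ) - 4
  else if j = 4 then 11 * (h : ℤ) - 2
  else if j = 5 then 6 * (h : ℤ) - 1
  else 33 * (h : ℤ) - 6

theorem aS_0 (h : ℕ) : aS h 0 = 17 * (h : ℤ) - 3 := by
  rw [aS, if_pos rfl]

theorem aS_1 (h : ℕ) : aS h 1 = 4 * (h : ℤ) - 1 := by
  rw [aS, if_neg (by decide), if_pos rfl]

theorem aS_2 (h : ℕ) : aS h 2 = 24 * (h : ℤ) - 4 := by
  rw [aS, if_neg (by decide), if_neg (by decide), if_pos rfl]

theorem aS_3 (h : ℕ) : aS h 3 = 22 * (h : ℤ) - 4 := by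
  rw [aS, if_neg (by decide), if_neg (by decide), if_neg (by decide), if_pos rfl]

theorem aS_4 (h : ℕ) : aS h 4 = 11 * (h : ℤ) - 2 := by
  rw [aS, if_neg (by decide), if_neg (by decide), if_neg (by decide), if_neg (by decide), if_pos rfl]

theorem aS_5 (h : ℕ) : aS h 5 = 6 * (h : ℤ) - 1 := by
  rw [aS, if_neg (by decide), if_neg (by decide), if_neg (by decide), if_neg (by decide), if_neg (by decide), if_pos rfl]

theorem aS_6 (h : ℕ) : aS h 6 = 33 * (h : ℤ) - 6 := by
  rw [aS, if_neg (by decide), if_neg (by decide), if_neg (by decide), if_neg (by decide), if_neg (by decide), if_neg (by decide)]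

/-- **Grids with an even number of rows and 6 columns** -/
theorem isEMT_famS (h : ℕ) (hh : 1 ≤ h) : IsEMT (grid (2 * h) 6) := by
  obtain ⟨K, hK⟩ : ∃ K : ℤ, K = 50 * (h : ℤ) - 10 := ⟨_, rfl⟩
  refine isEMT_of_chain (2 * h) 6 (by omega) (by omega) (aS h) K ?_
  set S := chainSet (2 * h) 6 (aS h) K with hS
  have c0 : Cov S (0) (4 * (h : ℤ) - 1) := by
    have h0 := cov_E (2 * h) 6 (aS h) K 2 (by omega) (by omega)
    rw [show 2 + 1 = 3 by norm_num] at h0
    rw [aS_2, aS_3] at h0
    exact h0.congr (by omega) (by omega)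
  have c1 : Cov S (4 * (h : ℤ) - 1) (6 * (h : ℤ) - 1) := by
    have h0 := cov_N (2 * h) 6 (aS h) K 1 (by omega) (by omega)
    rw [aS_1] at h0
    exact h0.congr (by omega) (by omega)
  have c2 : Cov S (6 * (h : ℤ) - 1) (8 * (h : ℤ) - 1) := by
    have h0 := cov_N (2 * h) 6 (aS h) K 5 (by omega) (by omega)
    rw [aS_5] at h0
    exact h0.congr (by omega) (by omega)
  have c3 : Cov S (8 * (h : ℤ) - 1) (11 * (h : ℤ) - 2) := by
    have h0 := cov_En (2 * h) 6 (aS h) K
    rw [show 6 - 1 = 5 by norm_num] at h0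
    rw [aS_5, aS_6] at h0
    exact h0.congr (by omega) (by omega)
  have c4 : Cov S (11 * (h : ℤ) - 2) (13 * (h : ℤ) - 2) := by
    have h0 := cov_N (2 * h) 6 (aS h) K 4 (by omega) (by omega)
    rw [aS_4] at h0
    exact h0.congr (by omega) (by omega)
  have c5 : Cov S (13 * (h : ℤ) - 2) (17 * (h : ℤ) - 3) := by
    have h0 := cov_E (2 * h) 6 (aS h) K 3 (by omega) (by omega)
    rw [show 3 + 1 = 4 by norm_num] at h0
    rw [aS_3, aS_4] at h0
    exact h0.congr (by omega) (by omega)
  have c6 : Cov S (17 * (h : ℤ) - 3) (18 * (h : ℤ) - 3) := by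
    have h0 := cov_N0 (2 * h) 6 (aS h) K
    rw [aS_0] at h0
    exact h0.congr (by omega) (by omega)
  have c7 : Cov S (18 * (h : ℤ) - 3) (22 * (h : ℤ) - 4) := by
    have h0 := cov_E (2 * h) 6 (aS h) K 1 (by omega) (by omega)
    rw [show 1 + 1 = 2 by norm_num] at h0
    rw [aS_1, aS_2] at h0
    exact h0.congr (by omega) (by omega)
  have c8 : Cov S (22 * (h : ℤ) - 4) (24 * (h : ℤ) - 4) := by
    have h0 := cov_N (2 * h) 6 (aS h) K 3 (by omega) (by omega)
    rw [aS_3] at h0
    exact h0.congr (by omega) (by omega)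
  have c9 : Cov S (24 * (h : ℤ) - 4) (26 * (h : ℤ) - 4) := by
    have h0 := cov_N (2 * h) 6 (aS h) K 2 (by omega) (by omega)
    rw [aS_2] at h0
    exact h0.congr (by omega) (by omega)
  have c10 : Cov S (26 * (h : ℤ) - 4) (29 * (h : ℤ) - 5) := by
    have h0 := cov_E0 (2 * h) 6 (aS h) K
    rw [aS_0, aS_1] at h0
    exact h0.congr (by omega) (by omega)
  have c11 : Cov S (29 * (h : ℤ) - 5) (33 * (h : ℤ) - 6) := by
    have h0 := cov_E (2 * h) 6 (aS h) K 4 (by omega) (by omega)
    rw [show 4 + 1 = 5 by norm_num] at h0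
    rw [aS_4, aS_5] at h0
    exact h0.congr (by omega) (by omega)
  have c12 : Cov S (33 * (h : ℤ) - 6) (34 * (h : ℤ) - 6) := by
    have h0 := cov_Nn (2 * h) 6 (aS h) K
    rw [aS_6] at h0
    exact h0.congr (by omega) (by omega)
  exact ((((((((((((c0.trans c1).trans c2).trans c3).trans c4).trans c5).trans c6).trans c7).trans c8).trans c9).trans c10).trans c11).trans c12).congr (by norm_num) (by push_cast; ring)

end Pool.Agent.Helper29.EMT
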