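import Mathlib
import Pool.Agent.Helper29.EMT.Chain
import Pool.Agent.Helper29.EMT.Chain2

/-!
# MP_5186fc_co : word family T0 (generated; words of helper46)
-/

set_option autoImplicit false
set_option linter.unusedVariables false
set_option linter.unusedTactic false
set_option linter.unreachableTactic false
set_option linter.unusedSimpArgs false

open SimpleGraph

namespace Pool.Agent.Helper29.EMT

/-- start positions of the vertex blocks of family T0 (`n = 6 * k`) -/
def aT0 (h k j : ℕ) : ℤ :=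
  if j = 0 then (4 * k) * (12 * h - 1) + h - 1
  else if j = 1 then (5 * k - 1) * (12 * h - 1) + 2 * h - 1
  else if j = 6 * k then (k) * (12 * h - 1) + 3 * h - 1
  else if j = 6 * k + 1 then (2 * k - 1) * (12 * h - 1) + 6 * h - 1
  else if j % 6 = 0 then (5 * k - ((j / 6 : ℕ) : ℤ) - 1) * (12 * h - 1) + 10 * h - 2
  else if j % 6 = 1 then (2 * k - ((j / 6 : ℕ) : ℤ) - 1) * (12 * h - 1) + 6 * h - 1
  else if j % 6 = 2 then (2 * k + 2 * ((j / 6 : ℕ) : ℤ)) * (12 * h - 1) + 2 * h - 1
  else if j % 6 = 3 then (6 * k - ((j / 6 : ℕ) : ℤ) - 1) * (12 * h - 1) + h - 1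
  else if j % 6 = 4 then (k - ((j / 6 : ℕ) : ℤ) - 1) * (12 * h - 1) + 3 * h - 1
  else (2 * k + 2 * ((j / 6 : ℕ) : ℤ) + 1) * (12 * h - 1) + 2 * h - 1

section
variable (h k s : ℕ)

theorem aT0_s0 : aT0 h k (0) = (4 * k) * (12 * h - 1) + h - 1 := by
  rw [aT0, if_pos rfl]

theorem aT0_s1 (hk : 1 ≤ k) : aT0 h k (1) = (5 * k - 1) * (12 * h - 1) + 2 * h - 1 := by
  rw [aT0, if_neg (by omega), if_pos rfl]

theorem aT0_s2 (hk : 1 ≤ k) : aT0 h k (6 * k) = (k) * (12 * h - 1) + 3 * h - 1 := by
  rw [aT0, if_neg (by omega), if_neg (by omega), if_pos rfl]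

theorem aT0_s3 (hk : 1 ≤ k) : aT0 h k (6 * k + 1) = (2 * k - 1) * (12 * h - 1) + 6 * h - 1 := by
  rw [aT0, if_neg (by omega), if_neg (by omega), if_neg (by omega), if_pos rfl]

theorem aT0_0 (h1 : 1 ≤ s) (h2 : s ≠ k) : aT0 h k (6 * s) = (5 * k - (s : ℤ) - 1) * (12 * h - 1) + 10 * h - 2 := by
  rw [aT0, if_neg (by omega), if_neg (by omega), if_neg (by omega), if_neg (by omega), if_pos (by omega), show (6 * s) / 6 = s by omega]

theorem aT0_1 (h1 : 1 ≤ s) (h2 : s ≠ k) : aT0 h k (6 * s + 1) = (2 * k - (s : ℤ) - 1) * (12 * h - 1) + 6 * h - 1 := by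
  rw [aT0, if_neg (by omega), if_neg (by omega), if_neg (by omega), if_neg (by omega), if_neg (by omega), if_pos (by omega), show (6 * s + 1) / 6 = s by omega]

theorem aT0_2 : aT0 h k (6 * s + 2) = (2 * k + 2 * (s : ℤ)) * (12 * h - 1) + 2 * h - 1 := by
  rw [aT0, if_neg (by omega), if_neg (by omega), if_neg (by omega), if_neg (by omega), if_neg (by omega), if_neg (by omega), if_pos (by omega), show (6 * s + 2) / 6 = s by omega]

theorem aT0_3 : aT0 h k (6 * s + 3) = (6 * k - (s : ℤ) - 1) * (12 * h - 1) + h - 1 := by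
  rw [aT0, if_neg (by omega), if_neg (by omega), if_neg (by omega), if_neg (by omega), if_neg (by omega), if_neg (by omega), if_neg (by omega), if_pos (by omega), show (6 * s + 3) / 6 = s by omega]

theorem aT0_4 : aT0 h k (6 * s + 4) = (k - (s : ℤ) - 1) * (12 * h - 1) + 3 * h - 1 := by
  rw [aT0, if_neg (by omega), if_neg (by omega), if_neg (by omega), if_neg (by omega), if_neg (by omega), if_neg (by omega), if_neg (by omega), if_neg (by omega), if_pos (by omega), show (6 * s + 4) / 6 = s by omega]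

theorem aT0_5 : aT0 h k (6 * s + 5) = (2 * k + 2 * (s : ℤ) + 1) * (12 * h - 1) + 2 * h - 1 := by
  rw [aT0, if_neg (by omega), if_neg (by omega), if_neg (by omega), if_neg (by omega), if_neg (by omega), if_neg (by omega), if_neg (by omega), if_neg (by omega), if_neg (by omega), show (6 * s + 5) / 6 = s by omega]

end

/-- **Family T0.** -/
theorem isEMT_famT0 (h k : ℕ) (hh : 1 ≤ h) (hk : 1 ≤ k) : IsEMT (grid (2 * h + 2 * h) (6 * k)) := by
  obtain ⟨K, hK⟩ : ∃ K : ℤ, K = (9 * k - 1) * (12 * h - 1) + 6 * h - 4 := ⟨_, rfl⟩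
  refine isEMT_of_chain2 (2 * h) (2 * h) (6 * k) (by omega) (by omega) (by omega) (aT0 h k) K ?_
  set S := chain2Set (2 * h) (2 * h) (6 * k) (aT0 h k) K with hS
  have e1 : (2 * h + 1) / 2 = h := by omega
  have e2 : 2 * h / 2 = h := by omega
  have e3 : 2 * h % 2 = 0 := by omega
  obtain ⟨l, hl⟩ : ∃ l, k = l + 1 := ⟨k - 1, by omega⟩
  have hlz : (k : ℤ) = (l : ℤ) + 1 := by rw [hl]; push_cast; ring
  -- E_{0}
  have c0_0 : Cov S (0) (3 * h - 1) := by
    have h0 := cov2_E0 (2 * h) (2 * h) (6 * k) (aT0 h k) K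
    have g0 : aT0 h k (0) = _ := aT0_s0 _ _
    have g1 : aT0 h k (1) = _ := aT0_s1 _ _ (by omega)
    have q0 : aT0 h k (0) = aT0 h k (0) := rfl
    have q1 : aT0 h k (1) = aT0 h k (1) := rfl
    rw [q0, q1, g0, g1] at h0
    refine h0.congr ?_ ?_ <;>
    · try simp only [e1, e2, e3]
      try push_cast
      try simp only [hK, hlz]
      try push_cast
      try ring
  -- run V_{6 * k - 6 * i - 2} E_{6 * k - 6 * i - 4}, k times
  have c1 : Cov S (3 * h - 1) (((k : ℤ)) * (12 * h - 1) + 3 * h - 1) := by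
    have h := Cov.iter (S := S) (fun i : ℕ => ((i : ℤ)) * (12 * h - 1) + 3 * h - 1) (k) ?_
    · refine h.congr ?_ ?_ <;>
      · try push_cast
        try simp only [hlz]
        try push_cast
        try ring
    · intro i hi
      obtain ⟨s, hs⟩ : ∃ s, k = s + 1 + i := ⟨k - 1 - i, by omega⟩
      have hsz : (k : ℤ) = (s : ℤ) + 1 + (i : ℤ) := by rw [hs]; push_cast; ring
      have h1 : Cov S (((i : ℤ)) * (12 * h - 1) + 3 * h - 1) (((i : ℤ)) * (12 * h - 1) + 7 * h - 1) := by
        have h0 := cov2_N (2 * h) (2 * h) (6 * k) (aT0 h k) K (6 * s + 4) (by omega) (by omega)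
        rw [aT0_4 _ _ _] at h0
        refine h0.congr ?_ ?_ <;>
        · try simp only [e1, e2, e3]
          try push_cast
          try simp only [hK, hsz]
          try push_cast
          try ring
      have h2 : Cov S (((i : ℤ)) * (12 * h - 1) + 7 * h - 1) (((i : ℤ) + 1) * (12 * h - 1) + 3 * h - 1) := by
        have h0 := cov2_E (2 * h) (2 * h) (6 * k) (aT0 h k) K (6 * s + 2) (by omega) (by omega)
        have f1 : (6 * s + 2 + 1 : ℕ) = 6 * s + 3 := by ring
        rw [f1, aT0_2 _ _ _, aT0_3 _ _ _] at h0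
        refine h0.congr ?_ ?_ <;>
        · try simp only [e1, e2, e3]
          try push_cast
          try simp only [hK, hsz]
          try push_cast
          try ring
      refine ((h1).trans h2).congr ?_ ?_ <;>
      · try push_cast
        try ring
  -- V_{6 * k}
  have c2_0 : Cov S (((k : ℤ)) * (12 * h - 1) + 3 * h - 1) (((k : ℤ)) * (12 * h - 1) + 6 * h - 1) := by
    have h0 := cov2_Nn (2 * h) (2 * h) (6 * k) (aT0 h k) K
    rw [aT0_s2 _ _ (by omega)] at h0
    refine h0.congr ?_ ?_ <;>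
    · try simp only [e1, e2, e3]
      try push_cast
      try simp only [hK, hlz]
      try push_cast
      try ring
  -- run V_{6 * k - 6 * i - 5} E_{6 * k - 6 * i - 7}, k - 1 times
  have c3 : Cov S (((k : ℤ)) * (12 * h - 1) + 6 * h - 1) ((2 * (k : ℤ) - 1) * (12 * h - 1) + 6 * h - 1) := by
    have h := Cov.iter (S := S) (fun i : ℕ => ((k : ℤ) + (i : ℤ)) * (12 * h - 1) + 6 * h - 1) (l) ?_
    · refine h.congr ?_ ?_ <;>
      · try push_cast
        try simp only [hlz]
        try push_cast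
        try ring
    · intro i hi
      obtain ⟨s, hs⟩ : ∃ s, k = s + 2 + i := ⟨k - 2 - i, by omega⟩
      have hsz : (k : ℤ) = (s : ℤ) + 2 + (i : ℤ) := by rw [hs]; push_cast; ring
      have h1 : Cov S (((k : ℤ) + (i : ℤ)) * (12 * h - 1) + 6 * h - 1) (((k : ℤ) + (i : ℤ)) * (12 * h - 1) + 10 * h - 1) := by
        have h0 := cov2_N (2 * h) (2 * h) (6 * k) (aT0 h k) K (6 * (s + 1) + 1) (by omega) (by omega)
        rw [aT0_1 _ _ _ (by omega) (by omega)] at h0
        refine h0.congr ?_ ?_ <;>
        · try simp only [e1, e2, e3]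
          try push_cast
          try simp only [hK, hsz]
          try push_cast
          try ring
      have h2 : Cov S (((k : ℤ) + (i : ℤ)) * (12 * h - 1) + 10 * h - 1) (((k : ℤ) + (i : ℤ) + 1) * (12 * h - 1) + 6 * h - 1) := by
        have h0 := cov2_E (2 * h) (2 * h) (6 * k) (aT0 h k) K (6 * s + 5) (by omega) (by omega)
        have f1 : (6 * s + 5 + 1 : ℕ) = 6 * (s + 1) := by ring
        rw [f1, aT0_5 _ _ _, aT0_0 _ _ _ (by omega) (by omega)] at h0
        refine h0.congr ?_ ?_ <;>
        · try simp only [e1, e2, e3]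
          try push_cast
          try simp only [hK, hsz]
          try push_cast
          try ring
      refine ((h1).trans h2).congr ?_ ?_ <;>
      · try push_cast
        try ring
  -- V_{6 * k + 1}
  have c4_0 : Cov S ((2 * (k : ℤ) - 1) * (12 * h - 1) + 6 * h - 1) ((2 * (k : ℤ) - 1) * (12 * h - 1) + 7 * h - 1) := by
    have h0 := cov2_Nn1 (2 * h) (2 * h) (6 * k) (aT0 h k) K
    rw [aT0_s3 _ _ (by omega)] at h0
    refine h0.congr ?_ ?_ <;>
    · try simp only [e1, e2, e3]
      try push_cast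
      try simp only [hK, hlz]
      try push_cast
      try ring
  -- E_{1}
  have c4_1 : Cov S ((2 * (k : ℤ) - 1) * (12 * h - 1) + 7 * h - 1) ((2 * (k : ℤ)) * (12 * h - 1) + 2 * h - 1) := by
    have h0 := cov2_E1 (2 * h) (2 * h) (6 * k) (aT0 h k) K
    have g0 : aT0 h k (1) = _ := aT0_s1 _ _ (by omega)
    have g1 : aT0 h k (6 * 0 + 2) = _ := aT0_2 _ _ _
    have f1 : (2 : ℕ) = 6 * 0 + 2 := by omega
    have q0 : aT0 h k (1) = aT0 h k (1) := rfl
    have q1 : aT0 h k (2) = aT0 h k (6 * 0 + 2) := by rw [f1]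
    rw [q0, q1, g0, g1] at h0
    refine h0.congr ?_ ?_ <;>
    · try simp only [e1, e2, e3]
      try push_cast
      try simp only [hK, hlz]
      try push_cast
      try ring
  -- V_{2}
  have c4_2 : Cov S ((2 * (k : ℤ)) * (12 * h - 1) + 2 * h - 1) ((2 * (k : ℤ)) * (12 * h - 1) + 6 * h - 1) := by
    have h0 := cov2_N (2 * h) (2 * h) (6 * k) (aT0 h k) K (6 * 0 + 2) (by omega) (by omega)
    rw [aT0_2 _ _ _] at h0
    refine h0.congr ?_ ?_ <;>
    · try simp only [e1, e2, e3]
      try push_cast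
      try simp only [hK, hlz]
      try push_cast
      try ring
  -- run E_{3 * i + 3} V_{3 * i + 5}, 2 * k - 1 times
  have c5 : Cov S ((2 * (k : ℤ)) * (12 * h - 1) + 6 * h - 1) ((4 * (k : ℤ) - 1) * (12 * h - 1) + 6 * h - 1) := by
    have h := Cov.iter (S := S) (fun i : ℕ => (2 * (k : ℤ) + (i : ℤ)) * (12 * h - 1) + 6 * h - 1) (2 * l + 1) ?_
    · refine h.congr ?_ ?_ <;>
      · try push_cast
        try simp only [hlz]
        try push_cast
        try ring
    · intro i hi
      obtain ⟨t, ht⟩ := Nat.even_or_odd' i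
      rcases ht with ht | ht
      · skip
        have hiz : (i : ℤ) = 2 * (t : ℤ) + 0 := by rw [ht]; push_cast; ring
        have h1 : Cov S ((2 * (k : ℤ) + (i : ℤ)) * (12 * h - 1) + 6 * h - 1) ((2 * (k : ℤ) + (i : ℤ) + 1) * (12 * h - 1) + 2 * h - 1) := by
          have h0 := cov2_E (2 * h) (2 * h) (6 * k) (aT0 h k) K (6 * t + 3) (by omega) (by omega)
          have f1 : (6 * t + 3 + 1 : ℕ) = 6 * t + 4 := by ring
          rw [f1, aT0_3 _ _ _, aT0_4 _ _ _] at h0
          refine h0.congr ?_ ?_ <;>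
          · try simp only [e1, e2, e3]
            try push_cast
            try simp only [hK, hiz]
            try push_cast
            try ring
        have h2 : Cov S ((2 * (k : ℤ) + (i : ℤ) + 1) * (12 * h - 1) + 2 * h - 1) ((2 * (k : ℤ) + (i : ℤ) + 1) * (12 * h - 1) + 6 * h - 1) := by
          have h0 := cov2_N (2 * h) (2 * h) (6 * k) (aT0 h k) K (6 * t + 5) (by omega) (by omega)
          rw [aT0_5 _ _ _] at h0
          refine h0.congr ?_ ?_ <;>
          · try simp only [e1, e2, e3]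
            try push_cast
            try simp only [hK, hiz]
            try push_cast
            try ring
        refine ((h1).trans h2).congr ?_ ?_ <;>
        · try push_cast
          try ring
      · skip
        have hiz : (i : ℤ) = 2 * (t : ℤ) + 1 := by rw [ht]; push_cast; ring
        have h1 : Cov S ((2 * (k : ℤ) + (i : ℤ)) * (12 * h - 1) + 6 * h - 1) ((2 * (k : ℤ) + (i : ℤ) + 1) * (12 * h - 1) + 2 * h - 1) := by
          have h0 := cov2_E (2 * h) (2 * h) (6 * k) (aT0 h k) K (6 * (t + 1)) (by omega) (by omega)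
          have f1 : (6 * (t + 1) + 1 : ℕ) = 6 * (t + 1) + 1 := by ring
          rw [f1, aT0_0 _ _ _ (by omega) (by omega), aT0_1 _ _ _ (by omega) (by omega)] at h0
          refine h0.congr ?_ ?_ <;>
          · try simp only [e1, e2, e3]
            try push_cast
            try simp only [hK, hiz]
            try push_cast
            try ring
        have h2 : Cov S ((2 * (k : ℤ) + (i : ℤ) + 1) * (12 * h - 1) + 2 * h - 1) ((2 * (k : ℤ) + (i : ℤ) + 1) * (12 * h - 1) + 6 * h - 1) := by
          have h0 := cov2_N (2 * h) (2 * h) (6 * k) (aT0 h k) K (6 * (t + 1) + 2) (by omega) (by omega)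
          rw [aT0_2 _ _ _] at h0
          refine h0.congr ?_ ?_ <;>
          · try simp only [e1, e2, e3]
            try push_cast
            try simp only [hK, hiz]
            try push_cast
            try ring
        refine ((h1).trans h2).congr ?_ ?_ <;>
        · try push_cast
          try ring
  -- E_{6 * k - 1}
  have c6_0 : Cov S ((4 * (k : ℤ) - 1) * (12 * h - 1) + 6 * h - 1) ((4 * (k : ℤ)) * (12 * h - 1) + h - 1) := by
    have h0 := cov2_En (2 * h) (2 * h) (6 * k) (aT0 h k) K
    have g0 : aT0 h k (6 * l + 5) = _ := aT0_5 _ _ _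
    have g1 : aT0 h k (6 * k) = _ := aT0_s2 _ _ (by omega)
    have f0 : (6 * k - 1 : ℕ) = 6 * l + 5 := by omega
    have q0 : aT0 h k (6 * k - 1) = aT0 h k (6 * l + 5) := by rw [f0]
    have q1 : aT0 h k (6 * k) = aT0 h k (6 * k) := rfl
    rw [q0, q1, g0, g1] at h0
    refine h0.congr ?_ ?_ <;>
    · try simp only [e1, e2, e3]
      try push_cast
      try simp only [hK, hlz]
      try push_cast
      try ring
  -- V_{0}
  have c6_1 : Cov S ((4 * (k : ℤ)) * (12 * h - 1) + h - 1) ((4 * (k : ℤ)) * (12 * h - 1) + 2 * h - 1) := by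
    have h0 := cov2_N0 (2 * h) (2 * h) (6 * k) (aT0 h k) K
    rw [aT0_s0 _ _] at h0
    refine h0.congr ?_ ?_ <;>
    · try simp only [e1, e2, e3]
      try push_cast
      try simp only [hK, hlz]
      try push_cast
      try ring
  -- run E_{6 * k - 6 * i - 5} V_{6 * k - 6 * i - 6}, k - 1 times
  have c7 : Cov S ((4 * (k : ℤ)) * (12 * h - 1) + 2 * h - 1) ((5 * (k : ℤ) - 1) * (12 * h - 1) + 2 * h - 1) := by
    have h := Cov.iter (S := S) (fun i : ℕ => (4 * (k : ℤ) + (i : ℤ)) * (12 * h - 1) + 2 * h - 1) (l) ?_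
    · refine h.congr ?_ ?_ <;>
      · try push_cast
        try simp only [hlz]
        try push_cast
        try ring
    · intro i hi
      obtain ⟨s, hs⟩ : ∃ s, k = s + 2 + i := ⟨k - 2 - i, by omega⟩
      have hsz : (k : ℤ) = (s : ℤ) + 2 + (i : ℤ) := by rw [hs]; push_cast; ring
      have h1 : Cov S ((4 * (k : ℤ) + (i : ℤ)) * (12 * h - 1) + 2 * h - 1) ((4 * (k : ℤ) + (i : ℤ)) * (12 * h - 1) + 10 * h - 2) := by
        have h0 := cov2_E (2 * h) (2 * h) (6 * k) (aT0 h k) K (6 * (s + 1) + 1) (by omega) (by omega)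
        have f1 : (6 * (s + 1) + 1 + 1 : ℕ) = 6 * (s + 1) + 2 := by ring
        rw [f1, aT0_1 _ _ _ (by omega) (by omega), aT0_2 _ _ _] at h0
        refine h0.congr ?_ ?_ <;>
        · try simp only [e1, e2, e3]
          try push_cast
          try simp only [hK, hsz]
          try push_cast
          try ring
      have h2 : Cov S ((4 * (k : ℤ) + (i : ℤ)) * (12 * h - 1) + 10 * h - 2) ((4 * (k : ℤ) + (i : ℤ) + 1) * (12 * h - 1) + 2 * h - 1) := by
        have h0 := cov2_N (2 * h) (2 * h) (6 * k) (aT0 h k) K (6 * (s + 1)) (by omega) (by omega)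
        rw [aT0_0 _ _ _ (by omega) (by omega)] at h0
        refine h0.congr ?_ ?_ <;>
        · try simp only [e1, e2, e3]
          try push_cast
          try simp only [hK, hsz]
          try push_cast
          try ring
      refine ((h1).trans h2).congr ?_ ?_ <;>
      · try push_cast
        try ring
  -- V_{1}
  have c8_0 : Cov S ((5 * (k : ℤ) - 1) * (12 * h - 1) + 2 * h - 1) ((5 * (k : ℤ) - 1) * (12 * h - 1) + 5 * h - 1) := by
    have h0 := cov2_N1 (2 * h) (2 * h) (6 * k) (aT0 h k) K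
    rw [aT0_s1 _ _ (by omega)] at h0
    refine h0.congr ?_ ?_ <;>
    · try simp only [e1, e2, e3]
      try push_cast
      try simp only [hK, hlz]
      try push_cast
      try ring
  -- run E_{6 * k - 6 * i - 2} V_{6 * k - 6 * i - 3}, k times
  have c9 : Cov S ((5 * (k : ℤ) - 1) * (12 * h - 1) + 5 * h - 1) ((6 * (k : ℤ) - 1) * (12 * h - 1) + 5 * h - 1) := by
    have h := Cov.iter (S := S) (fun i : ℕ => (5 * (k : ℤ) + (i : ℤ) - 1) * (12 * h - 1) + 5 * h - 1) (k) ?_
    · refine h.congr ?_ ?_ <;>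
      · try push_cast
        try simp only [hlz]
        try push_cast
        try ring
    · intro i hi
      obtain ⟨s, hs⟩ : ∃ s, k = s + 1 + i := ⟨k - 1 - i, by omega⟩
      have hsz : (k : ℤ) = (s : ℤ) + 1 + (i : ℤ) := by rw [hs]; push_cast; ring
      have h1 : Cov S ((5 * (k : ℤ) + (i : ℤ) - 1) * (12 * h - 1) + 5 * h - 1) ((5 * (k : ℤ) + (i : ℤ)) * (12 * h - 1) + h - 1) := by
        have h0 := cov2_E (2 * h) (2 * h) (6 * k) (aT0 h k) K (6 * s + 4) (by omega) (by omega)
        have f1 : (6 * s + 4 + 1 : ℕ) = 6 * s + 5 := by ring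
        rw [f1, aT0_4 _ _ _, aT0_5 _ _ _] at h0
        refine h0.congr ?_ ?_ <;>
        · try simp only [e1, e2, e3]
          try push_cast
          try simp only [hK, hsz]
          try push_cast
          try ring
      have h2 : Cov S ((5 * (k : ℤ) + (i : ℤ)) * (12 * h - 1) + h - 1) ((5 * (k : ℤ) + (i : ℤ)) * (12 * h - 1) + 5 * h - 1) := by
        have h0 := cov2_N (2 * h) (2 * h) (6 * k) (aT0 h k) K (6 * s + 3) (by omega) (by omega)
        rw [aT0_3 _ _ _] at h0
        refine h0.congr ?_ ?_ <;>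
        · try simp only [e1, e2, e3]
          try push_cast
          try simp only [hK, hsz]
          try push_cast
          try ring
      refine ((h1).trans h2).congr ?_ ?_ <;>
      · try push_cast
        try ring
  -- E_{6 * k}
  have c10_0 : Cov S ((6 * (k : ℤ) - 1) * (12 * h - 1) + 5 * h - 1) ((6 * (k : ℤ) - 1) * (12 * h - 1) + 8 * h - 1) := by
    have h0 := cov2_En1 (2 * h) (2 * h) (6 * k) (aT0 h k) K
    have g0 : aT0 h k (6 * k) = _ := aT0_s2 _ _ (by omega)
    have g1 : aT0 h k (6 * k + 1) = _ := aT0_s3 _ _ (by omega)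
    have q0 : aT0 h k (6 * k) = aT0 h k (6 * k) := rfl
    have q1 : aT0 h k (6 * k + 1) = aT0 h k (6 * k + 1) := rfl
    rw [q0, q1, g0, g1] at h0
    refine h0.congr ?_ ?_ <;>
    · try simp only [e1, e2, e3]
      try push_cast
      try simp only [hK, hlz]
      try push_cast
      try ring
  refine (((((((((((((c0_0.trans c1).trans c2_0).trans c3).trans c4_0).trans c4_1).trans c4_2).trans c5).trans c6_0).trans c6_1).trans c7).trans c8_0).trans c9).trans c10_0).congr ?_ ?_ <;>
  · try push_cast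
    try ring

end Pool.Agent.Helper29.EMT
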