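import Mathlib
import Pool.Agent.Helper29.EMT.Chain

/-!
# MP_5186fc_co : grids with 2 columns and an even number of rows
-/

set_option autoImplicit false
set_option linter.unusedVariables false
set_option linter.unusedTactic false
set_option linter.unreachableTactic false
set_option linter.unusedSimpArgs false

open SimpleGraph

namespace Pool.Agent.Helper29.EMT

/-- start positions of the vertex blocks (`n = 2`) -/
def aTwo (h j : ℕ) : ℤ :=
  if j = 0 then 2 * (h : ℤ)
  else if j = 1 then 0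
  else 6 * (h : ℤ) - 1

theorem aTwo_0 (h : ℕ) : aTwo h 0 = 2 * (h : ℤ) := by
  rw [aTwo, if_pos rfl]

theorem aTwo_1 (h : ℕ) : aTwo h 1 = 0 := by
  rw [aTwo, if_neg (by decide), if_pos rfl]

theorem aTwo_2 (h : ℕ) : aTwo h 2 = 6 * (h : ℤ) - 1 := by
  rw [aTwo, if_neg (by decide), if_neg (by decide)]

/-- **Grids with an even number of rows and 2 columns** -/
theorem isEMT_famTwo (h : ℕ) (hh : 1 ≤ h) : IsEMT (grid (2 * h) 2) := by
  obtain ⟨K, hK⟩ : ∃ K : ℤ, K = 12 * (h : ℤ) - 3 := ⟨_, rfl⟩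
  refine isEMT_of_chain (2 * h) 2 (by omega) (by omega) (aTwo h) K ?_
  set S := chainSet (2 * h) 2 (aTwo h) K with hS
  have c0 : Cov S (0) (2 * (h : ℤ)) := by
    have h0 := cov_N (2 * h) 2 (aTwo h) K 1 (by omega) (by omega)
    rw [aTwo_1] at h0
    exact h0.congr (by omega) (by omega)
  have c1 : Cov S (2 * (h : ℤ)) (3 * (h : ℤ)) := by
    have h0 := cov_N0 (2 * h) 2 (aTwo h) K
    rw [aTwo_0] at h0
    exact h0.congr (by omega) (by omega)
  have c2 : Cov S (3 * (h : ℤ)) (6 * (h : ℤ) - 1) := by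
    have h0 := cov_En (2 * h) 2 (aTwo h) K
    rw [show 2 - 1 = 1 by norm_num] at h0
    rw [aTwo_1, aTwo_2] at h0
    exact h0.congr (by omega) (by omega)
  have c3 : Cov S (6 * (h : ℤ) - 1) (7 * (h : ℤ) - 1) := by
    have h0 := cov_Nn (2 * h) 2 (aTwo h) K
    rw [aTwo_2] at h0
    exact h0.congr (by omega) (by omega)
  have c4 : Cov S (7 * (h : ℤ) - 1) (10 * (h : ℤ) - 2) := by
    have h0 := cov_E0 (2 * h) 2 (aTwo h) K
    rw [aTwo_0, aTwo_1] at h0
    exact h0.congr (by omega) (by omega)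
  exact ((((c0.trans c1).trans c2).trans c3).trans c4).congr (by norm_num) (by push_cast; ring)

end Pool.Agent.Helper29.EMT
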