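import Mathlib
import Pool.Agent.Helper29.EMT.Defs

/-!
# MP_5186fc_co : the `4 × 4` grid
-/

set_option autoImplicit false

open SimpleGraph

namespace Pool.Agent.Helper29.EMT

/-- the vertex labels for the `4 × 4` grid -/
def f44 (r c : ℕ) : ℤ :=
  ([15, 33, 16, 14, 32, 24, 35, 23, 6, 36, 28, 27, 37, 29, 39, 7] : List ℤ).getD (4 * r + c) 0

theorem f44_cov : ∀ l : Fin 40,
    (∃ r c : Fin 4, f44 r c = (l : ℕ)) ∨
    (∃ (r : Fin 3) (c : Fin 4), 68 - f44 r c - f44 (r + 1) c = (l : ℕ)) ∨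
    (∃ (r : Fin 4) (c : Fin 3), 68 - f44 r c - f44 r (c + 1) = (l : ℕ)) := by
  decide

/-- the `4 × 4` grid is edge-magic total -/
theorem isEMT_four_four : IsEMT (grid 4 4) := by
  refine isEMT_of_cover 4 4 (by norm_num) (by norm_num) f44 68 ?_
  intro l hl0 hl1
  norm_num at hl1
  have h := f44_cov ⟨l.toNat, by omega⟩
  have hl : ((l.toNat : ℕ) : ℤ) = l := Int.toNat_of_nonneg hl0
  rcases h with ⟨r, c, h⟩ | ⟨r, c, h⟩ | ⟨r, c, h⟩
  · left; exact ⟨r, c, r.2, c.2, by rw [h]; exact hl⟩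
  · right; left; exact ⟨r, c, by omega, c.2, by rw [h]; exact hl⟩
  · right; right; exact ⟨r, c, r.2, by omega, by rw [h]; exact hl⟩

end Pool.Agent.Helper29.EMT
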