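import Mathlib
import Pool.Agent.Helper29.EMT.Defs

/-!
# MP_5186fc_co : grids `P_m □ P_n` with `m` even and `n` odd are edge-magic total
-/

set_option autoImplicit false

open SimpleGraph

namespace Pool.Agent.Helper29.EMT

/-- start of the `k`-th vertex block -/
def pB (q k : ℕ) : ℤ := 3 * q * k - ((k + 1) / 2 : ℕ)

/-- the vertex labels -/
def fB (q t r c : ℕ) : ℤ :=
  (if (r + c) % 2 = 0 then pB q c else pB q (2 * t + 1 + c)) + (r / 2 : ℕ)

theorem pB_even (q a : ℕ) : pB q (2 * a) = 6 * q * a - a := by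
  have h : (2 * a + 1) / 2 = a := by omega
  rw [pB, h]; push_cast; ring

theorem pB_odd (q a : ℕ) : pB q (2 * a + 1) = 6 * q * a + 3 * q - a - 1 := by
  have h : (2 * a + 1 + 1) / 2 = a + 1 := by omega
  rw [pB, h]; push_cast; ring

theorem fB_ee (q t i a : ℕ) : fB q t (2 * i) (2 * a) = 6 * q * a - a + i := by
  have h1 : (2 * i + 2 * a) % 2 = 0 := by omega
  have h2 : (2 * i) / 2 = i := by omega
  rw [fB, if_pos h1, h2, pB_even]

theorem fB_oo (q t i a : ℕ) :
    fB q t (2 * i + 1) (2 * a + 1) = 6 * q * a + 3 * q - a - 1 + i := by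
  have h1 : (2 * i + 1 + (2 * a + 1)) % 2 = 0 := by omega
  have h2 : (2 * i + 1) / 2 = i := by omega
  rw [fB, if_pos h1, h2, pB_odd]

theorem fB_oe (q t i a : ℕ) :
    fB q t (2 * i + 1) (2 * a) = 6 * q * (t + a) + 3 * q - (t + a) - 1 + i := by
  have h1 : ¬ (2 * i + 1 + 2 * a) % 2 = 0 := by omega
  have h2 : (2 * i + 1) / 2 = i := by omega
  have h3 : 2 * t + 1 + 2 * a = 2 * (t + a) + 1 := by ring
  rw [fB, if_neg h1, h2, h3, pB_odd]; push_cast; ring

theorem fB_eo (q t i a : ℕ) :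
    fB q t (2 * i) (2 * a + 1) = 6 * q * (t + a + 1) - (t + a + 1) + i := by
  have h1 : ¬ (2 * i + (2 * a + 1)) % 2 = 0 := by omega
  have h2 : (2 * i) / 2 = i := by omega
  have h3 : 2 * t + 1 + (2 * a + 1) = 2 * (t + a + 1) := by ring
  rw [fB, if_neg h1, h2, h3, pB_even]; push_cast; ring

/-- vertical sums -/
theorem fB_vert (q t r c : ℕ) :
    fB q t r c + fB q t (r + 1) c = 3 * q * (2 * t + 1 + 2 * c) - (c + t + 1) + r := by
  rcases Nat.even_or_odd' r with ⟨i, rfl | rfl⟩ <;> rcases Nat.even_or_odd' c with ⟨a, rfl | rfl⟩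
  · rw [fB_ee, fB_oe]; push_cast; ring
  · rw [fB_eo, fB_oo]; push_cast; ring
  · rw [show 2 * i + 1 + 1 = 2 * (i + 1) by ring, fB_ee, fB_oe]; push_cast; ring
  · rw [show 2 * i + 1 + 1 = 2 * (i + 1) by ring, fB_eo, fB_oo]; push_cast; ring

/-- horizontal sums, even rows -/
theorem fB_horiz_even (q t i c : ℕ) :
    fB q t (2 * i) c + fB q t (2 * i) (c + 1)
      = 3 * q * (2 * t + 1 + 2 * c) - (c + t + 1) + 3 * q + 2 * i := by
  rcases Nat.even_or_odd' c with ⟨a, rfl | rfl⟩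
  · rw [fB_ee, fB_eo]; push_cast; ring
  · rw [show 2 * a + 1 + 1 = 2 * (a + 1) by ring, fB_ee, fB_eo]; push_cast; ring

/-- horizontal sums, odd rows -/
theorem fB_horiz_odd (q t i c : ℕ) :
    fB q t (2 * i + 1) c + fB q t (2 * i + 1) (c + 1)
      = 3 * q * (2 * t + 1 + 2 * c) - (c + t + 1) + 3 * q - 1 + 2 * i := by
  rcases Nat.even_or_odd' c with ⟨a, rfl | rfl⟩
  · rw [fB_oe, fB_oo]; push_cast; ring
  · rw [show 2 * a + 1 + 1 = 2 * (a + 1) by ring, fB_oe, fB_oo]; push_cast; ring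

/-- grids with an even number of rows and an odd number of columns -/
theorem isEMT_even_odd (q t : ℕ) (hq : 1 ≤ q) : IsEMT (grid (2 * q) (2 * t + 1)) := by
  refine isEMT_of_cover _ _ (by omega) (by omega) (fB q t)
    (18 * q * t + 6 * q - 3 * t - 3) ?_
  intro l hl0 hl1
  -- write `l = (6q-1) j + u`
  obtain ⟨l', rfl⟩ := Int.eq_ofNat_of_zero_le hl0
  obtain ⟨d, hd⟩ : ∃ d, d = 6 * q - 1 := ⟨_, rfl⟩
  have hdpos : 0 < d := by omega
  obtain ⟨j, hj⟩ : ∃ j, j = l' / d := ⟨_, rfl⟩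
  obtain ⟨u, hu⟩ : ∃ u, u = l' % d := ⟨_, rfl⟩
  have hlu : l' = d * j + u := by rw [hj, hu]; exact (Nat.div_add_mod l' d).symm
  have hud : u < d := by rw [hu]; exact Nat.mod_lt _ hdpos
  have hdz : (d : ℤ) = 6 * q - 1 := by omega
  have hluz : (l' : ℤ) = (6 * q - 1) * j + u := by rw [hlu]; push_cast; rw [hdz]
  have hL : (l' : ℤ) < (6 * q - 1) * (2 * t) + 4 * q - 1 := by
    push_cast at hl1; linarith
  -- bound on j
  have hj2 : j ≤ 2 * t := by
    by_contra hcon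
    push Not at hcon
    have h1 : (2 * t + 1 : ℤ) ≤ j := by exact_mod_cast hcon
    have h2 : (6 * (q : ℤ) - 1) * (2 * t + 1) ≤ (6 * q - 1) * j := by
      apply mul_le_mul_of_nonneg_left h1; omega
    nlinarith
  have hj3 : j = 2 * t → u < 4 * q - 1 := by
    intro h
    subst h
    rw [hluz] at hL
    push_cast at hL
    omega
  by_cases c1 : u < q
  · -- vertex block 2j
    left
    rcases Nat.even_or_odd' j with ⟨a, ha⟩
    by_cases hjt : j ≤ t
    · refine ⟨2 * u, 2 * j, by omega, by omega, ?_⟩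
      rw [fB_ee, hluz]; ring
    · obtain ⟨b, hb⟩ : ∃ b, j = t + b + 1 := ⟨j - t - 1, by omega⟩
      refine ⟨2 * u, 2 * b + 1, by omega, by omega, ?_⟩
      rw [fB_eo, hluz, hb]; push_cast; ring
  by_cases c2 : u < 3 * q - 1
  · -- vertical edges of column 2t - j
    right; left
    refine ⟨3 * q - 2 - u, 2 * t - j, by omega, by omega, ?_⟩
    rw [sub_sub, fB_vert, hluz]
    have h1 : ((3 * q - 2 - u : ℕ) : ℤ) = 3 * q - 2 - u := by omega
    have h2 : ((2 * t - j : ℕ) : ℤ) = 2 * t - j := by omega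
    rw [h1, h2]; ring
  by_cases c3 : u < 4 * q - 1
  · -- vertex block 2j+1
    left
    obtain ⟨w, hw⟩ : ∃ w, u = w + (3 * q - 1) := ⟨u - (3 * q - 1), by omega⟩
    have hwz : (u : ℤ) = w + 3 * q - 1 := by omega
    by_cases hjt : j < t
    · refine ⟨2 * w + 1, 2 * j + 1, by omega, by omega, ?_⟩
      rw [fB_oo, hluz, hwz]; ring
    · obtain ⟨b, hb⟩ : ∃ b, j = t + b := ⟨j - t, by omega⟩
      refine ⟨2 * w + 1, 2 * b, by omega, by omega, ?_⟩
      rw [fB_oe, hluz, hwz, hb]; push_cast; ring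
  · -- horizontal edges between the columns 2t-1-j and 2t-j
    right; right
    have hj4 : j + 1 ≤ 2 * t := by
      by_contra hcon
      exact c3 (hj3 (by omega))
    obtain ⟨w, hw⟩ : ∃ w, w = 6 * q - 2 - u := ⟨_, rfl⟩
    have hwz : (u : ℤ) = 6 * q - 2 - w := by omega
    have h2 : ((2 * t - 1 - j : ℕ) : ℤ) = 2 * t - 1 - j := by omega
    rcases Nat.even_or_odd' w with ⟨i, hi | hi⟩
    · refine ⟨2 * i + 1, 2 * t - 1 - j, by omega, by omega, ?_⟩
      rw [sub_sub, fB_horiz_odd, hluz, hwz, hi, h2]; push_cast; ring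
    · refine ⟨2 * i, 2 * t - 1 - j, by omega, by omega, ?_⟩
      rw [sub_sub, fB_horiz_even, hluz, hwz, hi, h2]; push_cast; ring

/-- **Opposite parity.** If `m + n` is odd, the `m × n` grid is edge-magic total. -/
theorem isEMT_of_odd_add (m n : ℕ) (hm : 1 ≤ m) (hn : 1 ≤ n) (h : Odd (m + n)) :
    IsEMT (grid m n) := by
  rcases Nat.even_or_odd' m with ⟨q, rfl | rfl⟩
  · rcases Nat.even_or_odd' n with ⟨t, rfl | rfl⟩
    · exfalso; obtain ⟨s, hs⟩ := h; omega
    · exact isEMT_even_odd q t (by omega)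
  · rcases Nat.even_or_odd' n with ⟨t, rfl | rfl⟩
    · exact isEMT_grid_symm (isEMT_even_odd t q (by omega))
    · exfalso; obtain ⟨s, hs⟩ := h; omega

end Pool.Agent.Helper29.EMT
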