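import Mathlib
import Pool.Agent.Helper29.EMT.Defs

/-!
# MP_5186fc_co : paths (`n = 1`, known: Kotzig and Rosa 1970)
-/

set_option autoImplicit false

open SimpleGraph

namespace Pool.Agent.Helper29.EMT

/-- vertex labels of the path -/
def fP (m r : ℕ) : ℤ := if r % 2 = 0 then ((r / 2 : ℕ) : ℤ) else (((m + 1) / 2 + r / 2 : ℕ) : ℤ)

/-- paths are edge-magic total -/
theorem isEMT_path (m : ℕ) (hm : 1 ≤ m) : IsEMT (grid m 1) := by
  refine isEMT_of_cover m 1 hm le_rfl (fun r _ => fP m r) (2 * m - 2 + ((m + 1) / 2 : ℕ)) ?_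
  intro l hl0 hl1
  by_cases h1 : l < (m : ℤ)
  · left
    by_cases h2 : l < (((m + 1) / 2 : ℕ) : ℤ)
    · refine ⟨2 * l.toNat, 0, by omega, by omega, ?_⟩
      simp only [fP]
      rw [if_pos (by omega)]
      omega
    · refine ⟨2 * (l.toNat - (m + 1) / 2) + 1, 0, by omega, by omega, ?_⟩
      simp only [fP]
      rw [if_neg (by omega)]
      omega
  · right; left
    obtain ⟨r, hr⟩ : ∃ r : ℕ, r = 2 * m - 2 - l.toNat := ⟨_, rfl⟩
    refine ⟨r, 0, by push_cast at hl1; omega, by omega, ?_⟩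
    push_cast at hl1
    simp only [fP]
    rcases Nat.mod_two_eq_zero_or_one r with h | h
    · rw [if_pos h, if_neg (by omega)]
      omega
    · rw [if_neg (by omega), if_pos (by omega)]
      omega

end Pool.Agent.Helper29.EMT
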