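import Mathlib
import Pool.Agent.Helper29.EMT.Chain

/-!
# MP_5186fc_co : general words for the zigzag chain

The line of labels is cut into `2 n + 1` slots `[p s, p (s + 1))`; `sv j` is the slot of the
vertex block of the layer `j`, `se j` the slot of the edge block between the layers `j`, `j + 1`.
-/

set_option autoImplicit false

open SimpleGraph

namespace Pool.Agent.Helper29.EMT

/-- lengths of the vertex blocks -/
def lenV (m n j : ℕ) : ℤ :=
  if j = 0 then (((m + 1) / 2 : ℕ) : ℤ) else if j = n then ((m / 2 : ℕ) : ℤ) else m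

/-- lengths of the edge blocks -/
def lenE (m n j : ℕ) : ℤ :=
  if j = 0 then (((3 * m - 1) / 2 : ℕ) : ℤ) else if j + 1 = n then (((3 * m - 2) / 2 : ℕ) : ℤ)
    else 2 * m - 1

theorem isEMT_of_slots (m n : ℕ) (hm : 2 ≤ m) (hn : 2 ≤ n) (p : ℕ → ℤ) (sv se : ℕ → ℕ) (K : ℤ)
    (hp0 : p 0 = 0) (hpL : p (2 * n + 1) = 3 * m * n - m - n)
    (hslot : ∀ s, s < 2 * n + 1 → (∃ j, j ≤ n ∧ sv j = s ∧ p (s + 1) = p s + lenV m n j) ∨
      (∃ j, j < n ∧ se j = s ∧ p (s + 1) = p s + lenE m n j))
    (hrel : ∀ j, j < n → p (sv j) + p (sv (j + 1)) + p (se j) + lenE m n j - 1 = K) :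
    IsEMT (grid m n) := by
  obtain ⟨a, ha⟩ : ∃ a : ℕ → ℤ, ∀ j, a j = p (sv j) := ⟨fun j => _, fun j => rfl⟩
  refine isEMT_of_chain m n hm hn a K ?_
  have hstep : ∀ s : ℕ, s < 2 * n + 1 → Cov (chainSet m n a K) (p s) (p (s + 1)) := by
    intro s hs
    rcases hslot s hs with ⟨j, hj, h1, h2⟩ | ⟨j, hj, h1, h2⟩
    · by_cases h0 : j = 0
      · have h3 := cov_N0 m n a K
        rw [← h0, ha, h1] at h3
        refine h3.congr rfl ?_
        rw [h2, lenV, if_pos h0]
      · by_cases hn' : j = n
        · have h3 := cov_Nn m n a K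
          rw [ha, ← hn', h1, hn'] at h3
          refine h3.congr rfl ?_
          rw [h2, lenV, if_neg h0, if_pos hn']
        · have h3 := cov_N m n a K j (by omega) (by omega)
          rw [ha, h1] at h3
          refine h3.congr rfl ?_
          rw [h2, lenV, if_neg h0, if_neg hn']
    · have hr := hrel j hj
      rw [h1, ← ha, ← ha] at hr
      by_cases h0 : j = 0
      · have h3 := cov_E0 m n a K
        have h4 : lenE m n j = (((3 * m - 1) / 2 : ℕ) : ℤ) := by rw [lenE, if_pos h0]
        rw [h4] at h2 hr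
        rw [h0] at hr
        refine h3.congr ?_ ?_ <;> linarith
      · by_cases hn' : j + 1 = n
        · have h3 := cov_En m n a K
          have h4 : lenE m n j = (((3 * m - 2) / 2 : ℕ) : ℤ) := by
            rw [lenE, if_neg h0, if_pos hn']
          rw [h4] at h2 hr
          rw [hn'] at hr
          rw [show n - 1 = j by omega] at h3
          refine h3.congr ?_ ?_ <;> linarith
        · have h3 := cov_E m n a K j (by omega) (by omega)
          have h4 : lenE m n j = 2 * m - 1 := by rw [lenE, if_neg h0, if_neg hn']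
          rw [h4] at h2 hr
          refine h3.congr ?_ ?_ <;> linarith
  have h := Cov.iter (S := chainSet m n a K) p (2 * n + 1) hstep
  rw [hp0, hpL] at h
  exact h

end Pool.Agent.Helper29.EMT
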